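import Pool.Agent.H12.LSH.Shd
import Pool.Agent.H24.GSD.Few
import Pool.Agent.H46.MicA.SubL
import Pool.Agent.H7.MIC.LLd
import Pool.Agent.H19.TIE.GluV
import Pool.Agent.H65.GRD.Leaf

/-!
# The case without ties: objects and interfaces

`(i, j)` is the base pair, `G` the shape of the target on the whole base, in the scaled natural chart
of the visible side, `vtP` its total sheet. `VSt`: the output of STEP V on a sub-law `q'` of `q`.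
`LfA`: the total sheet is the own visible label at `(i', j')` (larger radius, shorter window) on the
mixed box. `LfB`: it is the line side of the label at `(i₁, j₁)` (smaller radius, longer window) for
points with the same heights of the narrow coordinates there. Both up to a constant.
-/

set_option autoImplicit false

namespace Pool.VAS

open Finset MvPolynomial
open Pool.Agent.H49.Ent Pool.Agent.H32.Dense Pool.STK Pool.STAT Pool.MIC Pool.MicA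
open Pool.BFL (Pl Pb)
open Pool.TIE (SubL dg MB)
open Pool.GSD (YpS ztS vtP)
open Pool.LSH (Pls Plc Pln SDat Zd Vd yd cl shf cf2 qd VdT ZeT xvp tt Fd)

/-- The visible context. -/
def zv (D : NDat2) (i j : ℕ) (ω : D.Ω) : (D.S × D.S) × ℕ := ((D.s i j ω, D.s 0 j ω), D.T ω)

/-- The height of the target over the total sheet, `X` digits. -/
noncomputable def hT (D : NDat2) (n z i j X : ℕ) (F : Pl (n - 1)) (ω : D.Ω) : ℤ :=
  dg X ((2 : ℝ) ^ D.g i j n * (D.X ω n - eval (D.X ω) (vtP n z (D.g i j) (D.Ψ i j ω) F)))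

/-- **The output of STEP V** at `(i, j)`. -/
structure VSt (D : NDat2) (n z i j X K' : ℕ) (q : D.Ω → ℝ) (c₁ θ bb : ℝ) {Ω' : Type}
    [Fintype Ω'] (q' : Ω' → ℝ) (f : Ω' → D.Ω) (G : Ω' → Pl (n - 1)) : Prop where
  sub : SubL q c₁ q' f
  deg : ∀ w, (G w).totalDegree ≤ K'
  cf : ∀ w α, |coeff α (G w)| ≤ (2 : ℝ) ^ bb
  few : CH q' G (fun w => zv D i j (f w)) ≤ θ
  full : ((n - 1 : ℕ) : ℝ) * (X * Real.log 2) - θ ≤
    CH q' (fun w => YpS D n z i j X (D.Ψ i j) (f w))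
      (fun w => (hT D n z i j X (G w) (f w), (G w, zv D i j (f w))))

/-- **Leaf, visible side.** -/
def LfA (D : NDat2) (n z i j i' j' : ℕ) (F : Pl (n - 1)) (ε : ℝ) (ω : D.Ω) : Prop :=
  ∀ b b' : ℕ → ℝ, MB D i j i' j' n ω b → MB D i j i' j' n ω b' →
    |(eval b (vtP n z (D.g i j) (D.Ψ i j ω) F) - eval b (D.Ψ i' j' ω n)) -
      (eval b' (vtP n z (D.g i j) (D.Ψ i j ω) F) - eval b' (D.Ψ i' j' ω n))| ≤
        ε / 2 ^ D.g i j n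

/-- The point `b` is in the box of size `ρ` at `(i, j)` (line side), and its narrow coordinates at
`(i₁, j₁)` are in the box there. -/
def BxB (D : NDat2) (n i j i₁ j₁ : ℕ) (ρ : ℝ) (ω : D.Ω) (b : ℕ → ℝ) : Prop :=
  b 0 = D.X ω 0 ∧ (∀ l, 1 ≤ l → l < n → |b l - eval b (D.Φ i j ω l)| ≤ ρ / 2 ^ D.g i j l) ∧
    ∀ l, 1 ≤ l → l < n → D.g i j l < D.g i₁ j₁ l →
      |b l - eval b (D.Φ i₁ j₁ ω l)| ≤ ρ / 2 ^ D.g i₁ j₁ l

/-- **Leaf, line side.** -/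
def LfB (D : NDat2) (n z i j i₁ j₁ X : ℕ) (F : Pl (n - 1)) (ρ ε : ℝ) (ω : D.Ω) : Prop :=
  ∀ b b' : ℕ → ℝ, BxB D n i j i₁ j₁ ρ ω b → BxB D n i j i₁ j₁ ρ ω b' →
    (∀ l, 1 ≤ l → l < n → D.g i j l < D.g i₁ j₁ l →
      |(b l - eval b (D.Φ i₁ j₁ ω l)) - (b' l - eval b' (D.Φ i₁ j₁ ω l))| ≤
        ρ / 2 ^ (D.g i₁ j₁ l + X)) →
    |(eval b (vtP n z (D.g i j) (D.Ψ i j ω) F) - eval b (D.Φ i₁ j₁ ω n)) -
      (eval b' (vtP n z (D.g i j) (D.Ψ i j ω) F) - eval b' (D.Φ i₁ j₁ ω n))| ≤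
        ε / 2 ^ D.g i j n

/-- Places of larger radius and shorter window: the coordinates of larger ratio and the target are
deeper by `X`, the others are not deeper. -/
structure PlA (D : NDat2) (n X : ℕ) (lam gam : ℕ → ℝ) (i j i' j' : ℕ) : Prop where
  le : i' ≤ i ∧ j ≤ j'
  big : ∀ l, 1 ≤ l → l < n → gam n * lam l < gam l * lam n → D.g i j l + X ≤ D.g i' j' l
  small : ∀ l, 1 ≤ l → l < n → gam l * lam n < gam n * lam l → D.g i' j' l ≤ D.g i j l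
  tgt : D.g i j n + X ≤ D.g i' j' n

/-- Places of smaller radius and longer window: the coordinates of smaller ratio are deeper by `X`,
those of larger ratio are coarser by `X`, the target is deeper or coarser by at most `c z`. -/
structure PlB (D : NDat2) (n X c z : ℕ) (lam gam : ℕ → ℝ) (i j i₁ j₁ : ℕ) : Prop where
  le : i ≤ i₁ ∧ j₁ ≤ j
  small : ∀ l, 1 ≤ l → l < n → gam l * lam n < gam n * lam l → D.g i j l + X ≤ D.g i₁ j₁ l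
  big : ∀ l, 1 ≤ l → l < n → gam n * lam l < gam l * lam n → D.g i₁ j₁ l + X ≤ D.g i j l
  tgt : D.g i₁ j₁ n ≤ D.g i j n + c * z ∧ D.g i j n ≤ D.g i₁ j₁ n + c * z

/-- Room of `R` steps around `(i, j)`. -/
def Room (R i j M : ℕ) : Prop := R ≤ i ∧ i + R ≤ M ∧ R ≤ j ∧ j + R ≤ M

/-- **STEP V with matching in a cell.** `s = ⌊σ X⌋` digits of the leaves are matched, the places of
the leaves are `s` digits away; the coefficients of the shape cost `Ca ε X` of them. -/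
def VTopStmt (Q : Cond2) : Prop :=
  ∀ (n K B : ℕ) (lam gam : ℕ → ℝ) (C₁ h : ℝ), 1 ≤ n → 1 ≤ B → (∀ l, 1 ≤ lam l) →
    (∀ l, 0 ≤ gam l) → 0 < gam n → 1 ≤ C₁ → 0 < h → h ≤ 1 → Q n lam gam →
    ∃ (K' : ℕ) (σ Ca : ℝ), 0 < σ ∧ 4 * B * σ ≤ 1 ∧ 0 ≤ Ca ∧ ∀ ε : ℝ, 0 < ε → ∃ c₁ : ℝ, 0 < c₁ ∧
    ∀ (Bb c : ℕ), ∃ c' : ℕ, ∀ (e : ℝ) (Rf : ℕ → ℕ) (m₀ : ℕ), 0 < e →
    ∃ (N₀ M : ℕ) (κ ϖ : ℝ) (z₀ : ℕ), 0 < κ ∧ 0 < ϖ ∧
    ∀ (J a₀ w₀ z : ℕ) (D : NDat2) (q : D.Ω → ℝ), z₀ ≤ z →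
      D.Ok2 n K J a₀ w₀ z M lam gam κ C₁ q → D.NF n z M B gam h C₁ ϖ q → D.TmU J w₀ z κ q →
      ∃ (i j X : ℕ) (Ω' : Type) (_ : Fintype Ω') (q' : Ω' → ℝ) (f : Ω' → D.Ω)
        (G : Ω' → Pl (n - 1)), m₀ * z ≤ X ∧ X ≤ N₀ * z ∧ Room (Rf N₀) i j M ∧
        VSt D n z i j X K' q c₁ (ε * X) (ε * X) q' f G ∧
        (∀ i' j', i' < M → j' < M → PlA D n ⌊σ * X⌋₊ lam gam i j i' j' →
          Pb q' (fun w => ¬ LfA D n z i j i' j' (G w)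
              (2 ^ (c' * z) * (2 : ℝ) ^ (Ca * ε * X) / 2 ^ ⌊σ * X⌋₊) (f w)) ≤ e) ∧
        ∀ i₁ j₁, i₁ < M → j₁ < M → PlB D n ⌊σ * X⌋₊ c z lam gam i j i₁ j₁ →
          Pb q' (fun w => ¬ LfB D n z i j i₁ j₁ ⌊σ * X⌋₊ (G w) (2 ^ (Bb * z))
            (2 ^ (c' * z) * (2 : ℝ) ^ (Ca * ε * X) / 2 ^ ⌊σ * X⌋₊) (f w)) ≤ e

/-! ### The sheets -/

/-- The frozen path: the coordinates with rank have their heights over the labels at `a`, the others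
are zero in the chart of `o`. -/
noncomputable def xf (D : NDat2) {k : ℕ} (π : Pls k) (q : D.Ω → ℝ) (J w : ℕ) (ω₀ : D.Ω) (X : ℕ)
    (a : ℕ × ℕ) (x : D.Λ × ℕ) (t : ℝ) (i : Fin k) : ℝ :=
  Pool.MIC.Frm.nat (Pool.LSH.gl D π.o) (atT (tt w x.2 t) (D.P π.o.1 π.o.2 (cl D q J w ω₀ π.o x)))
    (xvp D π w X a (Vd D π q J w ω₀ X a x).1 t) (π.co i)

/-- **The data of the sheets** on a sub-law `P` of `q`. -/
noncomputable def shP (D : NDat2) {k : ℕ} (π : Pls k) (q : D.Ω → ℝ) (J w : ℕ) (ω₀ : D.Ω)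
    (n X N K : ℕ) (a : ℕ × ℕ) {Om : Type} [Fintype Om] (P : Om → ℝ) (f : Om → D.Ω) {Tau : Type}
    (T : Om → Tau) (th : Tau → ℝ) (F : Tau → MvPolynomial (Fin k) ℝ) (Nn : Om → ℤ) :
    SDat k N N K where
  Om := Om
  Lam := D.Λ × ℕ
  Tau := Tau
  Nu := VdT D k
  Ze := ZeT D k
  Be := D.Γ
  P := P
  L := fun v => D.wn J w (f v)
  T := T
  V := Vd D π q J w ω₀ X a
  Z := Zd D π q J w ω₀ X
  B := cl D q J w ω₀ π.o
  y := yd D π q J w ω₀ X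
  x := xf D π q J w ω₀ X a
  sg := fun r ζ i => cf2 N fun t y => shf D π w X r ζ t y i
  q := fun x => qd D π n w X N a (Vd D π q J w ω₀ X a x)
  N := Nn
  th := th
  s := fun _ => 0
  F := F
  X := X

/-- The relative time. -/
noncomputable def thq (J w : ℕ) (t : ℕ) : ℝ := ((t % 2 ^ (J - w) : ℕ) : ℝ) / 2 ^ (J - w)

/-- The line at the window of `o`, the point of the frozen path at the time of the sample. -/
noncomputable def xvs (D : NDat2) {k : ℕ} (π : Pls k) (q : D.Ω → ℝ) (J w : ℕ) (ω₀ : D.Ω) (X : ℕ)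
    (a : ℕ × ℕ) (ω : D.Ω) : ℕ → ℝ :=
  xvp D π w X a (Vd D π q J w ω₀ X a (D.wn J w ω)).1 (thq J w (thr D J w ω))

/-- **The geometry of the sheets** on the samples of `G`. -/
structure ShF (D : NDat2) {k : ℕ} (π : Pls k) (q : D.Ω → ℝ) (J w : ℕ) (ω₀ : D.Ω)
    (n X N K : ℕ) (a : ℕ × ℕ) (c : ℝ) (G : Set D.Ω) : Prop where
  /-- everything which does not depend on the shape -/
  ok : (shP D π q J w ω₀ n X N K a q id (fun ω => (D.c π.o.1 π.o.2 ω, thr D J w ω))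
    (fun τ => thq J w τ.2) (fun _ => 0)
    (fun ω => ⌊(2 : ℝ) ^ X * ∑ i, qd D π n w X N a (Vd D π q J w ω₀ X a (D.wn J w ω)) i *
      thq J w (thr D J w ω) ^ (i.val + 1)⌋)).OK G c
  /-- the height of the target over the label at `a` is constant along the line -/
  tgt : ∀ ω ∈ G, ∀ ω' ∈ G, 0 < q ω → 0 < q ω' → D.wn J w ω = D.wn J w ω' →
    |(D.X ω n - eval (D.X ω) (D.Φ a.1 a.2 ω n)) - (D.X ω' n - eval (D.X ω') (D.Φ a.1 a.2 ω' n))| *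
      2 ^ D.g π.o.1 π.o.2 n ≤ (2 : ℝ) ^ (c - X)
  mot : ∀ ω ∈ G, 0 < q ω → ∀ t : ℝ,
    ∑ i, qd D π n w X N a (Vd D π q J w ω₀ X a (D.wn J w ω)) i * t ^ (i.val + 1) =
      Pool.LSH.dnf D π n w X a (Vd D π q J w ω₀ X a (D.wn J w ω)).1 t -
        Pool.LSH.dnf D π n w X a (Vd D π q J w ω₀ X a (D.wn J w ω)).1 0
  /-- the sample and the frozen point are in the boxes -/
  box : ∀ ω ∈ G, 0 < q ω → BxB D n π.o.1 π.o.2 a.1 a.2 ((2 : ℝ) ^ c) ω (D.X ω) ∧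
    BxB D n π.o.1 π.o.2 a.1 a.2 ((2 : ℝ) ^ c) ω (xvs D π q J w ω₀ X a ω)
  /-- they have the same narrow heights -/
  hts : ∀ ω ∈ G, 0 < q ω → ∀ l, 1 ≤ l → l < n → D.g π.o.1 π.o.2 l < D.g a.1 a.2 l →
    |(D.X ω l - eval (D.X ω) (D.Φ a.1 a.2 ω l)) -
      (xvs D π q J w ω₀ X a ω l - eval (xvs D π q J w ω₀ X a ω) (D.Φ a.1 a.2 ω l))| ≤
      (2 : ℝ) ^ c / 2 ^ (D.g a.1 a.2 l + X)

/-- **The sheets of a cell, wide coordinates allowed.** -/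
def ShFStmt : Prop :=
  ∀ (n K : ℕ) (lam gam : ℕ → ℝ) (C₁ : ℝ), 1 ≤ n → 1 ≤ C₁ →
    ∃ N : ℕ, ∀ c K' : ℕ, ∃ C : ℝ, 0 ≤ C ∧ ∀ (M : ℕ) (η : ℝ), 2 ≤ M → 0 < η →
    ∃ (κ : ℝ) (z₀ : ℕ), 0 < κ ∧
    ∀ (J a₀ w₀ z X k : ℕ) (D : NDat2) (q : D.Ω → ℝ) (π : Pls k) (a : ℕ × ℕ) (ω₀ : D.Ω),
      z₀ ≤ z → z ≤ X → Plc D n z X c M π → Pln D n z X c M π a →
      (∀ r l, 1 ≤ l → l < n → D.g (π.p r).1 (π.p r).2 l + X ≤ D.g a.1 a.2 l) →
      (∀ l, 1 ≤ l → l < n → ¬ π.rk l < k → D.g a.1 a.2 l ≤ D.g π.o.1 π.o.2 l) →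
      D.Ok2 n K J a₀ w₀ z M lam gam κ C₁ q → D.TmU J w₀ z κ q →
      ∃ G : Set D.Ω, Pb q (fun ω => ω ∉ G) ≤ η ∧
        ShF D π q J (w₀ + π.o.2 * z) ω₀ n X N K' a (C * z) G

end Pool.VAS
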