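import Pool.Agent.H1.TIE.Sub
import Pool.Agent.H88.TIE.Ic

/-!
# Entropies on a sub-law
-/

set_option autoImplicit false

namespace Pool.VAS

open Finset Real
open Pool.Agent.H49.Ent Pool.Agent.H32.Dense Pool.STK Pool.BFL
open Pool.TIE (SubL)

variable {Ω Ω' : Type} [Fintype Ω] [Fintype Ω'] {p : Ω → ℝ} {c : ℝ} {q : Ω' → ℝ} {f : Ω' → Ω}

theorem sub_c1 (hp : IsLaw p) (hc : 0 < c) (h : SubL p c q f) : c ≤ 1 :=
  (Pool.TIE.mix hp (SubL.law h) hc h.dens).1

/-- The support of a sub-law. -/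
theorem sub_pos (hc : 0 < c) (h : SubL p c q f) {w : Ω'} (hw : 0 < q w) : 0 < p (f w) := by
  classical
  have h1 : 0 < law q f (f w) := by
    have h2 : q w ≤ law q f (f w) := by
      unfold law
      refine le_trans (le_of_eq ?_) (Finset.single_le_sum
        (f := fun w' => if f w' = f w then q w' else 0) (fun w' _ => by
          split_ifs
          · exact h.isLaw.nonneg w'
          · exact le_rfl) (Finset.mem_univ w))
      rw [if_pos rfl]
    linarith
  exact (mul_pos hc h1).trans_le (h.dens (f w))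

theorem sub_det (hc : 0 < c) (h : SubL p c q f) {S T : Type} {X : Ω → S} {Y : Ω → T}
    (hd : Det p X Y) : Det q (fun w => X (f w)) (fun w => Y (f w)) := fun w w' hw hw' e =>
  hd _ _ (sub_pos hc h hw) (sub_pos hc h hw') e

/-- **Few bits.** -/
theorem sub_few (hp : IsLaw p) (hc : 0 < c) (h : SubL p c q f) {S T : Type} (X : Ω → S)
    (Y : Ω → T) : CH q (fun w => X (f w)) (fun w => Y (f w)) ≤ CH p X Y / c := by
  obtain ⟨hc1, ρ, hρ0, _, hm⟩ := Pool.TIE.mix hp (SubL.law h) hc h.dens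
  have h1 := (hm X Y).1
  rw [SubL.push q f X Y, le_div_iff₀ hc]
  have h2 : 0 ≤ (1 - c) * CH ρ (fun w => X w.1) (fun w => Y w.1) :=
    mul_nonneg (by linarith) (CH_nonneg hρ0 _ _)
  linarith

/-- **Mutual information.** -/
theorem sub_mi (hp : IsLaw p) (hc : 0 < c) (h : SubL p c q f) {S T U : Type} (X : Ω → S)
    (Y : Ω → T) (Z : Ω → U) (hZ : Det p Z Y) {θ : ℝ} (hθ : CH p X Y ≤ CH p X Z + θ) :
    CH q (fun w => X (f w)) (fun w => Y (f w)) ≤
      CH q (fun w => X (f w)) (fun w => Z (f w)) + (θ + Real.log 2) / c := by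
  classical
  obtain ⟨hc1, ρ, hρ0, _, hm⟩ := Pool.TIE.mix hp (SubL.law h) hc h.dens
  -- use the pair `(Z, Y)`
  have e0 : CH p X Z ≤ CH p X (fun ω => (Z ω, Y ω)) :=
    CH_mono_cond hp.nonneg fun ω ω' a b e => by
      have := hZ ω ω' a b e
      exact Prod.ext e this
  have e1 : CH (law q f) X (fun ω => (Z ω, Y ω)) ≤ CH (law q f) X Z :=
    CH_mono_cond (law_nonneg h.isLaw.nonneg f) fun _ _ _ _ e => (Prod.ext_iff.1 e).1
  have h1 := (hm X Y).1
  have h2 := (hm X (fun ω => (Z ω, Y ω))).2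
  have h3 : CH ρ (fun w => X w.1) (fun w => (Z w.1, Y w.1)) ≤
      CH ρ (fun w => X w.1) (fun w => Y w.1) :=
    CH_mono_cond hρ0 fun _ _ _ _ e => (Prod.ext_iff.1 e).2
  have h4 := mul_le_mul_of_nonneg_left h3 (show (0 : ℝ) ≤ 1 - c by linarith)
  rw [SubL.push q f X Y, SubL.push q f X Z]
  have h5 : c * CH (law q f) X Y ≤ c * (CH (law q f) X Z + (θ + Real.log 2) / c) := by
    have h6 : c * ((θ + Real.log 2) / c) = θ + Real.log 2 := by field_simp
    have h7 := mul_le_mul_of_nonneg_left e1 hc.le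
    rw [mul_add, h6]
    linarith
  exact le_of_mul_le_mul_left h5 hc

/-- **Fullness.** -/
theorem sub_full (hp : IsLaw p) (hc : 0 < c) (h : SubL p c q f) {S T : Type} (X : Ω → S)
    (Y : Ω → T) {M θ : ℝ} (hM0 : 0 ≤ M)
    (hM : ∀ (Ω'' : Type) [Fintype Ω''] (r : Ω'' → ℝ) (g : Ω'' → Ω), IsLaw r →
      CH r (fun w => X (g w)) (fun w => Y (g w)) ≤ M)
    (hθ : M - θ ≤ CH p X Y) :
    M - (θ + Real.log 2) / c ≤ CH q (fun w => X (f w)) (fun w => Y (f w)) := by
  classical
  obtain ⟨hc1, ρ, hρ0, hρ1, hm⟩ := Pool.TIE.mix hp (SubL.law h) hc h.dens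
  have h1 := (hm X Y).2
  rw [SubL.push q f X Y]
  have h2 : (1 - c) * CH ρ (fun w => X w.1) (fun w => Y w.1) ≤ (1 - c) * M := by
    rcases hc1.lt_or_eq with h3 | h3
    · exact mul_le_mul_of_nonneg_left (hM _ ρ (fun w => w.1) (hρ1 h3)) (by linarith)
    · rw [h3, sub_self, zero_mul, zero_mul]
  have h5 : c * (M - (θ + Real.log 2) / c) ≤ c * CH (law q f) X Y := by
    have h6 : c * ((θ + Real.log 2) / c) = θ + Real.log 2 := by field_simp
    rw [mul_sub, h6]
    linarith
  exact le_of_mul_le_mul_left h5 hc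

/-- Probabilities of bad events. -/
theorem sub_bad (hp : IsLaw p) (hc : 0 < c) (h : SubL p c q f) (E : Ω → Prop) :
    Pb q (fun w => E (f w)) ≤ Pb p E / c := by
  classical
  rw [le_div_iff₀ hc]
  have h1 : Pb q (fun w => E (f w)) = Pb (law q f) E := by
    unfold Pb
    have h2 : ∀ ω : Ω, (if E ω then law q f ω else 0) =
        ∑ w, if f w = ω then (if E (f w) then q w else 0) else 0 := by
      intro ω
      unfold law
      by_cases hE : E ω
      · rw [if_pos hE]
        refine Finset.sum_congr rfl fun w _ => ?_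
        by_cases h3 : f w = ω
        · rw [if_pos h3, if_pos h3, if_pos (h3 ▸ hE)]
        · rw [if_neg h3, if_neg h3]
      · rw [if_neg hE]
        symm
        refine Finset.sum_eq_zero fun w _ => ?_
        by_cases h3 : f w = ω
        · rw [if_pos h3, if_neg (h3 ▸ hE)]
        · rw [if_neg h3]
    rw [Finset.sum_congr rfl fun ω _ => h2 ω, Finset.sum_comm]
    refine Finset.sum_congr rfl fun w _ => ?_
    rw [Finset.sum_ite_eq]
    simp
  rw [h1]
  unfold Pb
  rw [Finset.sum_mul]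
  refine Finset.sum_le_sum fun ω _ => ?_
  split_ifs
  · have := h.dens ω
    linarith
  · linarith

/-- A good event of a sub-law. -/
theorem sub_good (hp : IsLaw p) (hc : 0 < c) (h : SubL p c q f) (E : Ω → Prop) :
    c * Pb q (fun w => E (f w)) ≤ Pb p E := by
  have h1 := sub_bad hp hc h E
  rw [le_div_iff₀ hc] at h1
  linarith

/-- The law on an event as a sub-law. -/
theorem sub_ev {E : Ω → Prop} (hp : IsLaw p) (hE : 0 < Pb p E) :
    SubL p (Pb p E) (cond p E True) id := by
  classical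
  refine ⟨Pool.MIC.isLaw_ev hp E hE, fun ω => ?_⟩
  have h1 : law (cond p E True) id ω = cond p E True ω := by
    unfold law
    rw [Finset.sum_eq_single ω]
    · simp
    · intro b _ hb
      rw [if_neg]
      exact hb
    · intro h
      exact absurd (Finset.mem_univ _) h
  rw [h1]
  unfold Pool.Agent.H49.Ent.cond
  rw [Pool.MIC.law_True]
  by_cases h2 : E ω
  · rw [if_pos (by simpa using h2)]
    rw [mul_div_cancel₀ _ hE.ne']
  · rw [if_neg (by simpa using h2), mul_zero]
    exact hp.nonneg ω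

end Pool.VAS
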