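import Pool.Agent.H19.VAS.Obj
import Pool.Agent.H50.LSH.H2g

/-!
# The case without ties: the height is independent of the data of the line, on a sub-law
-/

set_option autoImplicit false

namespace Pool.VAS

open Finset MvPolynomial
open Pool.Agent.H49.Ent Pool.Agent.H32.Dense Pool.STK Pool.STAT Pool.MIC Pool.MicA
open Pool.BFL (Pl Pb)
open Pool.TIE (SubL)
open Pool.LSH (Pls Plc Pln Plg)

/-- **(H2)** on a sub-law: `o'` is the place of the leaf on the visible side. -/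
def H2TStmt : Prop :=
  ∀ (n K K' K₀ N : ℕ) (lam gam : ℕ → ℝ) (C₁ : ℝ), 1 ≤ n → 1 ≤ C₁ → dT n K K' ≤ K₀ →
    ∀ c : ℕ, ∃ C : ℝ, 1 ≤ C ∧ ∀ (M : ℕ) (η : ℝ), 2 ≤ M → 0 < η → ∃ (κ₀ : ℝ) (z₀ : ℕ), 0 < κ₀ ∧
    ∀ (J a₀ w₀ z X bb k an be s S' : ℕ) (κ κ' c₁ θ acc cc e ι : ℝ) (D : NDat2) (q : D.Ω → ℝ)
      (π : Pls k) (a : ℕ × ℕ) (ω₀ : D.Ω) (Om : Type) [Fintype Om] (P : Om → ℝ) (f : Om → D.Ω)
      (G : Om → Pl (n - 1)), z₀ ≤ z → z ≤ X → κ ≤ κ₀ → κ' ≤ 1 → 0 < c₁ → 2 * η ≤ c₁ →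
      D.Ok2 n K J a₀ w₀ z M lam gam κ C₁ q → D.TmU J w₀ z κ₀ q → D.DMA z M κ' q →
      Plc D n z X c M π → Pln D n z X c M π a → Plg D n z X c M π a an be s S' →
      PlA D n X lam gam π.o.1 π.o.2 (π.o.1 - S' * an) (π.o.2 + S' * be) →
      SubL q c₁ P f → CH P G (fun v => zv D π.o.1 π.o.2 (f v)) ≤ θ →
      (∀ v, (G v).totalDegree ≤ K') → (∀ v α, |coeff α (G v)| ≤ (2 : ℝ) ^ θ) →
      (∀ v, 0 < P v → ∀ α, |coeff α (kTr D n z π.o.1 π.o.2 (G v) (f v))| ≤ 2 ^ bb) →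
      acc * 2 ^ X ≤ (2 : ℝ) ^ cc → 0 ≤ cc → 0 ≤ e →
      Pb P (fun v => ¬ LfA D n z π.o.1 π.o.2 (π.o.1 - S' * an) (π.o.2 + S' * be) (G v) acc
        (f v)) ≤ e → (bb : ℝ) ≤ X →
      C * (z + 1 + η * X) / c₁ + C * (θ + cc + 1 + e * X) ≤ ι * X →
      (shT D π q J (w₀ + π.o.2 * z) ω₀ n X N K₀ z bb a P f G).H2 ι

end Pool.VAS
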