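import Pool.Agent.H19.TIE.Vis
import Pool.Agent.H46.MIC.Cpn
import Pool.Agent.H88.TIE.Ic

/-!
# The popular shape as a function of the exact point

As `vis0`, the context is visible; the visible record determines the digits of the position and of
the height only up to one unit. The popular shape is rounded: it has few bits on the event.
-/

set_option autoImplicit false

namespace Pool.VAS

open Finset Real
open Pool.Agent.H49.Ent Pool.Agent.H32.Dense Pool.STK Pool.BFL Pool.MIC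
open Pool.TIE (vis0 CH_event)

/-- The coefficients of the rounded polynomial. -/
theorem cf_Sp {m K s : ℕ} {P : Pl m} (hP : P.totalDegree ≤ K) {B : ℝ} (hB : 0 ≤ B)
    (h : ∀ k, k ≠ 0 → |MvPolynomial.coeff k P| ≤ B) (k : Fin m →₀ ℕ) :
    |MvPolynomial.coeff k (Sp K s (rk s P))| ≤ B + 1 := by
  classical
  by_cases hk : k = 0
  · subst hk
    rw [coeff_Sp']
    have h3 : ((rk s P 0 : ℤ) : ℝ) = 0 := by
      unfold rk
      rw [if_pos rfl]
      simp
    rw [h3, zero_div, ite_self, abs_zero]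
    linarith
  · have h1 := coeff_sub_Sp (s := s) hP k hk
    have h2 := h k hk
    have h3 : (1 : ℝ) / 2 ^ s ≤ 1 := by
      rw [div_le_one (by positivity)]
      exact one_le_pow₀ one_le_two
    have h4 : |MvPolynomial.coeff k (Sp K s (rk s P))| ≤ |MvPolynomial.coeff k P| +
        |MvPolynomial.coeff k P - MvPolynomial.coeff k (Sp K s (rk s P))| := by
      have := abs_sub_abs_le_abs_sub (MvPolynomial.coeff k (Sp K s (rk s P)))
        (MvPolynomial.coeff k P)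
      rw [abs_sub_comm] at this
      linarith
    linarith

/-- Pigeonhole for a function with finitely many values. -/
theorem pig {Ω S : Type} [Fintype Ω] {p : Ω → ℝ} (hp : IsLaw p) (E : Ω → Prop) (f : Ω → S)
    (T : Finset S) (hT : ∀ ω, 0 < p ω → E ω → f ω ∈ T) {c : ℝ} (hc : 0 < c) (h : c ≤ Pb p E) :
    ∃ x ∈ T, c / T.card ≤ Pb p (fun ω => E ω ∧ f ω = x) := by
  classical
  by_contra hcon
  push Not at hcon
  have hpos : 0 < Pb p E := hc.trans_le h
  have hne : T.Nonempty := by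
    by_contra hne
    rw [Finset.not_nonempty_iff_eq_empty] at hne
    have h1 : Pb p E = 0 := by
      unfold Pb
      refine Finset.sum_eq_zero fun ω _ => ?_
      split_ifs with hE
      · by_contra h2
        have h3 : 0 < p ω := lt_of_le_of_ne (hp.nonneg ω) (Ne.symm h2)
        have := hT ω h3 hE
        rw [hne] at this
        exact absurd this (Finset.notMem_empty _)
      · rfl
    linarith
  have hcard : (0 : ℝ) < T.card := by exact_mod_cast hne.card_pos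
  have h1 : Pb p E ≤ ∑ x ∈ T, Pb p (fun ω => E ω ∧ f ω = x) := by
    unfold Pb
    rw [Finset.sum_comm]
    refine Finset.sum_le_sum fun ω _ => ?_
    by_cases hE : E ω
    · rw [if_pos hE]
      rcases (hp.nonneg ω).eq_or_lt with h2 | h2
      · rw [← h2]
        exact Finset.sum_nonneg fun x _ => by split_ifs <;> exact le_rfl
      · obtain ⟨F, hF⟩ : ∃ F : S → ℝ, F = fun x => if E ω ∧ f ω = x then p ω else 0 := ⟨_, rfl⟩
        have h3 : F (f ω) ≤ ∑ x ∈ T, F x := Finset.single_le_sum (fun x _ => by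
          rw [hF]
          simp only
          split_ifs
          · exact h2.le
          · exact le_rfl) (hT ω h2 hE)
        have h4 : F (f ω) = p ω := by
          rw [hF]
          exact if_pos ⟨hE, rfl⟩
        rw [h4] at h3
        refine h3.trans (le_of_eq (Finset.sum_congr rfl fun x _ => ?_))
        rw [hF]
        by_cases h5 : E ω ∧ f ω = x
        · simp only [if_pos h5]
        · simp only [if_neg h5]
    · rw [if_neg hE]
      exact Finset.sum_nonneg fun x _ => by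
        rw [if_neg (fun h2 => hE h2.1)]
  have h2 : ∑ x ∈ T, Pb p (fun ω => E ω ∧ f ω = x) < ∑ _x ∈ T, c / T.card :=
    Finset.sum_lt_sum_of_nonempty hne hcon
  rw [Finset.sum_const, nsmul_eq_mul, mul_div_cancel₀ _ hcard.ne'] at h2
  linarith

/-- **The popular shape.** -/
theorem visP (m K : ℕ) : ∃ C : ℝ, 1 ≤ C ∧ ∀ (Ω Γ Ρ : Type) [Fintype Ω] (p : Ω → ℝ)
    (X A b s u : ℕ) (z : Ω → Γ) (ρ : Ω → Ρ) (Y : Ω → Fin m → ℤ) (n nu : Ω → ℤ)
    (kap : Ω → Pl m) (θ C₀ η : ℝ), IsLaw p → 1 ≤ u → 0 ≤ θ → 0 ≤ C₀ → 0 < X → 0 < η →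
    Det p ρ z →
    (∀ ω ω', 0 < p ω → 0 < p ω' → ρ ω = ρ ω' →
      (∀ i, |Y ω i - Y ω' i| ≤ 1) ∧ |nu ω - nu ω'| ≤ 1) →
    (∀ ω, 0 < p ω → ∀ i, |((Y ω i : ℤ) : ℝ)| ≤ 2 ^ A * 2 ^ X) →
    (∀ ω, (kap ω).totalDegree ≤ K) →
    (∀ ω, ∀ k, k ≠ 0 → |MvPolynomial.coeff k (kap ω)| ≤ 2 ^ b) →
    (∀ ω, 0 < p ω → |((nu ω : ℤ) : ℝ) - (n ω : ℤ) - 2 ^ X *
      MvPolynomial.eval (fun i => ((Y ω i : ℤ) : ℝ) / 2 ^ X) (kap ω)| ≤ C₀) →
    CH p kap z ≤ θ →
    m * (X * Real.log 2) - θ ≤ CH p Y (fun ω => (n ω, (kap ω, z ω))) →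
    CH p nu (fun ω => (Y ω, z ω)) ≤ (1 - η) * (X * Real.log 2) →
    C * (s + b + u + A + 1 + θ + Real.log (C₀ + 1)) +
      C * (X * (θ + A + 1 + Real.log (C₀ + 1)) / u) ≤ η * X →
    ∃ U : Ρ → Pl m, (∀ x, (U x).totalDegree ≤ K) ∧
      (∀ x k, |MvPolynomial.coeff k (U x)| ≤ 2 ^ b + 1) ∧
      ∃ E : Ω → Prop, η / C ≤ Pb p E ∧
        (∀ ω, 0 < p ω → E ω → ∀ k, k ≠ 0 →
          |MvPolynomial.coeff k (kap ω) - MvPolynomial.coeff k (U (ρ ω))| ≤ 2 / 2 ^ s) ∧
        CH (cond p E True) (fun ω => U (ρ ω)) z ≤ C * (θ + 1) / η := by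
  classical
  obtain ⟨D, hD1, hD⟩ := vis0 m K
  obtain ⟨Ts, hTs⟩ : ∃ Ts : Finset ((Fin m → ℤ) × ℤ), Ts =
    (Fintype.piFinset fun _ => ({-1, 0, 1} : Finset ℤ)) ×ˢ ({-1, 0, 1} : Finset ℤ) := ⟨_, rfl⟩
  obtain ⟨N3, hN3⟩ : ∃ N3 : ℝ, N3 = Real.log (3 ^ nM m K : ℝ) := ⟨_, rfl⟩
  have hN30 : 0 ≤ N3 := by
    rw [hN3]
    exact Real.log_nonneg (one_le_pow₀ (by norm_num))
  have hTc : (1 : ℝ) ≤ Ts.card := by
    have : Ts.Nonempty := ⟨(fun _ => 0, 0), by
      rw [hTs, Finset.mem_product, Fintype.mem_piFinset]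
      exact ⟨fun _ => by simp, by simp⟩⟩
    exact_mod_cast this.card_pos
  refine ⟨D + (2 * Ts.card + 2 * Ts.card + 2 * N3 + 2), by linarith, ?_⟩
  obtain ⟨C, hC⟩ : ∃ C : ℝ, C = D + (2 * Ts.card + 2 * Ts.card + 2 * N3 + 2) := ⟨_, rfl⟩
  rw [← hC]
  have hCD : D ≤ C := by rw [hC]; linarith
  have hCT : 2 * (Ts.card : ℝ) + 2 * N3 ≤ C := by rw [hC]; linarith
  intro Ω Γ Ρ _ p X A b s u z ρ Y n nu kap θ C₀ η hp hu hθ hC₀ hX hη hρz hρYn hY hdeg hcf hnu hk
    hfull hnf hsz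
  obtain ⟨ω₀, hω₀⟩ : ∃ ω, 0 < p ω := by
    by_contra hcon
    push Not at hcon
    have : ∑ ω, p ω ≤ 0 := Finset.sum_nonpos fun ω _ => hcon ω
    rw [hp.sum_one] at this
    linarith
  -- representatives
  obtain ⟨rep, hrep⟩ : ∃ rep : Ρ → Ω, ∀ ω, 0 < p ω → 0 < p (rep (ρ ω)) ∧ ρ (rep (ρ ω)) = ρ ω := by
    refine ⟨fun x => if h : ∃ ω, 0 < p ω ∧ ρ ω = x then h.choose else ω₀, fun ω hω => ?_⟩
    have h : ∃ ω', 0 < p ω' ∧ ρ ω' = ρ ω := ⟨ω, hω, rfl⟩
    simp only [dif_pos h]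
    exact h.choose_spec
  have hL0 : 0 ≤ Real.log (C₀ + 1) := Real.log_nonneg (by linarith)
  have huR : (1 : ℝ) ≤ u := by exact_mod_cast hu
  -- `vis0` with the record `(ρ, Y, nu)`
  obtain ⟨Fs, hFs⟩ := hD Ω Γ (Ρ × ((Fin m → ℤ) × ℤ)) Γ p X A b s u z
    (fun ω => (ρ ω, (Y ω, nu ω))) z Y n nu kap θ 0 C₀ η hp hu hθ le_rfl hC₀ hX
    (fun _ _ _ _ e => e) (fun ω ω' a b e => hρz ω ω' a b (Prod.ext_iff.1 e).1)
    (fun _ _ _ _ e => (Prod.ext_iff.1 (Prod.ext_iff.1 e).2).1)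
    (fun _ _ _ _ e => (Prod.ext_iff.1 (Prod.ext_iff.1 e).2).2)
    (by
      rw [CH_eq_zero hp.nonneg (fun _ _ _ _ e => e),
        CH_eq_zero hp.nonneg (fun ω ω' a b e => hρz ω ω' a b (Prod.ext_iff.1 e).1)]
      linarith)
    hY (fun ω _ => hdeg ω) (fun ω _ => hcf ω) hnu hk hfull hnf (by
      refine le_trans ?_ hsz
      have e1 : D * (s + b + u + A + 1 + θ + 0 + Real.log (C₀ + 1)) ≤
          C * (s + b + u + A + 1 + θ + Real.log (C₀ + 1)) := by
        rw [add_zero]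
        exact mul_le_mul_of_nonneg_right hCD (by positivity)
      have e2 : D * (X * (θ + 0 + A + 1 + Real.log (C₀ + 1)) / u) ≤
          C * (X * (θ + A + 1 + Real.log (C₀ + 1)) / u) := by
        rw [add_zero]
        exact mul_le_mul_of_nonneg_right hCD (by positivity)
      linarith)
  -- the good event
  obtain ⟨E₀, hE₀⟩ : ∃ E₀ : Ω → Prop, E₀ = fun ω =>
    ¬ Lg s (kap ω - kap (Fs (ρ ω, (Y ω, nu ω)))) := ⟨_, rfl⟩
  have hP0 : η / 2 ≤ Pb p E₀ := by
    have h1 := Pb_not hp.sum_one (fun ω => Lg s (kap ω - kap (Fs (ρ ω, (Y ω, nu ω)))))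
    rw [hE₀]
    linarith
  obtain ⟨sh, hsh⟩ : ∃ sh : Ω → (Fin m → ℤ) × ℤ, sh = fun ω =>
    (fun i => Y ω i - Y (rep (ρ ω)) i, nu ω - nu (rep (ρ ω))) := ⟨_, rfl⟩
  have h3s : ∀ x : ℤ, |x| ≤ 1 → x ∈ ({-1, 0, 1} : Finset ℤ) := by
    intro x hx
    rw [abs_le] at hx
    have h1 : x = -1 ∨ x = 0 ∨ x = 1 := by omega
    rcases h1 with h1 | h1 | h1 <;> simp [h1]
  obtain ⟨x, hxT, hxP⟩ := pig hp E₀ sh Ts (fun ω hω _ => by
    obtain ⟨h1, h2⟩ := hρYn ω (rep (ρ ω)) hω (hrep ω hω).1 (hrep ω hω).2.symm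
    rw [hTs, Finset.mem_product, Fintype.mem_piFinset, hsh]
    exact ⟨fun i => h3s _ (h1 i), h3s _ h2⟩) (show 0 < η / 2 by linarith) hP0
  obtain ⟨E, hE⟩ : ∃ E : Ω → Prop, E = fun ω => E₀ ω ∧ sh ω = x := ⟨_, rfl⟩
  rw [← hE] at hxP
  obtain ⟨V, hV⟩ : ∃ V : Ρ → (Fin m →₀ ℕ) → ℤ, V = fun r =>
    rk s (kap (Fs (r, (fun i => Y (rep r) i + x.1 i, nu (rep r) + x.2)))) := ⟨_, rfl⟩
  have hVE : ∀ ω, E ω → V (ρ ω) = rk s (kap (Fs (ρ ω, (Y ω, nu ω)))) := by
    intro ω hω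
    rw [hE] at hω
    have h1 := hω.2
    rw [hsh] at h1
    have h2 : (fun i => Y (rep (ρ ω)) i + x.1 i) = Y ω := by
      funext i
      have := congrFun (Prod.ext_iff.1 h1).1 i
      simp only at this
      rw [← this]
      ring
    have h3 : nu (rep (ρ ω)) + x.2 = nu ω := by
      have := (Prod.ext_iff.1 h1).2
      simp only at this
      rw [← this]
      ring
    rw [hV]
    simp only
    rw [h2, h3]
  have hEP : η / C ≤ Pb p E := by
    refine le_trans ?_ hxP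
    rw [div_div]
    refine div_le_div_of_nonneg_left hη.le (by positivity) ?_
    linarith
  have hEpos : 0 < Pb p E := lt_of_lt_of_le (by
    have : 0 < C := by linarith
    positivity) hEP
  refine ⟨fun r => Sp K s (V r), fun r => Sp_deg K s _, fun r k => ?_, E, hEP, ?_, ?_⟩
  · simp only [hV]
    exact cf_Sp (hdeg _) (by positivity) (hcf _) k
  · intro ω hω hEω k hk0
    have h1 : V (ρ ω) = rk s (kap (Fs (ρ ω, (Y ω, nu ω)))) := hVE ω hEω
    have h2 : ¬ Lg s (kap ω - kap (Fs (ρ ω, (Y ω, nu ω)))) := by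
      have := hEω
      rw [hE, hE₀] at this
      exact this.1
    unfold Lg at h2
    push Not at h2
    have h3 := h2 k hk0
    rw [MvPolynomial.coeff_sub] at h3
    have h4 := coeff_sub_Sp (s := s) (hdeg (Fs (ρ ω, (Y ω, nu ω)))) k hk0
    change |MvPolynomial.coeff k (kap ω) - MvPolynomial.coeff k (Sp K s (V (ρ ω)))| ≤ _
    rw [h1]
    have h5 := abs_sub_le (MvPolynomial.coeff k (kap ω))
      (MvPolynomial.coeff k (kap (Fs (ρ ω, (Y ω, nu ω)))))
      (MvPolynomial.coeff k (Sp K s (rk s (kap (Fs (ρ ω, (Y ω, nu ω)))))))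
    have h6 : (2 : ℝ) / 2 ^ s = 1 / 2 ^ s + 1 / 2 ^ s := by ring
    rw [h6]
    linarith
  · have hq := isLaw_ev hp E hEpos
    have hqE : ∀ ω, 0 < cond p E True ω → 0 < p ω ∧ E ω := fun ω hω =>
      ⟨((cond_pos_iff hp.nonneg E True ω).1 hω).1, by
        simpa using ((cond_pos_iff hp.nonneg E True ω).1 hω).2⟩
    have a1 := CH_event hp kap z E hEpos
    have a2 : CH (cond p E True) (fun ω => Sp K s (V (ρ ω))) z ≤
        CH (cond p E True) (fun ω => (Sp K s (V (ρ ω)), kap ω)) z :=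
      CH_mono_left hq.nonneg fun _ _ _ _ e => (Prod.ext_iff.1 (Prod.ext_iff.1 e).1).1
    have a3 := CH_chain hq.nonneg (fun ω => Sp K s (V (ρ ω))) kap z
    have a4 : CH (cond p E True) (fun ω => Sp K s (V (ρ ω))) (fun ω => (kap ω, z ω)) ≤ N3 := by
      have b1 := CH_le_card hq.nonneg hq.sum_one (fun ω => Sp K s (V (ρ ω)))
        (fun ω => (kap ω, z ω)) (fun t => (Nb m K (rk s t.1)).image (Sp K s)) (fun ω hω => by
          obtain ⟨h1, h2⟩ := hqE ω hω
          refine Finset.mem_image.2 ⟨V (ρ ω), ?_, rfl⟩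
          rw [hVE ω h2]
          refine rk_Nb (hdeg _) (hdeg _) ?_
          have := h2
          rw [hE, hE₀] at this
          exact this.1)
      refine b1.trans ?_
      have b2 : ∀ ω, Real.log (((Nb m K (rk s (kap ω))).image (Sp K s)).card : ℝ) ≤ N3 := by
        intro ω
        rw [hN3]
        rcases (Nat.zero_le ((Nb m K (rk s (kap ω))).image (Sp K s)).card).eq_or_lt with h | h
        · rw [← h]
          simp only [Nat.cast_zero, Real.log_zero]
          rw [← hN3]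
          exact hN30
        · refine Real.log_le_log (by exact_mod_cast h) ?_
          have := (Finset.card_image_le (s := Nb m K (rk s (kap ω))) (f := Sp K s)).trans
            (card_Nb m K _)
          exact_mod_cast this
      refine (Ex_mono hq.nonneg (g := fun _ => N3) fun ω _ => b2 ω).trans (le_of_eq ?_)
      exact Ex_const hq.sum_one _
    have a5 : CH (cond p E True) kap z ≤ θ * C / η := by
      refine a1.trans ?_
      rw [div_le_div_iff₀ hEpos hη]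
      have h1 := CH_nonneg hp.nonneg kap z
      have h2 : η ≤ C * Pb p E := by
        have := mul_le_mul_of_nonneg_left hEP (show (0 : ℝ) ≤ C by linarith)
        rwa [mul_div_cancel₀ _ (by linarith : C ≠ 0)] at this
      calc CH p kap z * η ≤ θ * η := mul_le_mul_of_nonneg_right hk hη.le
        _ ≤ θ * (C * Pb p E) := mul_le_mul_of_nonneg_left h2 hθ
        _ = θ * C * Pb p E := by ring
    have hη2 : η ≤ 2 := by
      have h1 := Pb_not hp.sum_one E₀
      have h2 := Pb_nonneg hp.nonneg (fun ω => ¬ E₀ ω)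
      linarith
    have a6 : N3 ≤ C / η := by
      rw [le_div_iff₀ hη]
      calc N3 * η ≤ N3 * 2 := mul_le_mul_of_nonneg_left hη2 hN30
        _ ≤ C := by linarith
    have a7 : C * (θ + 1) / η = θ * C / η + C / η := by ring
    rw [a7]
    change CH (cond p E True) (fun ω => Sp K s (V (ρ ω))) z ≤ _
    linarith

end Pool.VAS
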