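import Pool.Agent.H19.VAS.Def
import Pool.Agent.H19.VAS.VisP

/-!
# The total sheet as a function of the exact point

`VisD`: a law on which the shape of the target is few given the visible record, the base is full,
the row is not full. `visL`: the shape is, up to `2 ^ (-σ X)`, a function of the exact point, on an
event, with few bits given the visible record there.
-/

set_option autoImplicit false

namespace Pool.VAS

open Finset MvPolynomial
open Pool.Agent.H49.Ent Pool.Agent.H32.Dense Pool.STK Pool.STAT Pool.MIC Pool.MicA Pool.MIC.Frm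
open Pool.BFL (Pl Pb)
open Pool.TIE (SubL dg lip2 ml_le_of_cb)
open Pool.GSD (YpS ztS nuS vtP scv eval_vtP)

/-- **The visible side.** -/
structure VisD (D : NDat2) (n z i j X K' : ℕ) {Om : Type} [Fintype Om] (p : Om → ℝ)
    (f : Om → D.Ω) (G : Om → Pl (n - 1)) (θ bb η : ℝ) : Prop where
  isLaw : IsLaw p
  det : Det p (fun w => D.pt (f w)) (fun w => zv D i j (f w))
  two : ∀ w w', 0 < p w → 0 < p w' → D.pt (f w) = D.pt (f w') → ∀ l, 1 ≤ l → l ≤ n →
    |ztS D i j (D.Ψ i j) (f w) l - ztS D i j (D.Ψ i j) (f w') l| ≤ 1 / 2 ^ X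
  pos : ∀ w, 0 < p w → ∀ l, 1 ≤ l → l ≤ n → |ztS D i j (D.Ψ i j) (f w) l| ≤ 1
  deg : ∀ w, (G w).totalDegree ≤ K'
  cf : ∀ w α, |coeff α (G w)| ≤ (2 : ℝ) ^ bb
  few : CH p G (fun w => zv D i j (f w)) ≤ θ
  full : ((n - 1 : ℕ) : ℝ) * (X * Real.log 2) - θ ≤
    CH p (fun w => YpS D n z i j X (D.Ψ i j) (f w))
      (fun w => (hT D n z i j X (G w) (f w), (G w, zv D i j (f w))))
  nf : CH p (fun w => nuS D n i j X (D.Ψ i j) (f w))
    (fun w => (YpS D n z i j X (D.Ψ i j) (f w), zv D i j (f w))) ≤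
      (1 - η) * (X * Real.log 2)

theorem floor_near {x y : ℝ} (h : |x - y| ≤ 1) : |⌊x⌋ - ⌊y⌋| ≤ 1 := by
  rw [abs_le] at h ⊢
  have h1 : ⌊x⌋ ≤ ⌊y + 1⌋ := Int.floor_le_floor (by linarith [h.2])
  have h2 : ⌊y⌋ ≤ ⌊x + 1⌋ := Int.floor_le_floor (by linarith [h.1])
  rw [Int.floor_add_one] at h1 h2
  constructor <;> omega

theorem up_bd {z : ℕ} {x : ℝ} (h : |x| ≤ 1) : 0 ≤ up z x ∧ up z x ≤ 1 := by
  have h1 : (1 : ℝ) ≤ 2 ^ z := one_le_pow₀ (by norm_num)
  rw [abs_le] at h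
  unfold up
  constructor
  · exact div_nonneg (by linarith [h.1]) (by positivity)
  · rw [div_le_one (by positivity)]
    linarith [h.2]

/-- **The total sheet is visible.** -/
theorem visL (n K' : ℕ) : ∃ C : ℝ, 1 ≤ C ∧ ∀ η : ℝ, 0 < η → ∃ (σ ε₀ : ℝ) (X₀ : ℕ), 0 < σ ∧
    0 < ε₀ ∧ ∀ (D : NDat2) (z i j X : ℕ) (Om : Type) [Fintype Om] (p : Om → ℝ) (f : Om → D.Ω)
      (G : Om → Pl (n - 1)) (θ bb : ℝ), X₀ ≤ X → 0 ≤ θ → 0 ≤ bb → θ ≤ ε₀ * X → bb ≤ ε₀ * X →
      1 ≤ n → VisD D n z i j X K' p f G θ bb η →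
      ∃ U : D.Ξ → Pl (n - 1), (∀ x, (U x).totalDegree ≤ K') ∧
        (∀ x k, |coeff k (U x)| ≤ 2 ^ (⌈bb⌉₊ + 1)) ∧
        ∃ E : Om → Prop, η / C ≤ Pb p E ∧
          (∀ w, 0 < p w → E w → ∀ k, k ≠ 0 →
            |coeff k (G w) - coeff k (U (D.pt (f w)))| ≤ 2 / 2 ^ ⌊σ * X⌋₊) ∧
          CH (cond p E True) (fun w => U (D.pt (f w))) (fun w => zv D i j (f w)) ≤
            C * (θ + 1) / η := by
  classical
  obtain ⟨C, hC, H⟩ := visP (n - 1) K'
  obtain ⟨N, hN⟩ : ∃ N : ℝ, N = ((K' : ℝ) + 1) ^ (n - 1) * K' := ⟨_, rfl⟩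
  have hN0 : 0 ≤ N := by rw [hN]; positivity
  obtain ⟨L, hL⟩ : ∃ L : ℝ, L = Real.log (N + 3) := ⟨_, rfl⟩
  have hL0 : 0 ≤ L := by rw [hL]; exact Real.log_nonneg (by linarith)
  refine ⟨C, hC, ?_⟩
  intro η hη
  have hC0 : 0 < C := by linarith
  obtain ⟨δ, hδ⟩ : ∃ δ : ℝ, δ = η / (8 * C) := ⟨_, rfl⟩
  have hδ0 : 0 < δ := by rw [hδ]; positivity
  obtain ⟨X₀, hX₀⟩ := exists_nat_ge (8 * C * (5 + L) / η + 8 * C * (3 + L) / (η * δ) + 1)
  refine ⟨δ, min (η / (24 * C)) (η * δ / (16 * C)), X₀, hδ0, lt_min (by positivity)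
    (by positivity), ?_⟩
  intro D z i j X Om _ p f G θ bb hX hθ hbb hθX hbX hn hV
  obtain ⟨ε₀, hε⟩ : ∃ ε₀ : ℝ, ε₀ = min (η / (24 * C)) (η * δ / (16 * C)) := ⟨_, rfl⟩
  rw [← hε] at hθX hbX
  have hX1 : (X₀ : ℝ) ≤ X := by exact_mod_cast hX
  have t1 : 0 ≤ 8 * C * (5 + L) / η := by positivity
  have t2 : 0 ≤ 8 * C * (3 + L) / (η * δ) := by positivity
  have hXpos : (1 : ℝ) ≤ X := by linarith
  have hXn : 0 < X := by
    have : (0 : ℝ) < X := by linarith
    exact_mod_cast this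
  have hε1 : ε₀ ≤ η / (24 * C) := by rw [hε]; exact min_le_left _ _
  have hε2 : ε₀ ≤ η * δ / (16 * C) := by rw [hε]; exact min_le_right _ _
  obtain ⟨b, hb⟩ : ∃ b : ℕ, b = ⌈bb⌉₊ := ⟨_, rfl⟩
  have hb1 : bb ≤ b := by rw [hb]; exact Nat.le_ceil _
  have hb2 : (b : ℝ) ≤ bb + 1 := by rw [hb]; exact (Nat.ceil_lt_add_one hbb).le
  have h2b : (2 : ℝ) ^ bb ≤ 2 ^ b := by
    rw [← Real.rpow_natCast]
    exact Real.rpow_le_rpow_of_exponent_le (by norm_num) hb1
  have h2b1 : (1 : ℝ) ≤ 2 ^ b := one_le_pow₀ (by norm_num)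
  have hcfb : ∀ w α, |coeff α (G w)| ≤ (2 : ℝ) ^ b := fun w α => (hV.cf w α).trans h2b
  obtain ⟨C₀, hC₀⟩ : ∃ C₀ : ℝ, C₀ = 2 + N * 2 ^ b := ⟨_, rfl⟩
  have hC₀0 : 0 ≤ C₀ := by rw [hC₀]; positivity
  have hlog : Real.log (C₀ + 1) ≤ L + b := by
    have h1 : C₀ + 1 ≤ (N + 3) * 2 ^ b := by
      rw [hC₀]
      nlinarith [h2b1]
    have h2 := Real.log_le_log (by linarith) h1
    rw [Real.log_mul (by linarith) (by positivity), Real.log_pow, ← hL] at h2
    have h3 : (b : ℝ) * Real.log 2 ≤ b := by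
      have := Real.log_two_lt_d9
      have h4 : (0 : ℝ) ≤ b := Nat.cast_nonneg b
      nlinarith
    linarith
  have hlog0 : 0 ≤ Real.log (C₀ + 1) := Real.log_nonneg (by linarith)
  obtain ⟨u, hu⟩ : ∃ u : ℕ, u = ⌊δ * X⌋₊ + 1 := ⟨_, rfl⟩
  have hu1 : δ * X ≤ u := by
    rw [hu]
    push_cast
    exact (Nat.lt_floor_add_one _).le
  have hu2 : (u : ℝ) ≤ δ * X + 1 := by
    rw [hu]
    push_cast
    have := Nat.floor_le (show 0 ≤ δ * X by positivity)
    linarith
  have hs1 : (⌊δ * X⌋₊ : ℝ) ≤ δ * X := Nat.floor_le (by positivity)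
  have h2X : (0 : ℝ) < 2 ^ X := by positivity
  have hδX : 0 < δ * (X : ℝ) := by positivity
  -- the exact scaled coordinates
  have hsc : ∀ w, 0 < p w → ∀ l : Fin (n - 1),
      |scv n z (D.g i j) (D.Ψ i j (f w)) (D.X (f w)) l| ≤ 1 ∧
      |((YpS D n z i j X (D.Ψ i j) (f w) l : ℕ) : ℝ) / 2 ^ X| ≤ 1 ∧
      |scv n z (D.g i j) (D.Ψ i j (f w)) (D.X (f w)) l -
        ((YpS D n z i j X (D.Ψ i j) (f w) l : ℕ) : ℝ) / 2 ^ X| ≤ 1 / 2 ^ X := by
    intro w hw l
    have h1 := hV.pos w hw (l + 1) (by omega) (by omega)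
    have h2 := up_bd (z := z) h1
    have e : scv n z (D.g i j) (D.Ψ i j (f w)) (D.X (f w)) l =
        up z (ztS D i j (D.Ψ i j) (f w) (l + 1)) := rfl
    rw [e]
    have h3 := Pool.GSD.fl_div X h2.1
    have h4 : (0 : ℝ) ≤ ((YpS D n z i j X (D.Ψ i j) (f w) l : ℕ) : ℝ) / 2 ^ X := by positivity
    have h5 : ((YpS D n z i j X (D.Ψ i j) (f w) l : ℕ) : ℝ) ≤
        2 ^ X * up z (ztS D i j (D.Ψ i j) (f w) (l + 1)) := by
      unfold YpS
      exact Nat.floor_le (mul_nonneg h2X.le h2.1)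
    refine ⟨?_, ?_, ?_⟩
    · rw [abs_of_nonneg h2.1]
      exact h2.2
    · rw [abs_of_nonneg h4, div_le_one h2X]
      calc _ ≤ 2 ^ X * up z (ztS D i j (D.Ψ i j) (f w) (l + 1)) := h5
        _ ≤ 2 ^ X * 1 := mul_le_mul_of_nonneg_left h2.2 h2X.le
        _ = 2 ^ X := mul_one _
    · rw [abs_sub_comm]
      exact h3
  obtain ⟨U, hU1, hU2, E, hE1, hE2, hE3⟩ := H Om (((D.S × D.S) × ℕ)) D.Ξ p X 0 b ⌊δ * X⌋₊ u
    (fun w => zv D i j (f w)) (fun w => D.pt (f w))
    (fun w l => ((YpS D n z i j X (D.Ψ i j) (f w) l : ℕ) : ℤ))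
    (fun w => hT D n z i j X (G w) (f w)) (fun w => nuS D n i j X (D.Ψ i j) (f w)) G
    θ C₀ η hV.isLaw (by omega) hθ hC₀0 hXn hη hV.det
    (by
      intro w w' hw hw' e
      have h1 := hV.two w w' hw hw' e
      refine ⟨fun l => ?_, ?_⟩
      · have h2 := h1 (l + 1) (by omega) (by omega)
        have p1 := up_bd (z := z) (hV.pos w hw (l + 1) (by omega) (by omega))
        have p2 := up_bd (z := z) (hV.pos w' hw' (l + 1) (by omega) (by omega))
        have q1 : ((YpS D n z i j X (D.Ψ i j) (f w) l : ℕ) : ℤ) =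
            ⌊(2 : ℝ) ^ X * up z (ztS D i j (D.Ψ i j) (f w) (l + 1))⌋ := by
          unfold YpS
          exact Int.natCast_floor_eq_floor (mul_nonneg h2X.le p1.1)
        have q2 : ((YpS D n z i j X (D.Ψ i j) (f w') l : ℕ) : ℤ) =
            ⌊(2 : ℝ) ^ X * up z (ztS D i j (D.Ψ i j) (f w') (l + 1))⌋ := by
          unfold YpS
          exact Int.natCast_floor_eq_floor (mul_nonneg h2X.le p2.1)
        rw [q1, q2]
        refine floor_near ?_
        rw [← mul_sub, abs_mul, abs_of_pos h2X]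
        have e1 : up z (ztS D i j (D.Ψ i j) (f w) (l + 1)) -
            up z (ztS D i j (D.Ψ i j) (f w') (l + 1)) =
            (ztS D i j (D.Ψ i j) (f w) (l + 1) - ztS D i j (D.Ψ i j) (f w') (l + 1)) /
              (4 * 2 ^ z) := by
          unfold up
          rw [← sub_div]
          congr 1
          ring
        rw [e1, abs_div, abs_of_pos (show (0 : ℝ) < 4 * 2 ^ z by positivity)]
        have h3 : |ztS D i j (D.Ψ i j) (f w) (l + 1) - ztS D i j (D.Ψ i j) (f w') (l + 1)| /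
            (4 * 2 ^ z) ≤ 1 / 2 ^ X := by
          refine (div_le_self (abs_nonneg _) ?_).trans h2
          have : (1 : ℝ) ≤ 2 ^ z := one_le_pow₀ (by norm_num)
          linarith
        calc _ ≤ 2 ^ X * (1 / 2 ^ X) := mul_le_mul_of_nonneg_left h3 h2X.le
          _ = 1 := by field_simp
      · refine floor_near ?_
        rw [← mul_sub, abs_mul, abs_of_pos h2X]
        calc _ ≤ 2 ^ X * (1 / 2 ^ X) := mul_le_mul_of_nonneg_left (h1 n hn le_rfl) h2X.le
          _ = 1 := by field_simp)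
    (by
      intro w hw l
      have h1 := (hsc w hw l).2.1
      rw [pow_zero, one_mul]
      rw [abs_div, abs_of_pos h2X, div_le_one h2X] at h1
      exact_mod_cast h1)
    hV.deg (fun w k _ => hcfb w k)
    (by
      intro w hw
      obtain ⟨v, hv⟩ : ∃ v, v = scv n z (D.g i j) (D.Ψ i j (f w)) (D.X (f w)) := ⟨_, rfl⟩
      obtain ⟨y, hy⟩ : ∃ y : Fin (n - 1) → ℝ, y = fun l =>
        (((YpS D n z i j X (D.Ψ i j) (f w) l : ℕ) : ℤ) : ℝ) / 2 ^ X := ⟨_, rfl⟩
      have hvy := hsc w hw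
      rw [← hv] at hvy
      have h1 : |eval v (G w) - eval y (G w)| ≤ N * 2 ^ b / 2 ^ X := by
        have h2 := lip2 (R := 1) (δ := 1 / 2 ^ X) le_rfl (hV.deg w) (u := v) (v := y)
          (fun l => (hvy l).1) (fun l => by
            rw [hy]
            have := (hvy l).2.1
            simpa using this) (by positivity) (fun l => by
            rw [hy]
            have := (hvy l).2.2
            simpa using this)
        refine h2.trans ?_
        have h3 := ml_le_of_cb (hV.deg w) (by positivity : (0 : ℝ) ≤ 2 ^ b) (hcfb w)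
        rw [one_pow, mul_one]
        calc _ ≤ ((K' : ℝ) + 1) ^ (n - 1) * 2 ^ b * (K' * (1 / 2 ^ X)) :=
              mul_le_mul_of_nonneg_right h3 (by positivity)
          _ = N * 2 ^ b / 2 ^ X := by rw [hN]; ring
      have e2 : hT D n z i j X (G w) (f w) =
          ⌊(2 : ℝ) ^ X * (ztS D i j (D.Ψ i j) (f w) n - eval v (G w))⌋ := by
        unfold hT dg
        rw [eval_vtP, ← hv]
        congr 2
        have h2g : (2 : ℝ) ^ D.g i j n ≠ 0 := by positivity
        change _ = (2 : ℝ) ^ D.g i j n * (D.X (f w) n - eval (D.X (f w)) (D.Ψ i j (f w) n)) - _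
        field_simp
        ring
      have h3 := Int.floor_le ((2 : ℝ) ^ X * ztS D i j (D.Ψ i j) (f w) n)
      have h4 := Int.lt_floor_add_one ((2 : ℝ) ^ X * ztS D i j (D.Ψ i j) (f w) n)
      have h5 := Int.floor_le ((2 : ℝ) ^ X * (ztS D i j (D.Ψ i j) (f w) n - eval v (G w)))
      have h6 := Int.lt_floor_add_one
        ((2 : ℝ) ^ X * (ztS D i j (D.Ψ i j) (f w) n - eval v (G w)))
      have e7 : ((nuS D n i j X (D.Ψ i j) (f w) : ℤ) : ℝ) =
          (⌊(2 : ℝ) ^ X * ztS D i j (D.Ψ i j) (f w) n⌋ : ℝ) := rfl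
      rw [e7, e2, ← hy]
      have h8 : |2 ^ X * eval v (G w) - 2 ^ X * eval y (G w)| ≤ N * 2 ^ b := by
        rw [← mul_sub, abs_mul, abs_of_pos h2X]
        calc _ ≤ 2 ^ X * (N * 2 ^ b / 2 ^ X) := mul_le_mul_of_nonneg_left h1 h2X.le
          _ = N * 2 ^ b := by field_simp
      rw [abs_le] at h8 ⊢
      rw [hC₀]
      rw [mul_sub] at h5 h6
      constructor <;> rw [mul_sub] <;> linarith [h8.1, h8.2])
    hV.few
    (by
      refine hV.full.trans (le_of_eq ?_)
      refine CH_congr hV.isLaw.nonneg ?_ ?_ (fun _ _ _ _ e => e) (fun _ _ _ _ e => e)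
      · intro w w' _ _ e
        funext l
        have := congrFun (Prod.ext_iff.1 e).1 l
        simp only at this ⊢
        exact_mod_cast this
      · intro w w' _ _ e
        funext l
        have := congrFun (Prod.ext_iff.1 e).1 l
        simp only at this
        exact_mod_cast this)
    (by
      refine le_trans (le_of_eq ?_) hV.nf
      refine CH_congr hV.isLaw.nonneg (fun _ _ _ _ e => (Prod.ext_iff.1 e).1)
        (fun _ _ _ _ e => (Prod.ext_iff.1 e).1) ?_ ?_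
      · intro w w' _ _ e
        refine Prod.ext ?_ (Prod.ext_iff.1 e).2
        funext l
        have := congrFun (Prod.ext_iff.1 e).1 l
        simp only at this
        exact_mod_cast this
      · intro w w' _ _ e
        refine Prod.ext ?_ (Prod.ext_iff.1 e).2
        funext l
        have := congrFun (Prod.ext_iff.1 e).1 l
        simp only at this ⊢
        exact_mod_cast this)
    (by
      have k1 : ((⌊δ * X⌋₊ : ℕ) : ℝ) + b + u + ((0 : ℕ) : ℝ) + 1 + θ + Real.log (C₀ + 1) ≤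
          2 * (δ * X) + 3 * (ε₀ * X) + (5 + L) := by
        push_cast
        linarith
      have k2 : (X : ℝ) * (θ + ((0 : ℕ) : ℝ) + 1 + Real.log (C₀ + 1)) / u ≤
          (2 * (ε₀ * X) + (3 + L)) / δ := by
        have a1 : θ + ((0 : ℕ) : ℝ) + 1 + Real.log (C₀ + 1) ≤ 2 * (ε₀ * X) + (3 + L) := by
          push_cast
          linarith
        have a2 : 0 ≤ 2 * (ε₀ * X) + (3 + L) := by
          have : 0 ≤ ε₀ * (X : ℝ) := hθ.trans hθX
          linarith
        have hu0 : (0 : ℝ) < u := lt_of_lt_of_le hδX hu1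
        rw [div_le_div_iff₀ hu0 hδ0]
        calc (X : ℝ) * (θ + ((0 : ℕ) : ℝ) + 1 + Real.log (C₀ + 1)) * δ
            ≤ (X : ℝ) * (2 * (ε₀ * X) + (3 + L)) * δ :=
              mul_le_mul_of_nonneg_right (mul_le_mul_of_nonneg_left a1 (by linarith)) hδ0.le
          _ = (2 * (ε₀ * X) + (3 + L)) * (δ * X) := by ring
          _ ≤ (2 * (ε₀ * X) + (3 + L)) * u := mul_le_mul_of_nonneg_left hu1 a2
      have m1 : C * (2 * (δ * X) + 3 * (ε₀ * X) + (5 + L)) ≤ 2 * (η * X / 8) + η * X / 8 +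
          η * X / 8 := by
        have b1 : C * (δ * X) = η * X / 8 := by
          rw [hδ]
          field_simp
        have b2 : C * (3 * (ε₀ * X)) ≤ η * X / 8 := by
          have := mul_le_mul_of_nonneg_left hε1 (show 0 ≤ C * (3 * X) by positivity)
          calc C * (3 * (ε₀ * X)) = C * (3 * X) * ε₀ := by ring
            _ ≤ C * (3 * X) * (η / (24 * C)) := this
            _ = η * X / 8 := by
                field_simp
                ring
        have b3 : C * (5 + L) ≤ η * X / 8 := by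
          have c1 : 8 * C * (5 + L) / η ≤ X := by linarith
          rw [div_le_iff₀ hη] at c1
          linarith
        nlinarith
      have m2 : C * ((2 * (ε₀ * X) + (3 + L)) / δ) ≤ η * X / 8 + η * X / 8 := by
        have b2 : C * (2 * (ε₀ * X) / δ) ≤ η * X / 8 := by
          have := mul_le_mul_of_nonneg_left hε2 (show 0 ≤ C * (2 * X) / δ by positivity)
          calc C * (2 * (ε₀ * X) / δ) = C * (2 * X) / δ * ε₀ := by ring
            _ ≤ C * (2 * X) / δ * (η * δ / (16 * C)) := this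
            _ = η * X / 8 := by
                field_simp
                ring
        have b3 : C * ((3 + L) / δ) ≤ η * X / 8 := by
          have c1 : 8 * C * (3 + L) / (η * δ) ≤ X := by linarith
          rw [div_le_iff₀ (by positivity)] at c1
          rw [mul_div_assoc', div_le_iff₀ hδ0]
          linarith
        rw [add_div, mul_add]
        linarith
      have k3 := mul_le_mul_of_nonneg_left k1 hC0.le
      have k4 := mul_le_mul_of_nonneg_left k2 hC0.le
      have hηX : 0 < η * (X : ℝ) := by positivity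
      have k5 := add_le_add (k3.trans m1) (k4.trans m2)
      refine k5.trans ?_
      linarith)
  refine ⟨U, hU1, fun x k => ?_, E, hE1, hE2, hE3⟩
  refine (hU2 x k).trans ?_
  rw [← hb, pow_succ]
  linarith

end Pool.VAS
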