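import Pool.Agent.H19.VAS.H5T

/-!
# Nonfull rows of the height over the total sheet: (H5) and the visible side
-/

set_option autoImplicit false

namespace Pool.VAS

open Finset MvPolynomial
open Pool.Agent.H49.Ent Pool.Agent.H32.Dense Pool.STK Pool.STAT Pool.MIC Pool.MicA
open Pool.MIC.Frm (sl nat)
open Pool.BFL (Pl Pb)
open Pool.TIE (SubL dg CH_event full_event)
open Pool.GSD (YpS ztS nuS vtP scv)
open Pool.LSH (Pls)
open Pool.KAF (Pr)

theorem log2_bd : (1 : ℝ) / 2 ≤ Real.log 2 ∧ Real.log 2 ≤ 1 := by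
  have h1 := Real.log_two_gt_d9
  have h2 := Real.log_two_lt_d9
  constructor <;> linarith

/-- The law on an event, as a sub-law of `q`. -/
theorem sub_cond {Ω Om : Type} [Fintype Ω] [Fintype Om] {q : Ω → ℝ} {c₁ π : ℝ} {P : Om → ℝ}
    {f : Om → Ω} (hc : 0 < c₁) (hs : SubL q c₁ P f) {E : Om → Prop} (hE : π ≤ Pb P E)
    (hπ : 0 < π) : SubL q (c₁ * π) (cond P E True) f := by
  have h1 := sub_ev hs.isLaw (hπ.trans_le hE)
  have h2 := hs.trans hc.le h1
  exact h2.mono (mul_le_mul_of_nonneg_left hE hc.le)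

/-- **(H5)** of the data on a sub-law. -/
theorem h5T (n K' B : ℕ) (C₁ h κ₀ π₀ c₁ : ℝ) (hn : 1 ≤ n) (hB : 1 ≤ B) (hh : 0 < h) (hh1 : h ≤ 1)
    (hκ₀ : 0 < κ₀) (hπ₀ : 0 < π₀) (hc₁ : 0 < c₁) : ∃ (H₀ z₀ : ℕ) (ϖ C : ℝ), 0 < ϖ ∧ 0 ≤ C ∧
    ∀ (D : NDat2) (K K₀ N k : ℕ) (π : Pls k) (J a₀ w₀ w z M X Xb bb : ℕ) (lam gam : ℕ → ℝ) (κ' : ℝ)
      (q : D.Ω → ℝ) (ω₀ : D.Ω) (a : ℕ × ℕ) (Om : Type) [Fintype Om] (P : Om → ℝ) (f : Om → D.Ω)
      (G : Om → Pl (n - 1)) (θ b : ℝ),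
      D.Ok2 n K J a₀ w₀ z M lam gam κ' C₁ q → D.NF n z M B gam h C₁ ϖ q → z₀ ≤ z →
      π.o.1 + (X / z + 1) ≤ M → π.o.2 ≤ M → w = w₀ + π.o.2 * z →
      (((X / z : ℕ) : ℝ) + 1) ≤ gam n * (M - π.o.2) → H₀ * z ≤ X → B * (X + z) ≤ Xb →
      VSt D n z π.o.1 π.o.2 Xb K' q c₁ θ b P f G → b + C + X ≤ Xb →
      (∀ v, 0 < P v → ∀ α, |coeff α (kTr D n z π.o.1 π.o.2 (G v) (f v))| ≤ 2 ^ bb) →
      0 ≤ θ → θ ≤ h * κ₀ * π₀ / 128 * X →
      (shT D π q J w ω₀ n X N K₀ z bb a P f G).H5 (h / 4) κ₀ π₀ := by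
  classical
  obtain ⟨H₀, z₀, ϖ, C, hϖ, hC, H⟩ := nf_tot n K' B C₁ h (κ₀ / 2) (c₁ * π₀) hn hB hh hh1
    (by positivity) (by positivity)
  obtain ⟨U, hU⟩ := exists_nat_ge (2 / κ₀ + 64 * (1 / π₀ + 6) / (h * κ₀) + 1)
  refine ⟨max H₀ U, max z₀ 1, ϖ, C, hϖ, hC, ?_⟩
  intro D K K₀ N k π J a₀ w₀ w z M X Xb bb lam gam κ' q ω₀ a Om _ P f G θ b hO hNF hz hoX ho hw
    hgam hX hXb hV hbX hcf hθ0 hθ j hj E hE
  have hz1 : 1 ≤ z := (le_max_right _ _).trans hz
  have hzR : (1 : ℝ) ≤ z := by exact_mod_cast hz1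
  have hoM : π.o.1 ≤ M := (Nat.le_add_right _ _).trans hoX
  have hXU : (U : ℝ) ≤ X := by
    have h1 : U * 1 ≤ max H₀ U * z := Nat.mul_le_mul (le_max_right _ _) hz1
    have h2 : U ≤ X := by omega
    exact_mod_cast h2
  have t1 : 0 < 2 / κ₀ := by positivity
  have t2 : 0 < 64 * (1 / π₀ + 6) / (h * κ₀) := by positivity
  have hX2 : 2 / κ₀ ≤ (X : ℝ) := by linarith
  have hX3 : 64 * (1 / π₀ + 6) / (h * κ₀) ≤ X := by linarith
  rw [div_le_iff₀ hκ₀] at hX2
  rw [div_le_iff₀ (by positivity)] at hX3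
  have hPE : π₀ ≤ Pb P (fun v => v ∈ E) := by
    have h1 : Pr P E = Pb P (fun v => v ∈ E) := Pool.MIC.law_True P (fun v => v ∈ E)
    rw [← h1]
    exact hE
  have hPE0 : 0 < Pb P (fun v => v ∈ E) := hπ₀.trans_le hPE
  have hPl := hV.sub.isLaw
  obtain ⟨p, hp⟩ : ∃ p : Om → ℝ, p = cond P (fun v => v ∈ E) True := ⟨_, rfl⟩
  have hs : SubL q (c₁ * π₀) p f := by
    rw [hp]
    exact sub_cond hc₁ hV.sub hPE hπ₀
  have hpl := hs.isLaw
  have hpP : ∀ v, 0 < p v → 0 < P v := fun v hv => by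
    rw [hp] at hv
    exact ((cond_pos_iff hPl.nonneg _ True v).1 hv).1
  have hposq : ∀ v, 0 < p v → 0 < q (f v) := fun v hv => sub_pos hc₁ hV.sub (hpP v hv)
  have hy1 : ∀ v, 0 < P v → ∀ l, 1 ≤ l → l ≤ n →
      |ztS D π.o.1 π.o.2 (D.Ψ π.o.1 π.o.2) (f v) l| ≤ 1 :=
    fun v hv l h1 h2 => zs_le hO hoM ho (sub_pos hc₁ hV.sub hv) h1 h2
  -- few and full under `p`
  have hfew : CH p G (fun v => zv D π.o.1 π.o.2 (f v)) ≤ θ / π₀ := by
    rw [hp]
    refine (CH_event hPl G _ _ hPE0).trans ?_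
    calc _ ≤ θ / Pb P (fun v => v ∈ E) := div_le_div_of_nonneg_right hV.few hPE0.le
      _ ≤ θ / π₀ := div_le_div_of_nonneg_left hθ0 hπ₀ hPE
  have hfull : ((n - 1 : ℕ) : ℝ) * (Xb * Real.log 2) - (θ + 1) / π₀ ≤
      CH p (fun v => YpS D n z π.o.1 π.o.2 Xb (D.Ψ π.o.1 π.o.2) (f v))
        (fun v => (hT D n z π.o.1 π.o.2 Xb (G v) (f v), (G v, zv D π.o.1 π.o.2 (f v)))) := by
    have h1 := full_event hPl (fun v => YpS D n z π.o.1 π.o.2 Xb (D.Ψ π.o.1 π.o.2) (f v))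
      (fun v => (hT D n z π.o.1 π.o.2 Xb (G v) (f v), (G v, zv D π.o.1 π.o.2 (f v))))
      (fun v => v ∈ E) hPE0 (M := ((n - 1 : ℕ) : ℝ) * (Xb * Real.log 2)) (θ := θ)
      (fun r hr hr' => CH_dig hr _ _ fun v hv l => YpS_lt (hy1 v (hr' v hv)) l) hV.full
    rw [← hp] at h1
    refine le_trans ?_ h1
    have h2 : (θ + Real.log 2) / Pb P (fun v => v ∈ E) ≤ (θ + 1) / π₀ := by
      have := log2_bd
      calc _ ≤ (θ + 1) / Pb P (fun v => v ∈ E) :=
            div_le_div_of_nonneg_right (by linarith) hPE0.le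
        _ ≤ _ := div_le_div_of_nonneg_left (by linarith) hπ₀ hPE
    linarith
  obtain ⟨m, hm⟩ : ∃ m : ℕ, m = ⌊κ₀ * (X : ℝ)⌋₊ := ⟨_, rfl⟩
  have hm1 : κ₀ / 2 * (X : ℝ) ≤ m := by
    have h1 := Nat.lt_floor_add_one (κ₀ * (X : ℝ))
    rw [← hm] at h1
    linarith
  have hj' : (j + 1) * m ≤ X := by
    rw [hm]
    exact hj
  have hjj : j * m ≤ (j + 1) * m := Nat.mul_le_mul_right _ (Nat.le_succ j)
  have hmain := H D K J a₀ w₀ z M lam gam κ' q hO hNF ((le_max_left _ _).trans hz) π.o.1 π.o.2 X Xb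
    hoX ho hgam ((Nat.mul_le_mul_right z (le_max_left _ _)).trans hX) hXb Om p f G (θ / π₀)
    ((θ + 1) / π₀) b hs hV.deg hV.cf hbX hfew hfull (j * m) ((j + 1) * m) hjj hj' (by
      push_cast
      linarith)
  -- the rows
  have hrow : ∀ v, 0 < p v → ∀ r, r ≤ X →
      (shT D π q J w ω₀ n X N K₀ z bb a P f G).row r v =
        dg r (yT D n z π.o.1 π.o.2 (G v) (f v)) := by
    intro v hv r hr
    have e1 : htT D n z π.o.1 π.o.2 bb X (G v) (f v) = dg X (yT D n z π.o.1 π.o.2 (G v) (f v)) :=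
      htT_eq D n z _ _ bb X _ _ (hO.G_tri _ _ _) (hO.P_tri _ _ _) (hcf v (hpP v hv))
    change htT D n z π.o.1 π.o.2 bb X (G v) (f v) / 2 ^ (X - r) = _
    rw [e1, dg_dg hr]
  have hgoal : CH p ((shT D π q J w ω₀ n X N K₀ z bb a P f G).row ((j + 1) * m))
      (fun v => ((shT D π q J w ω₀ n X N K₀ z bb a P f G).row (j * m) v,
        (shT D π q J w ω₀ n X N K₀ z bb a P f G).T v)) ≤ (1 - h / 4) * m * Real.log 2 := by
    have a1 : CH p ((shT D π q J w ω₀ n X N K₀ z bb a P f G).row ((j + 1) * m))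
        (fun v => ((shT D π q J w ω₀ n X N K₀ z bb a P f G).row (j * m) v,
          (shT D π q J w ω₀ n X N K₀ z bb a P f G).T v)) ≤
        CH p (fun v => dg ((j + 1) * m) (yT D n z π.o.1 π.o.2 (G v) (f v)))
          (fun v => (dg (j * m) (yT D n z π.o.1 π.o.2 (G v) (f v)), zv D π.o.1 π.o.2 (f v))) := by
      refine (CH_mono_left hpl.nonneg ?_).trans (CH_mono_cond hpl.nonneg ?_)
      · intro v v' hv hv' e
        have e1 := (Prod.ext_iff.1 e).1
        simp only at e1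
        rw [hrow v hv _ hj', hrow v' hv' _ hj']
        exact e1
      · intro v v' hv hv' e
        have e1 := (Prod.ext_iff.1 e).1
        have e2 := (Prod.ext_iff.1 e).2
        simp only at e1 e2
        rw [hrow v hv _ (hjj.trans hj'), hrow v' hv' _ (hjj.trans hj')] at e1
        have c1 : D.c π.o.1 π.o.2 (f v) = D.c π.o.1 π.o.2 (f v') := (Prod.ext_iff.1 e2).1
        have c2 : thr D J w (f v) = thr D J w (f v') := (Prod.ext_iff.1 (Prod.ext_iff.1 e2).2).1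
        have hv1 := hposq v hv
        have hv2 := hposq v' hv'
        have c3 : D.T (f v) / 2 ^ (J - w) = D.T (f v') / 2 ^ (J - w) := by
          rw [hw]
          exact hO.c_T _ hoM _ ho _ _ hv1 hv2 c1
        have c4 : D.T (f v) = D.T (f v') := by
          have d1 := Nat.div_add_mod (D.T (f v)) (2 ^ (J - w))
          have d2 := Nat.div_add_mod (D.T (f v')) (2 ^ (J - w))
          unfold thr at c2
          rw [c3, c2] at d1
          exact d1.symm.trans d2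
        have c5 : D.s π.o.1 π.o.2 (f v) = D.s π.o.1 π.o.2 (f v') :=
          hO.s_c _ hoM _ ho _ _ hv1 hv2 (Prod.ext c1 c4)
        have c6 : D.c 0 π.o.2 (f v) = D.c 0 π.o.2 (f v') := by
          have hind : ∀ i ≤ π.o.1, D.c (π.o.1 - i) π.o.2 (f v) = D.c (π.o.1 - i) π.o.2 (f v') := by
            intro i
            induction i with
            | zero => exact fun _ => c1
            | succ i ih =>
              intro hi
              have h1 := ih (by omega)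
              have h2 : π.o.1 - i = (π.o.1 - (i + 1)) + 1 := by omega
              rw [h2] at h1
              exact hO.c_i _ (by omega) _ ho _ _ hv1 hv2 h1
          have := hind π.o.1 le_rfl
          rwa [Nat.sub_self] at this
        have c7 : D.s 0 π.o.2 (f v) = D.s 0 π.o.2 (f v') :=
          hO.s_c _ (Nat.zero_le _) _ ho _ _ hv1 hv2 (Prod.ext c6 c4)
        exact Prod.ext e1 (Prod.ext (Prod.ext c5 c7) c4)
    refine a1.trans (hmain.trans ?_)
    push_cast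
    have k1 : (1 - h / 2) * (((j : ℝ) + 1) * m - j * m) * Real.log 2 =
        (1 - h / 4) * m * Real.log 2 - h / 4 * m * Real.log 2 := by ring
    rw [k1]
    have k2 : θ / π₀ + (θ + 1) / π₀ + 6 ≤ h / 4 * m * Real.log 2 := by
      have u1 : θ / π₀ ≤ h * κ₀ / 128 * X := by
        rw [div_le_iff₀ hπ₀]
        calc θ ≤ h * κ₀ * π₀ / 128 * X := hθ
          _ = _ := by ring
      have u2 : (θ + 1) / π₀ = θ / π₀ + 1 / π₀ := by ring
      have u3 : 1 / π₀ + 6 ≤ h * κ₀ / 64 * X := by linarith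
      have u4 : h / 4 * (κ₀ / 2 * X) * (1 / 2) ≤ h / 4 * m * Real.log 2 :=
        mul_le_mul (mul_le_mul_of_nonneg_left hm1 (by positivity)) log2_bd.1 (by norm_num)
          (by positivity)
      rw [u2]
      have u5 : 0 < h * κ₀ * X := by
        have : (0 : ℝ) < X := by
          by_contra hcon
          have h0 : (X : ℝ) ≤ 0 := not_lt.1 hcon
          nlinarith
        positivity
      nlinarith
    linarith
  rw [hp, hm] at hgoal
  exact hgoal

/-- **The natural height is not full** given the position and the visible record. -/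
theorem nf_vis (n B : ℕ) (C₁ h π : ℝ) (hn : 1 ≤ n) (hB : 1 ≤ B) (hh : 0 < h) (hh1 : h ≤ 1)
    (hπ : 0 < π) : ∃ (H₀ z₀ : ℕ) (ϖ : ℝ), 0 < ϖ ∧
    ∀ (D : NDat2) (K J a₀ w₀ z M : ℕ) (lam gam : ℕ → ℝ) (κ' : ℝ) (q : D.Ω → ℝ),
      D.Ok2 n K J a₀ w₀ z M lam gam κ' C₁ q → D.NF n z M B gam h C₁ ϖ q → z₀ ≤ z →
      ∀ i j X : ℕ, i + (X / z + 1) ≤ M → j ≤ M →
      (((X / z : ℕ) : ℝ) + 1) ≤ gam n * (M - j) → H₀ * z ≤ X →
      ∀ (Om : Type) [Fintype Om] (p : Om → ℝ) (f : Om → D.Ω), SubL q π p f →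
        CH p (fun v => nuS D n i j X (D.Ψ i j) (f v))
          (fun v => (YpS D n z i j X (D.Ψ i j) (f v), zv D i j (f v))) ≤
          (1 - h / (16 * B)) * (X * Real.log 2) := by
  classical
  obtain ⟨H₀, z₀, ϖ, hϖ, H⟩ := Pool.TIE.nfs_gen n B C₁ h 1 π 3 hn hB hh hh1 one_pos hπ
    (by norm_num)
  have hBR : (1 : ℝ) ≤ B := by exact_mod_cast hB
  obtain ⟨U, hU⟩ := exists_nat_ge (400 * (B : ℝ) / h)
  refine ⟨4 * B * (H₀ + 2) + U, max z₀ 1, ϖ, hϖ, ?_⟩
  intro D K J a₀ w₀ z M lam gam κ' q hO hNF hz i j X hiX hj hgam hX Om _ p f hs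
  have hz1 : 1 ≤ z := (le_max_right _ _).trans hz
  have hz1R : (1 : ℝ) ≤ z := by exact_mod_cast hz1
  have hi : i ≤ M := (Nat.le_add_right _ _).trans hiX
  have hp := hs.isLaw
  have hpos : ∀ v, 0 < p v → 0 < q (f v) := fun v hv => sub_pos hπ hs hv
  -- the number of rows
  obtain ⟨Y, hY⟩ : ∃ Y : ℕ, Y = X / (2 * B) := ⟨_, rfl⟩
  have h2B : 0 < 2 * B := by omega
  have y1 : Y * (2 * B) ≤ X := by rw [hY]; exact Nat.div_mul_le_self _ _
  have y2 : X < Y * (2 * B) + 2 * B := by rw [hY]; exact Nat.lt_div_mul_add h2B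
  have hX1 : 4 * B * (H₀ + 2) * z ≤ X := by
    have := Nat.mul_le_mul_right z (Nat.le_add_right (4 * B * (H₀ + 2)) U)
    omega
  have hXU : (U : ℝ) ≤ X := by
    have h1 : U * 1 ≤ (4 * B * (H₀ + 2) + U) * z :=
      Nat.mul_le_mul (Nat.le_add_left _ _) hz1
    have h2 : U ≤ X := by omega
    exact_mod_cast h2
  have y3 : (H₀ + 1) * z ≤ Y := by
    by_contra hcon
    push Not at hcon
    have h1 : Y + 1 ≤ (H₀ + 1) * z := hcon
    have h2 := Nat.mul_le_mul_right (2 * B) h1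
    have h3 : (H₀ + 1) * z * (2 * B) ≤ 4 * B * (H₀ + 2) * z := by nlinarith
    have h4 : Y * (2 * B) + 2 * B ≤ (H₀ + 1) * z * (2 * B) := by
      calc _ = (Y + 1) * (2 * B) := by ring
        _ ≤ _ := h2
    omega
  have hYX : Y ≤ X := by
    have : Y ≤ Y * (2 * B) := Nat.le_mul_of_pos_right _ h2B
    omega
  have hzY : z ≤ Y := by
    have : z ≤ (H₀ + 1) * z := Nat.le_mul_of_pos_left _ (by omega)
    omega
  have hBY : B * (Y + z) ≤ X := by
    have h1 : B * (Y + z) ≤ B * (Y + Y) := Nat.mul_le_mul_left _ (by omega)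
    have h2 : B * (Y + Y) = Y * (2 * B) := by ring
    omega
  have hdiv : Y / z ≤ X / z := Nat.div_le_div_right hYX
  have e4 : 4 * (2 : ℝ) ^ z ≤ Real.exp (3 * z) := by
    have h0 : (2 : ℝ) ≤ Real.exp 1 := by linarith only [Real.add_one_le_exp (1 : ℝ)]
    have h1 : (2 : ℝ) ^ z ≤ Real.exp (z * 1) := by
      rw [Real.exp_nat_mul]
      exact pow_le_pow_left₀ (by norm_num) h0 z
    have h2 : (4 : ℝ) ≤ Real.exp (2 * z) := by
      have h3 : Real.exp 1 * Real.exp 1 ≤ Real.exp (2 * z) := by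
        rw [← Real.exp_add]
        exact Real.exp_le_exp.2 (by linarith only [hz1R])
      have h4 : (2 : ℝ) * 2 ≤ Real.exp 1 * Real.exp 1 :=
        mul_le_mul h0 h0 (by norm_num) (Real.exp_pos 1).le
      linarith only [h3, h4]
    have h5 : Real.exp (3 * z) = Real.exp (2 * z) * Real.exp (z * 1) := by
      rw [← Real.exp_add]
      congr 1
      ring
    rw [h5]
    exact mul_le_mul h2 h1 (by positivity) (Real.exp_pos _).le
  have hmain := H D z M gam q hO.isLaw hNF ((le_max_left _ _).trans hz) i j Y X (by omega) hj (by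
      have : ((Y / z : ℕ) : ℝ) ≤ ((X / z : ℕ) : ℝ) := by exact_mod_cast hdiv
      linarith) (by
      have : H₀ * z ≤ (H₀ + 1) * z := Nat.mul_le_mul_right _ (Nat.le_succ _)
      omega) hBY
      (fun ω => YpS D n z i j X (D.Ψ i j) ω) (fun ω => zv D i j ω)
      (fun ω => ztS D i j (D.Ψ i j) ω n)
      (fun ω ω' _ _ e => Prod.ext (Prod.ext_iff.1 (Prod.ext_iff.1 e).1).1 (Prod.ext_iff.1 e).2)
      (by
        intro ω ω' p1 p2 e1 _ l l1 l2
        obtain ⟨l, rfl⟩ : ∃ m, l = m + 1 := ⟨l - 1, by omega⟩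
        have g1 : ∀ l, 1 ≤ l → l ≤ n → |ztS D i j (D.Ψ i j) ω l| ≤ 1 :=
          fun l h1 h2 => zs_le hO hi hj p1 h1 h2
        have g2 : ∀ l, 1 ≤ l → l ≤ n → |ztS D i j (D.Ψ i j) ω' l| ≤ 1 :=
          fun l h1 h2 => zs_le hO hi hj p2 h1 h2
        have k1' : 0 ≤ up z (zs D i j ω (l + 1)) := (up_bd (z := z) (g1 (l + 1) l1 l2.le)).1
        have k2' : 0 ≤ up z (zs D i j ω' (l + 1)) := (up_bd (z := z) (g2 (l + 1) l1 l2.le)).1
        have e6 : ⌊(2 : ℝ) ^ X * up z (zs D i j ω (l + 1))⌋₊ =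
            ⌊(2 : ℝ) ^ X * up z (zs D i j ω' (l + 1))⌋₊ := congrFun e1 (⟨l, by omega⟩ : Fin (n - 1))
        have y1 := Nat.floor_le (mul_nonneg (show (0 : ℝ) ≤ 2 ^ X by positivity) k1')
        have y2 := Nat.lt_floor_add_one ((2 : ℝ) ^ X * up z (zs D i j ω (l + 1)))
        have y3 := Nat.floor_le (mul_nonneg (show (0 : ℝ) ≤ 2 ^ X by positivity) k2')
        have y4 := Nat.lt_floor_add_one ((2 : ℝ) ^ X * up z (zs D i j ω' (l + 1)))
        rw [e6] at y1 y2
        have e7 : zs D i j ω (l + 1) - zs D i j ω' (l + 1) = 4 * 2 ^ z *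
            (up z (zs D i j ω (l + 1)) - up z (zs D i j ω' (l + 1))) := by
          unfold up
          field_simp
          ring
        rw [e7, abs_mul, abs_of_pos (by positivity), ← mul_one_div]
        refine mul_le_mul e4 ?_ (abs_nonneg _) (Real.exp_pos _).le
        have y5 : |(2 : ℝ) ^ X * (up z (zs D i j ω (l + 1)) - up z (zs D i j ω' (l + 1)))| ≤
            1 := by
          rw [mul_sub, abs_le]
          constructor <;> linarith only [y1, y2, y3, y4]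
        rw [abs_mul, abs_of_pos (show (0 : ℝ) < 2 ^ X by positivity)] at y5
        rw [le_div_iff₀ (by positivity), mul_comm]
        exact y5)
      (by
        intro ω _
        have e : ztS D i j (D.Ψ i j) ω n - zs D i j ω n = 0 := sub_self _
        rw [e, abs_zero]
        positivity)
      Om p f hs 0 Y (Nat.zero_le _) le_rfl (by
        push_cast
        linarith)
  -- from `Y` to `X` digits
  have b1 : CH p (fun v => nuS D n i j X (D.Ψ i j) (f v))
      (fun v => (YpS D n z i j X (D.Ψ i j) (f v), zv D i j (f v))) ≤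
      CH p (fun v => dg 0 (ztS D i j (D.Ψ i j) (f v) n))
        (fun v => (YpS D n z i j X (D.Ψ i j) (f v), zv D i j (f v))) +
      (CH p (fun v => dg Y (ztS D i j (D.Ψ i j) (f v) n))
        (fun v => (dg 0 (ztS D i j (D.Ψ i j) (f v) n),
          (YpS D n z i j X (D.Ψ i j) (f v), zv D i j (f v)))) +
      CH p (fun v => nuS D n i j X (D.Ψ i j) (f v))
        (fun v => dg Y (ztS D i j (D.Ψ i j) (f v) n))) := by
    have c1 := CH_chain hp.nonneg (fun v => nuS D n i j X (D.Ψ i j) (f v))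
      (fun v => dg 0 (ztS D i j (D.Ψ i j) (f v) n))
      (fun v => (YpS D n z i j X (D.Ψ i j) (f v), zv D i j (f v)))
    have c2 : CH p (fun v => nuS D n i j X (D.Ψ i j) (f v))
        (fun v => (YpS D n z i j X (D.Ψ i j) (f v), zv D i j (f v))) ≤
        CH p (fun v => (nuS D n i j X (D.Ψ i j) (f v), dg 0 (ztS D i j (D.Ψ i j) (f v) n)))
          (fun v => (YpS D n z i j X (D.Ψ i j) (f v), zv D i j (f v))) :=
      CH_mono_left hp.nonneg fun _ _ _ _ e => (Prod.ext_iff.1 (Prod.ext_iff.1 e).1).1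
    have c3 := CH_chain hp.nonneg (fun v => nuS D n i j X (D.Ψ i j) (f v))
      (fun v => dg Y (ztS D i j (D.Ψ i j) (f v) n))
      (fun v => (dg 0 (ztS D i j (D.Ψ i j) (f v) n),
          (YpS D n z i j X (D.Ψ i j) (f v), zv D i j (f v))))
    have c4 : CH p (fun v => nuS D n i j X (D.Ψ i j) (f v))
        (fun v => (dg 0 (ztS D i j (D.Ψ i j) (f v) n),
          (YpS D n z i j X (D.Ψ i j) (f v), zv D i j (f v)))) ≤
        CH p (fun v => (nuS D n i j X (D.Ψ i j) (f v), dg Y (ztS D i j (D.Ψ i j) (f v) n)))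
          (fun v => (dg 0 (ztS D i j (D.Ψ i j) (f v) n),
          (YpS D n z i j X (D.Ψ i j) (f v), zv D i j (f v)))) :=
      CH_mono_left hp.nonneg fun _ _ _ _ e => (Prod.ext_iff.1 (Prod.ext_iff.1 e).1).1
    have c5 : CH p (fun v => nuS D n i j X (D.Ψ i j) (f v))
        (fun v => (dg Y (ztS D i j (D.Ψ i j) (f v) n), (dg 0 (ztS D i j (D.Ψ i j) (f v) n),
          (YpS D n z i j X (D.Ψ i j) (f v), zv D i j (f v))))) ≤
        CH p (fun v => nuS D n i j X (D.Ψ i j) (f v))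
          (fun v => dg Y (ztS D i j (D.Ψ i j) (f v) n)) :=
      CH_mono_cond hp.nonneg fun _ _ _ _ e => (Prod.ext_iff.1 e).1
    linarith
  have hL := log2_bd
  have b2 : CH p (fun v => dg 0 (ztS D i j (D.Ψ i j) (f v) n))
      (fun v => (YpS D n z i j X (D.Ψ i j) (f v), zv D i j (f v))) ≤ 4 := by
    refine (CH_le_int hp.nonneg hp.sum_one _ _ (fun _ => 3) (fun v v' hv hv' _ => ?_)).trans ?_
    · have h1 : |ztS D i j (D.Ψ i j) (f v) n| ≤ 1 := zs_le hO hi hj (hpos v hv) hn le_rfl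
      have h2 : |ztS D i j (D.Ψ i j) (f v') n| ≤ 1 := zs_le hO hi hj (hpos v' hv') hn le_rfl
      refine (dg_near (A := 2) ?_).trans (by norm_num)
      rw [pow_zero, div_one]
      have := abs_sub (ztS D i j (D.Ψ i j) (f v) n) (ztS D i j (D.Ψ i j) (f v') n)
      linarith
    · rw [Ex_const hp.sum_one]
      have h1 := Real.add_one_le_exp (4 : ℝ)
      have h2 : Real.log (2 * 3 + 1) ≤ Real.log (Real.exp 4) := by
        refine Real.log_le_log (by norm_num) ?_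
        have h3 : Real.exp 4 = Real.exp 1 ^ 4 := by
          rw [← Real.exp_nat_mul]
          norm_num
        have h4 := Real.exp_one_gt_d9
        rw [h3]
        calc (2 * 3 + 1 : ℝ) ≤ 2.7 ^ 4 := by norm_num
          _ ≤ Real.exp 1 ^ 4 := pow_le_pow_left₀ (by norm_num) (by linarith) 4
      rwa [Real.log_exp] at h2
  have b3 : CH p (fun v => nuS D n i j X (D.Ψ i j) (f v))
      (fun v => dg Y (ztS D i j (D.Ψ i j) (f v) n)) ≤ (X - Y : ℝ) * Real.log 2 + 3 := by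
    refine (CH_le_int hp.nonneg hp.sum_one _ _ (fun _ => 2 ^ (X - Y) + 1)
      (fun v v' hv hv' e => ?_)).trans ?_
    · have h1 := dg_same e
      refine (dg_near (A := 2 ^ (X - Y)) ?_)
      refine h1.trans (le_of_eq ?_)
      have h3 : (2 : ℝ) ^ X = 2 ^ Y * 2 ^ (X - Y) := by rw [← pow_add, Nat.add_sub_cancel' hYX]
      rw [h3]
      field_simp
    · rw [Ex_const hp.sum_one]
      have h1 : (2 : ℝ) * (2 ^ (X - Y) + 1) + 1 ≤ 2 ^ (X - Y) * 2 ^ 3 := by
        have : (1 : ℝ) ≤ 2 ^ (X - Y) := one_le_pow₀ (by norm_num)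
        linarith
      have h2 := Real.log_le_log (by positivity) h1
      rw [Real.log_mul (by positivity) (by positivity), Real.log_pow, Real.log_pow,
        Nat.cast_sub hYX] at h2
      push_cast at h2
      linarith
  have b4 : CH p (fun v => dg Y (ztS D i j (D.Ψ i j) (f v) n))
        (fun v => (dg 0 (ztS D i j (D.Ψ i j) (f v) n),
          (YpS D n z i j X (D.Ψ i j) (f v), zv D i j (f v)))) ≤
      (1 - h / 2) * (Y : ℝ) * Real.log 2 := by
    have h1 := hmain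
    push_cast at h1
    rw [sub_zero] at h1
    exact h1
  have hYR : (X : ℝ) ≤ 4 * B * Y := by
    have h1 : X ≤ Y * (2 * B) + 2 * B := y2.le
    have h2 : Y * (2 * B) + 2 * B ≤ 4 * B * Y := by
      have : 1 ≤ Y := by omega
      nlinarith
    exact_mod_cast h1.trans h2
  have f1 : h / (16 * B) * (X * Real.log 2) + 7 ≤ h / 2 * (Y : ℝ) * Real.log 2 := by
    have g1 : h / (16 * B) * (X * Real.log 2) ≤ h / 4 * (Y : ℝ) * Real.log 2 := by
      have g2 : h / (16 * B) * X ≤ h / 4 * Y := by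
        rw [div_mul_eq_mul_div, div_le_iff₀ (by positivity)]
        nlinarith
      have := mul_le_mul_of_nonneg_right g2 (show 0 ≤ Real.log 2 by linarith)
      linarith
    have g3 : 7 ≤ h / 4 * (Y : ℝ) * Real.log 2 := by
      have g4 : 400 * (B : ℝ) / h ≤ 4 * B * Y := hU.trans (hXU.trans hYR)
      rw [div_le_iff₀ hh] at g4
      have g5 : 400 * (B : ℝ) ≤ (4 * Y * h) * B := by linarith
      have g6 : 400 ≤ 4 * Y * h := le_of_mul_le_mul_right g5 (by linarith)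
      have g7 : h / 4 * (Y : ℝ) * (1 / 2) ≤ h / 4 * (Y : ℝ) * Real.log 2 :=
        mul_le_mul_of_nonneg_left hL.1 (by positivity)
      nlinarith
    linarith
  nlinarith

end Pool.VAS
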