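import Pool.Agent.H19.VAS.MidM
import Pool.Agent.H12.VAS.KtCf
import Pool.Agent.H41.VAS.H3T
import Pool.Agent.H41.VAS.ValT
import Pool.Agent.H48.VAS.OkT
import Pool.Agent.H50.VAS.H2T
import Pool.Agent.H65.VAS.Top
import Pool.Agent.H69.VAS.H1T
import Pool.Agent.H69.VAS.MidB
import Pool.Agent.H88.VAS.Top

/-!
# The case without ties: the middle, the local theorem, the mechanism
-/

set_option autoImplicit false

namespace Pool.VAS

open Pool.STAT Pool.MicA
open Pool.LSH (LdF)

/-- **The middle** without ties. -/
theorem midV : MidVStmt := midV_of okT valT ktCf h1T h2T h3T midB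

/-- **The local theorem** without ties. -/
theorem locV : MicLoc LdF CondV := mic_locV vtop midV

/-- **The mechanism** without ties. -/
theorem micV : MicOf CondV := micOf_of_loc Pool.LSH.subLd locV

end Pool.VAS
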