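import Pool.Agent.H19.VAS.Def

/-!
# Gluing with a visible polynomial on a sub-law: statement

As `GluVStmt`, on a sub-law `q'` of `q` of density at most `1 / c₁`, every sample of `q'` satisfies
the event. The visible record is `(s i j, s 0 j)` and a function `U` of the exact point with at most
`X₃ z` bits given this record and the exact time, under `q'`. The loss is linear in `X₃` and does not
depend on `c₁`.
-/

set_option autoImplicit false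

namespace Pool.VAS

open Finset MvPolynomial
open Pool.Agent.H49.Ent Pool.Agent.H32.Dense Pool.STK Pool.STAT
open Pool.TIE (SubL EvV)

/-- **Gluing on a sub-law.** -/
def GluSStmt : Prop :=
  ∀ (n K K₂ K₃ B : ℕ), 1 ≤ n → ∃ Cg : ℕ, ∀ (c₁ : ℝ) (X₃ : ℕ), 0 < c₁ →
    ∃ (K' : ℕ) (κ₀ η' : ℝ) (z₀ : ℕ), 0 < κ₀ ∧ 0 < η' ∧
    ∀ (A J a₀ w₀ z M i j i' j' i₂ j₂ R : ℕ) (lam gam : ℕ → ℝ) (κ κ' C₁ : ℝ) (D : NDat2)
      (q : D.Ω → ℝ) (Ω' : Type) (_ : Fintype Ω') (q' : Ω' → ℝ) (f : Ω' → D.Ω) (𝒰 : Type)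
      (U : D.Ω → 𝒰) (Vt : ((D.S × D.S) × 𝒰) × ℕ → PN) (H : D.Λ × ℕ → PN), z₀ ≤ z →
      κ' ≤ κ₀ → i ≤ i₂ → i' ≤ i₂ → i₂ + Cg * (X₃ + 1) ≤ M → j ≤ j₂ → j₂ ≤ M → j' ≤ M →
      D.Ok2 n K J a₀ w₀ z M lam gam κ C₁ q → D.TmU J w₀ z κ' q → SubL q c₁ q' f →
      (∀ x, (H x).totalDegree ≤ K₂) → (∀ x, (H x).vars ⊆ range n) →
      (∀ x, (Vt x).totalDegree ≤ K₃) → (∀ x, (Vt x).vars ⊆ range n) →
      Det q D.pt U → CH q' (fun v => U (f v)) (fun v => zv D i j (f v)) ≤ X₃ * z →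
      (∀ l, 1 ≤ l → l < n → D.g i j l ≤ D.g i₂ j₂ l + B * z) →
      D.g i₂ j₂ n + (A + Cg * (X₃ + 1)) * z ≤ D.g i' j' n →
      D.g i₂ j₂ n + (A + Cg * (X₃ + 1)) * z ≤ D.g i j n + R →
      (∀ v, 0 < q' v → EvV D n J w₀ z i j i' j' i₂ j₂ B
        (fun ω => ((D.s i j ω, D.s 0 j ω), U ω)) Vt H (1 / 2 ^ R) (f v)) →
      D.NewLab2 J a₀ w₀ z i₂ j₂ n A K' η' q

end Pool.VAS
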