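import Pool.Agent.H19.VAS.SubT

/-!
# Nonfull rows of the height over a shape, pure part
-/

set_option autoImplicit false

namespace Pool.VAS

open Finset Real
open Pool.Agent.H49.Ent Pool.Agent.H32.Dense Pool.STK Pool.BFL
open Pool.TIE (SubL dg)

variable {Ω : Type} [Fintype Ω] {p : Ω → ℝ}

theorem dg_near {r : ℕ} {x x' : ℝ} {A : ℝ} (h : |x - x'| ≤ A / 2 ^ r) :
    |((dg r x - dg r x' : ℤ) : ℝ)| ≤ A + 1 := by
  have h2 : (0 : ℝ) < 2 ^ r := by positivity
  have h3 : |(2 : ℝ) ^ r * x - 2 ^ r * x'| ≤ A := by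
    rw [← mul_sub, abs_mul, abs_of_pos h2]
    calc _ ≤ 2 ^ r * (A / 2 ^ r) := mul_le_mul_of_nonneg_left h h2.le
      _ = A := by field_simp
  unfold dg
  push_cast
  have a1 := Int.floor_le ((2 : ℝ) ^ r * x)
  have a2 := Int.lt_floor_add_one ((2 : ℝ) ^ r * x)
  have a3 := Int.floor_le ((2 : ℝ) ^ r * x')
  have a4 := Int.lt_floor_add_one ((2 : ℝ) ^ r * x')
  rw [abs_le] at h3 ⊢
  constructor <;> linarith [h3.1, h3.2]

theorem dg_same {r : ℕ} {x x' : ℝ} (h : dg r x = dg r x') : |x - x'| ≤ 1 / 2 ^ r := by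
  have h2 : (0 : ℝ) < 2 ^ r := by positivity
  unfold dg at h
  have a1 := Int.floor_le ((2 : ℝ) ^ r * x)
  have a2 := Int.lt_floor_add_one ((2 : ℝ) ^ r * x)
  have a3 := Int.floor_le ((2 : ℝ) ^ r * x')
  have a4 := Int.lt_floor_add_one ((2 : ℝ) ^ r * x')
  rw [h] at a1 a2
  rw [le_div_iff₀ h2]
  have h4 : |x - x'| * 2 ^ r = |(x - x') * 2 ^ r| := by rw [abs_mul, abs_of_pos h2]
  rw [h4, abs_le]
  constructor <;> linarith

/-- The first digits of the digits. -/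
theorem dg_dg {r s : ℕ} (h : r ≤ s) (x : ℝ) : dg r x = dg s x / 2 ^ (s - r) := by
  unfold dg
  have e : (2 : ℝ) ^ r * x = (2 : ℝ) ^ s * x / ((2 ^ (s - r) : ℕ) : ℝ) := by
    have h1 : (2 : ℝ) ^ s = 2 ^ r * 2 ^ (s - r) := by rw [← pow_add, Nat.add_sub_cancel' h]
    have h2 : (0 : ℝ) < 2 ^ (s - r) := by positivity
    rw [h1]
    push_cast
    field_simp
  rw [e, Int.floor_div_natCast]
  push_cast
  rfl

/-- **Rows over a shape.** -/
theorem nf_core {𝒱 𝒢 𝒵 : Type} (hp : IsLaw p) (y ζ γ : Ω → ℝ) (V : Ω → 𝒱) (G : Ω → 𝒢) (Z : Ω → 𝒵)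
    {r r' : ℕ} {θ θ₂ N : ℝ} (hrr : r ≤ r') (hy : ∀ ω, 0 < p ω → y ω = ζ ω - γ ω)
    (hγ : ∀ ω ω', 0 < p ω → 0 < p ω' → V ω = V ω' → G ω = G ω' → |γ ω - γ ω'| ≤ 1 / 2 ^ r')
    (hfew : CH p G Z ≤ θ)
    (hinf : CH p V (fun ω => (G ω, (dg r (y ω), Z ω))) ≤
      CH p V (fun ω => (dg r' (y ω), (G ω, (dg r (y ω), Z ω)))) + θ₂)
    (hnf : CH p (fun ω => dg r' (ζ ω)) (fun ω => (dg r (ζ ω), (V ω, Z ω))) ≤ N) :
    CH p (fun ω => dg r' (y ω)) (fun ω => (dg r (y ω), Z ω)) ≤ N + θ + θ₂ + 6 := by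
  have hp0 := hp.nonneg
  -- `G` in the condition
  have s1 : CH p (fun ω => dg r' (y ω)) (fun ω => (dg r (y ω), Z ω)) ≤
      CH p (fun ω => dg r' (y ω)) (fun ω => (G ω, (dg r (y ω), Z ω))) + θ := by
    have a1 : CH p (fun ω => dg r' (y ω)) (fun ω => (dg r (y ω), Z ω)) ≤
        CH p (fun ω => (dg r' (y ω), G ω)) (fun ω => (dg r (y ω), Z ω)) :=
      CH_mono_left hp0 fun _ _ _ _ e => (Prod.ext_iff.1 (Prod.ext_iff.1 e).1).1
    have a2 := CH_chain hp0 (fun ω => dg r' (y ω)) G (fun ω => (dg r (y ω), Z ω))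
    have a3 : CH p G (fun ω => (dg r (y ω), Z ω)) ≤ CH p G Z :=
      CH_mono_cond hp0 fun _ _ _ _ e => (Prod.ext_iff.1 e).2
    linarith
  -- `V` in the condition
  have s2 : CH p (fun ω => dg r' (y ω)) (fun ω => (G ω, (dg r (y ω), Z ω))) ≤
      CH p (fun ω => dg r' (y ω)) (fun ω => (V ω, (G ω, (dg r (y ω), Z ω)))) + θ₂ := by
    have a1 := CH_chain hp0 (fun ω => dg r' (y ω)) V (fun ω => (G ω, (dg r (y ω), Z ω)))
    have a2 := CH_chain hp0 V (fun ω => dg r' (y ω)) (fun ω => (G ω, (dg r (y ω), Z ω)))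
    have a3 : CH p (fun ω => (dg r' (y ω), V ω)) (fun ω => (G ω, (dg r (y ω), Z ω))) =
        CH p (fun ω => (V ω, dg r' (y ω))) (fun ω => (G ω, (dg r (y ω), Z ω))) := by
      refine CH_congr hp0 (fun _ _ _ _ e => ?_) (fun _ _ _ _ e => ?_) (fun _ _ _ _ e => e)
        (fun _ _ _ _ e => e)
      · have := (Prod.ext_iff.1 e).1
        exact Prod.ext (Prod.ext_iff.1 this).2 (Prod.ext_iff.1 this).1
      · have := (Prod.ext_iff.1 e).1
        exact Prod.ext (Prod.ext_iff.1 this).2 (Prod.ext_iff.1 this).1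
    linarith
  -- from the height over the shape to the natural height
  have hl5 : ∀ L : ℝ, L = 3 → Real.log (2 * L + 1) ≤ 3 := by
    intro L hL
    rw [hL]
    have h1 := Real.add_one_le_exp (3 / 2 : ℝ)
    have h2 : Real.log (2 * 3 + 1) ≤ Real.log (Real.exp 3) := by
      refine Real.log_le_log (by norm_num) ?_
      have h3 : Real.exp 3 = Real.exp (3 / 2) * Real.exp (3 / 2) := by
        rw [← Real.exp_add]
        norm_num
      have h4 := Real.exp_one_gt_d9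
      have h5 : Real.exp 3 = Real.exp 1 ^ 3 := by
        rw [← Real.exp_nat_mul]
        norm_num
      rw [h5]
      calc (2 * 3 + 1 : ℝ) ≤ 2.7 ^ 3 := by norm_num
        _ ≤ Real.exp 1 ^ 3 := pow_le_pow_left₀ (by norm_num) (by linarith) 3
    rwa [Real.log_exp] at h2
  have s3 : CH p (fun ω => dg r' (y ω)) (fun ω => (V ω, (G ω, (dg r (y ω), Z ω)))) ≤
      CH p (fun ω => dg r' (ζ ω)) (fun ω => (V ω, (G ω, (dg r (y ω), Z ω)))) + 3 := by
    have a1 : CH p (fun ω => dg r' (y ω)) (fun ω => (V ω, (G ω, (dg r (y ω), Z ω)))) ≤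
        CH p (fun ω => (dg r' (y ω), dg r' (ζ ω))) (fun ω => (V ω, (G ω, (dg r (y ω), Z ω)))) :=
      CH_mono_left hp0 fun _ _ _ _ e => (Prod.ext_iff.1 (Prod.ext_iff.1 e).1).1
    have a2 := CH_chain hp0 (fun ω => dg r' (y ω)) (fun ω => dg r' (ζ ω))
      (fun ω => (V ω, (G ω, (dg r (y ω), Z ω))))
    have a3 : CH p (fun ω => dg r' (y ω))
        (fun ω => (dg r' (ζ ω), (V ω, (G ω, (dg r (y ω), Z ω))))) ≤ 3 := by
      refine (CH_le_int hp0 hp.sum_one (fun ω => dg r' (y ω)) _ (fun _ => 3)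
        (fun ω ω' hω hω' e => ?_)).trans ?_
      · have e1 := (Prod.ext_iff.1 e).1
        have e2 := (Prod.ext_iff.1 (Prod.ext_iff.1 e).2).1
        have e3 := (Prod.ext_iff.1 (Prod.ext_iff.1 (Prod.ext_iff.1 e).2).2).1
        simp only at e1 e2 e3
        have h1 := dg_same e1
        have h2 := hγ ω ω' hω hω' e2 e3
        have h3 : |y ω - y ω'| ≤ 2 / 2 ^ r' := by
          rw [hy ω hω, hy ω' hω']
          have h4 : ζ ω - γ ω - (ζ ω' - γ ω') = (ζ ω - ζ ω') - (γ ω - γ ω') := by ring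
          rw [h4]
          refine (abs_sub _ _).trans ?_
          have h5 : (2 : ℝ) / 2 ^ r' = 1 / 2 ^ r' + 1 / 2 ^ r' := by ring
          linarith
        refine (dg_near h3).trans ?_
        norm_num
      · rw [Ex_const hp.sum_one]
        exact hl5 3 rfl
    linarith
  have s4 : CH p (fun ω => dg r' (ζ ω)) (fun ω => (V ω, (G ω, (dg r (y ω), Z ω)))) ≤
      CH p (fun ω => dg r' (ζ ω)) (fun ω => (dg r (ζ ω), (V ω, Z ω))) + 3 := by
    have a1 : CH p (fun ω => dg r' (ζ ω)) (fun ω => (V ω, (G ω, (dg r (y ω), Z ω)))) ≤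
        CH p (fun ω => (dg r' (ζ ω), dg r (ζ ω))) (fun ω => (V ω, (G ω, (dg r (y ω), Z ω)))) :=
      CH_mono_left hp0 fun _ _ _ _ e => (Prod.ext_iff.1 (Prod.ext_iff.1 e).1).1
    have a2 := CH_chain hp0 (fun ω => dg r' (ζ ω)) (fun ω => dg r (ζ ω))
      (fun ω => (V ω, (G ω, (dg r (y ω), Z ω))))
    have a3 : CH p (fun ω => dg r (ζ ω)) (fun ω => (V ω, (G ω, (dg r (y ω), Z ω)))) ≤ 3 := by
      refine (CH_le_int hp0 hp.sum_one (fun ω => dg r (ζ ω)) _ (fun _ => 3)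
        (fun ω ω' hω hω' e => ?_)).trans ?_
      · have e1 := (Prod.ext_iff.1 e).1
        have e2 := (Prod.ext_iff.1 (Prod.ext_iff.1 e).2).1
        have e3 := (Prod.ext_iff.1 (Prod.ext_iff.1 (Prod.ext_iff.1 e).2).2).1
        simp only at e1 e2 e3
        have h1 := dg_same e3
        have h2 := hγ ω ω' hω hω' e1 e2
        have h2' : (1 : ℝ) / 2 ^ r' ≤ 1 / 2 ^ r :=
          div_le_div_of_nonneg_left (by norm_num) (by positivity)
            (pow_le_pow_right₀ (by norm_num) hrr)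
        have h3 : |ζ ω - ζ ω'| ≤ 2 / 2 ^ r := by
          have h4 : ζ ω - ζ ω' = (y ω - y ω') + (γ ω - γ ω') := by
            rw [hy ω hω, hy ω' hω']
            ring
          rw [h4]
          refine (abs_add_le _ _).trans ?_
          have h5 : (2 : ℝ) / 2 ^ r = 1 / 2 ^ r + 1 / 2 ^ r := by ring
          linarith
        refine (dg_near h3).trans ?_
        norm_num
      · rw [Ex_const hp.sum_one]
        exact hl5 3 rfl
    have a4 : CH p (fun ω => dg r' (ζ ω))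
        (fun ω => (dg r (ζ ω), (V ω, (G ω, (dg r (y ω), Z ω))))) ≤
        CH p (fun ω => dg r' (ζ ω)) (fun ω => (dg r (ζ ω), (V ω, Z ω))) :=
      CH_mono_cond hp0 fun _ _ _ _ e => by
        have e1 := (Prod.ext_iff.1 e).1
        have e2 := (Prod.ext_iff.1 (Prod.ext_iff.1 e).2).1
        have e3 := (Prod.ext_iff.1 (Prod.ext_iff.1 (Prod.ext_iff.1 (Prod.ext_iff.1 e).2).2).2).2
        simp only at e1 e2 e3
        exact Prod.ext e1 (Prod.ext e2 e3)
    linarith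
  linarith

end Pool.VAS
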