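import Pool.Agent.H19.VAS.Obj
import Pool.Agent.H19.VAS.NfT
import Pool.Agent.H19.VAS.VisL
import Pool.Agent.H20.TIE.Nfs

/-!
# Nonfull rows of the height over the total sheet

`nf_tot`: on every sub-law, the rows of the height of the target over the total sheet are not full
given the visible record. `h5T`: hypothesis (H5) of the data `shT`. `nf_vis`: the field `nf` of
`VisD`.
-/

set_option autoImplicit false

namespace Pool.VAS

open Finset MvPolynomial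
open Pool.Agent.H49.Ent Pool.Agent.H32.Dense Pool.STK Pool.STAT Pool.MIC Pool.MicA
open Pool.MIC.Frm (sl nat)
open Pool.BFL (Pl Pb)
open Pool.TIE (SubL dg lip2 ml_le_of_cb CH_event full_event)
open Pool.GSD (YpS ztS nuS vtP scv eval_vtP vtP_vars PiS eval_PiS fpt fpt_scv)
open Pool.LSH (Pls)
open Pool.KAF (Pr)

/-- The value of `kTr`. -/
theorem eval_kTr (D : NDat2) (n z i j : ℕ) (F : Pl (n - 1)) (ω : D.Ω) (hΨ : TriN (D.Ψ i j ω))
    (hΦ : TriN (D.Φ i j ω)) {b : ℕ → ℝ} (hb : b 0 = D.X ω 0) :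
    eval (scv n z (D.g i j) (D.Φ i j ω) b) (kTr D n z i j F ω) = (2 : ℝ) ^ D.g i j n *
      (eval b (vtP n z (D.g i j) (D.Ψ i j ω) F) - eval b (D.Φ i j ω n)) := by
  have e : kTr D n z i j F ω =
      PiS D n z i j (D.Φ i j) (fun _ => vtP n z (D.g i j) (D.Ψ i j ω) F) ω := rfl
  rw [e, eval_PiS]
  congr 1
  have h1 : ∀ P : PN, P.vars ⊆ range n →
      eval (fpt D n z i j (D.Φ i j) ω (scv n z (D.g i j) (D.Φ i j ω) b)) P = eval b P := by
    intro P hP
    refine eval_congr_vars fun r hr => ?_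
    exact fpt_scv hΦ hb (mem_range.1 (hP hr))
  rw [h1 _ (vtP_vars hΨ F), h1 _ (hΦ n)]

/-- The height over the total sheet. -/
noncomputable def yT (D : NDat2) (n z i j : ℕ) (F : Pl (n - 1)) (ω : D.Ω) : ℝ :=
  (2 : ℝ) ^ D.g i j n * (D.X ω n - eval (D.X ω) (vtP n z (D.g i j) (D.Ψ i j ω) F))

theorem hT_eq (D : NDat2) (n z i j X : ℕ) (F : Pl (n - 1)) (ω : D.Ω) :
    hT D n z i j X F ω = dg X (yT D n z i j F ω) := rfl

/-- The height over the total sheet and the natural height. -/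
theorem yT_eq (D : NDat2) (n z i j : ℕ) (F : Pl (n - 1)) (ω : D.Ω) :
    yT D n z i j F ω = ztS D i j (D.Ψ i j) ω n -
      eval (scv n z (D.g i j) (D.Ψ i j ω) (D.X ω)) F := by
  unfold yT
  rw [eval_vtP]
  have h2g : (2 : ℝ) ^ D.g i j n ≠ 0 := by positivity
  change _ = (2 : ℝ) ^ D.g i j n * (D.X ω n - eval (D.X ω) (D.Ψ i j ω n)) - _
  field_simp
  ring

theorem htT_eq (D : NDat2) (n z i j bb X : ℕ) (F : Pl (n - 1)) (ω : D.Ω)
    (hΨ : TriN (D.Ψ i j ω)) (hΦ : TriN (D.Φ i j ω))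
    (hc : ∀ α, |coeff α (kTr D n z i j F ω)| ≤ 2 ^ bb) :
    htT D n z i j bb X F ω = dg X (yT D n z i j F ω) := by
  unfold htT dg
  congr 2
  have e : kT D n z i j bb F ω = kTr D n z i j F ω := if_pos hc
  have h1 := eval_kTr D n z i j F ω hΨ hΦ (b := D.X ω) rfl
  have e2 : (fun l : Fin (n - 1) => up z (zt D i j ω (l + 1))) =
      scv n z (D.g i j) (D.Φ i j ω) (D.X ω) := rfl
  rw [e, e2, h1]
  unfold yT
  change (2 : ℝ) ^ D.g i j n * (D.X ω n - eval (D.X ω) (D.Φ i j ω n)) - _ = _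
  ring

/-- The digits have at most `X` bits. -/
theorem CH_dig {Om T : Type} [Fintype Om] {p : Om → ℝ} (hp : IsLaw p) {m X : ℕ}
    (V : Om → Fin m → ℕ) (W : Om → T) (hV : ∀ w, 0 < p w → ∀ l, V w l < 2 ^ X) :
    CH p V W ≤ (m : ℝ) * (X * Real.log 2) := by
  classical
  have h1 := CH_le_card hp.nonneg hp.sum_one V W
    (fun _ => Fintype.piFinset fun _ => Finset.range (2 ^ X))
    (fun ω hω => by
      rw [Fintype.mem_piFinset]
      exact fun c => Finset.mem_range.2 (hV ω hω c))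
  refine h1.trans (le_of_eq ?_)
  rw [Ex_const hp.sum_one, Fintype.card_piFinset]
  simp only [Finset.card_range, Finset.prod_const, Finset.card_univ, Fintype.card_fin]
  push_cast
  rw [Real.log_pow, Real.log_pow]

/-- The digits of the position on the support. -/
theorem YpS_lt {D : NDat2} {n z i j X : ℕ} {ω : D.Ω}
    (h : ∀ l, 1 ≤ l → l ≤ n → |ztS D i j (D.Ψ i j) ω l| ≤ 1) (l : Fin (n - 1)) :
    YpS D n z i j X (D.Ψ i j) ω l < 2 ^ X := by
  have h1 := h (l + 1) (by omega) (by omega)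
  have h2 : up z (ztS D i j (D.Ψ i j) ω (l + 1)) < 1 := by
    have h3 : (1 : ℝ) ≤ 2 ^ z := one_le_pow₀ (by norm_num)
    rw [abs_le] at h1
    unfold up
    rw [div_lt_one (by positivity)]
    linarith [h1.2]
  have h3 := (up_bd (z := z) h1).1
  have h4 : (0 : ℝ) < 2 ^ X := by positivity
  have h5 : ((YpS D n z i j X (D.Ψ i j) ω l : ℕ) : ℝ) < 2 ^ X := by
    unfold YpS
    refine lt_of_le_of_lt (Nat.floor_le (mul_nonneg h4.le h3)) ?_
    calc _ < (2 : ℝ) ^ X * 1 := mul_lt_mul_of_pos_left h2 h4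
      _ = 2 ^ X := mul_one _
  exact_mod_cast h5

/-- The scaled coordinates from the digits. -/
theorem scv_near {D : NDat2} {n z i j X : ℕ} {ω : D.Ω}
    (h : ∀ l, 1 ≤ l → l ≤ n → |ztS D i j (D.Ψ i j) ω l| ≤ 1) (l : Fin (n - 1)) :
    |scv n z (D.g i j) (D.Ψ i j ω) (D.X ω) l| ≤ 1 ∧
      |scv n z (D.g i j) (D.Ψ i j ω) (D.X ω) l -
        (YpS D n z i j X (D.Ψ i j) ω l : ℝ) / 2 ^ X| ≤ 1 / 2 ^ X := by
  have h1 := h (l + 1) (by omega) (by omega)
  have h2 := up_bd (z := z) h1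
  have e : scv n z (D.g i j) (D.Ψ i j ω) (D.X ω) l =
      up z (ztS D i j (D.Ψ i j) ω (l + 1)) := rfl
  rw [e]
  refine ⟨by rw [abs_of_nonneg h2.1]; exact h2.2, ?_⟩
  rw [abs_sub_comm]
  exact Pool.GSD.fl_div X h2.1

/-- **Rows of the height over the total sheet**, on every sub-law. -/
theorem nf_tot (n K' B : ℕ) (C₁ h κ π : ℝ) (hn : 1 ≤ n) (hB : 1 ≤ B) (hh : 0 < h) (hh1 : h ≤ 1)
    (hκ : 0 < κ) (hπ : 0 < π) : ∃ (H₀ z₀ : ℕ) (ϖ C : ℝ), 0 < ϖ ∧ 0 ≤ C ∧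
    ∀ (D : NDat2) (K J a₀ w₀ z M : ℕ) (lam gam : ℕ → ℝ) (κ' : ℝ) (q : D.Ω → ℝ),
      D.Ok2 n K J a₀ w₀ z M lam gam κ' C₁ q → D.NF n z M B gam h C₁ ϖ q → z₀ ≤ z →
      ∀ i j X Xb : ℕ, i + (X / z + 1) ≤ M → j ≤ M →
      (((X / z : ℕ) : ℝ) + 1) ≤ gam n * (M - j) → H₀ * z ≤ X → B * (X + z) ≤ Xb →
      ∀ (Om : Type) [Fintype Om] (p : Om → ℝ) (f : Om → D.Ω) (G : Om → Pl (n - 1))
        (θ θ₂ b : ℝ), SubL q π p f → (∀ v, (G v).totalDegree ≤ K') →
      (∀ v α, |coeff α (G v)| ≤ (2 : ℝ) ^ b) → b + C + X ≤ Xb →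
      CH p G (fun v => zv D i j (f v)) ≤ θ →
      ((n - 1 : ℕ) : ℝ) * (Xb * Real.log 2) - θ₂ ≤
        CH p (fun v => YpS D n z i j Xb (D.Ψ i j) (f v))
          (fun v => (hT D n z i j Xb (G v) (f v), (G v, zv D i j (f v)))) →
      ∀ r r' : ℕ, r ≤ r' → r' ≤ X → κ * X ≤ (r' : ℝ) - r →
        CH p (fun v => dg r' (yT D n z i j (G v) (f v)))
          (fun v => (dg r (yT D n z i j (G v) (f v)), zv D i j (f v))) ≤
          (1 - h / 2) * ((r' : ℝ) - r) * Real.log 2 + θ + θ₂ + 6 := by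
  classical
  obtain ⟨H₀, z₀, ϖ, hϖ, H⟩ := Pool.TIE.nfs_gen n B C₁ h κ π 3 hn hB hh hh1 hκ hπ (by norm_num)
  obtain ⟨N, hN⟩ : ∃ N : ℝ, N = ((K' : ℝ) + 1) ^ (n - 1) * K' := ⟨_, rfl⟩
  have hN0 : 0 ≤ N := by rw [hN]; positivity
  obtain ⟨C, hC⟩ := exists_nat_ge (Real.logb 2 (2 * N + 1))
  have hC2 : 2 * N + 1 ≤ (2 : ℝ) ^ (C : ℝ) := by
    calc 2 * N + 1 = (2 : ℝ) ^ Real.logb 2 (2 * N + 1) :=
          (Real.rpow_logb (by norm_num) (by norm_num) (by linarith)).symm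
      _ ≤ _ := Real.rpow_le_rpow_of_exponent_le (by norm_num) hC
  refine ⟨H₀, max z₀ 1, ϖ, C, hϖ, Nat.cast_nonneg _, ?_⟩
  intro D K J a₀ w₀ z M lam gam κ' q hO hNF hz i j X Xb hiX hj hgam hX hXb Om _ p f G θ θ₂ b hs
    hdeg hcf hbX hfew hfull r r' hrr hrX hκr
  have hz1 : 1 ≤ z := (le_max_right _ _).trans hz
  have hz1R : (1 : ℝ) ≤ z := by exact_mod_cast hz1
  have hi : i ≤ M := (Nat.le_add_right _ _).trans hiX
  have hp := hs.isLaw
  have hpos : ∀ v, 0 < p v → 0 < q (f v) := fun v hv => sub_pos hπ hs hv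
  have hy1 : ∀ v, 0 < p v → ∀ l, 1 ≤ l → l ≤ n → |ztS D i j (D.Ψ i j) (f v) l| ≤ 1 :=
    fun v hv l h1 h2 => zs_le hO hi hj (hpos v hv) h1 h2
  have hXXb : X ≤ Xb := by
    have h1 : X + z ≤ B * (X + z) := Nat.le_mul_of_pos_left _ hB
    omega
  refine nf_core hp _ (fun v => ztS D i j (D.Ψ i j) (f v) n)
    (fun v => eval (scv n z (D.g i j) (D.Ψ i j (f v)) (D.X (f v))) (G v))
    (fun v => YpS D n z i j Xb (D.Ψ i j) (f v)) G (fun v => zv D i j (f v)) hrr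
    (fun v _ => yT_eq D n z i j (G v) (f v)) ?_ hfew ?_ ?_
  · intro v v' hv hv' e1 e2
    rw [e2]
    have h1 := lip2 (R := 1) (δ := 2 / 2 ^ Xb) le_rfl (hdeg v')
      (u := scv n z (D.g i j) (D.Ψ i j (f v)) (D.X (f v)))
      (v := scv n z (D.g i j) (D.Ψ i j (f v')) (D.X (f v')))
      (fun l => (scv_near (X := Xb) (hy1 v hv) l).1) (fun l => (scv_near (X := Xb) (hy1 v' hv') l).1)
      (by positivity) (fun l => by
        have a1 := (scv_near (X := Xb) (z := z) (hy1 v hv) l).2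
        have a2 := (scv_near (X := Xb) (z := z) (hy1 v' hv') l).2
        have a3 : YpS D n z i j Xb (D.Ψ i j) (f v) l = YpS D n z i j Xb (D.Ψ i j) (f v') l :=
          congrFun e1 l
        rw [a3] at a1
        rw [abs_sub_comm] at a2
        have a4 := abs_sub_le (scv n z (D.g i j) (D.Ψ i j (f v)) (D.X (f v)) l)
          ((YpS D n z i j Xb (D.Ψ i j) (f v') l : ℝ) / 2 ^ Xb)
          (scv n z (D.g i j) (D.Ψ i j (f v')) (D.X (f v')) l)
        have a5 : (2 : ℝ) / 2 ^ Xb = 1 / 2 ^ Xb + 1 / 2 ^ Xb := by ring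
        linarith)
    refine h1.trans ?_
    have h2 := ml_le_of_cb (hdeg v') (by positivity : (0 : ℝ) ≤ (2 : ℝ) ^ b) (hcf v')
    rw [one_pow, mul_one]
    have h3 : Pool.GLM.ml (G v') * (K' * (2 / 2 ^ Xb)) ≤
        ((K' : ℝ) + 1) ^ (n - 1) * 2 ^ b * (K' * (2 / 2 ^ Xb)) :=
      mul_le_mul_of_nonneg_right h2 (by positivity)
    refine h3.trans ?_
    have h4 : ((K' : ℝ) + 1) ^ (n - 1) * 2 ^ b * (K' * (2 / 2 ^ Xb)) =
        2 * N * 2 ^ b / 2 ^ Xb := by rw [hN]; ring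
    rw [h4, div_le_div_iff₀ (by positivity) (by positivity), one_mul]
    have h5 : (2 : ℝ) ^ b * 2 ^ (C : ℝ) * 2 ^ (X : ℝ) ≤ 2 ^ (Xb : ℝ) := by
      rw [← Real.rpow_add (by norm_num), ← Real.rpow_add (by norm_num)]
      exact Real.rpow_le_rpow_of_exponent_le (by norm_num) hbX
    have h6 : (2 : ℝ) ^ r' ≤ (2 : ℝ) ^ (X : ℝ) := by
      rw [Real.rpow_natCast]
      exact pow_le_pow_right₀ (by norm_num) hrX
    rw [Real.rpow_natCast 2 Xb] at h5
    have h7 : (0 : ℝ) < (2 : ℝ) ^ b := by positivity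
    calc 2 * N * 2 ^ b * 2 ^ r' ≤ 2 ^ (C : ℝ) * 2 ^ b * 2 ^ (X : ℝ) := by
          refine mul_le_mul (mul_le_mul_of_nonneg_right (by linarith) h7.le) h6 (by positivity)
            (by positivity)
      _ = 2 ^ b * 2 ^ (C : ℝ) * 2 ^ (X : ℝ) := by ring
      _ ≤ _ := h5
  · have a1 := CH_dig hp (fun v => YpS D n z i j Xb (D.Ψ i j) (f v))
      (fun v => (G v, (dg r (yT D n z i j (G v) (f v)), zv D i j (f v))))
      (fun v hv l => YpS_lt (hy1 v hv) l)
    have a2 : CH p (fun v => YpS D n z i j Xb (D.Ψ i j) (f v))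
        (fun v => (hT D n z i j Xb (G v) (f v), (G v, zv D i j (f v)))) ≤
        CH p (fun v => YpS D n z i j Xb (D.Ψ i j) (f v))
          (fun v => (dg r' (yT D n z i j (G v) (f v)),
            (G v, (dg r (yT D n z i j (G v) (f v)), zv D i j (f v))))) := by
      refine CH_mono_cond hp.nonneg fun v v' _ _ e => ?_
      have e1 := (Prod.ext_iff.1 e).1
      have e2 := (Prod.ext_iff.1 (Prod.ext_iff.1 e).2).1
      have e3 := (Prod.ext_iff.1 (Prod.ext_iff.1 e).2).2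
      simp only [hT_eq] at e1 e2 e3
      refine Prod.ext ?_ (Prod.ext e2 (Prod.ext ?_ e3))
      · simp only
        rw [dg_dg (hrX.trans hXXb), dg_dg (hrX.trans hXXb) (yT D n z i j (G v') (f v')), e1]
      · simp only
        rw [dg_dg ((hrr.trans hrX).trans hXXb),
          dg_dg ((hrr.trans hrX).trans hXXb) (yT D n z i j (G v') (f v')), e1]
    linarith
  · have e4 : 4 * (2 : ℝ) ^ z ≤ Real.exp (3 * z) := by
      have h0 : (2 : ℝ) ≤ Real.exp 1 := by linarith only [Real.add_one_le_exp (1 : ℝ)]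
      have h1 : (2 : ℝ) ^ z ≤ Real.exp (z * 1) := by
        rw [Real.exp_nat_mul]
        exact pow_le_pow_left₀ (by norm_num) h0 z
      have h2 : (4 : ℝ) ≤ Real.exp (2 * z) := by
        have h3 : Real.exp 1 * Real.exp 1 ≤ Real.exp (2 * z) := by
          rw [← Real.exp_add]
          exact Real.exp_le_exp.2 (by linarith only [hz1R])
        have h4 : (2 : ℝ) * 2 ≤ Real.exp 1 * Real.exp 1 :=
          mul_le_mul h0 h0 (by norm_num) (Real.exp_pos 1).le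
        linarith only [h3, h4]
      have h5 : Real.exp (3 * z) = Real.exp (2 * z) * Real.exp (z * 1) := by
        rw [← Real.exp_add]
        congr 1
        ring
      rw [h5]
      exact mul_le_mul h2 h1 (by positivity) (Real.exp_pos _).le
    refine H D z M gam q hO.isLaw hNF ((le_max_left _ _).trans hz) i j X Xb hiX hj hgam hX hXb
      (fun ω => YpS D n z i j Xb (D.Ψ i j) ω) (fun ω => zv D i j ω)
      (fun ω => ztS D i j (D.Ψ i j) ω n)
      (fun ω ω' _ _ e => Prod.ext (Prod.ext_iff.1 (Prod.ext_iff.1 e).1).1 (Prod.ext_iff.1 e).2)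
      ?_ ?_ Om p f hs r r' hrr hrX hκr
    · intro ω ω' p1 p2 e1 _ l l1 l2
      obtain ⟨l, rfl⟩ : ∃ m, l = m + 1 := ⟨l - 1, by omega⟩
      have g1 : ∀ l, 1 ≤ l → l ≤ n → |ztS D i j (D.Ψ i j) ω l| ≤ 1 :=
        fun l h1 h2 => zs_le hO hi hj p1 h1 h2
      have g2 : ∀ l, 1 ≤ l → l ≤ n → |ztS D i j (D.Ψ i j) ω' l| ≤ 1 :=
        fun l h1 h2 => zs_le hO hi hj p2 h1 h2
      have k1 := (up_bd (z := z) (g1 (l + 1) l1 l2.le)).1
      have k2 := (up_bd (z := z) (g2 (l + 1) l1 l2.le)).1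
      have e6 : ⌊(2 : ℝ) ^ Xb * up z (zs D i j ω (l + 1))⌋₊ =
          ⌊(2 : ℝ) ^ Xb * up z (zs D i j ω' (l + 1))⌋₊ := congrFun e1 (⟨l, by omega⟩ : Fin (n - 1))
      have k1' : 0 ≤ up z (zs D i j ω (l + 1)) := k1
      have k2' : 0 ≤ up z (zs D i j ω' (l + 1)) := k2
      have y1 := Nat.floor_le (mul_nonneg (show (0 : ℝ) ≤ 2 ^ Xb by positivity) k1')
      have y2 := Nat.lt_floor_add_one ((2 : ℝ) ^ Xb * up z (zs D i j ω (l + 1)))
      have y3 := Nat.floor_le (mul_nonneg (show (0 : ℝ) ≤ 2 ^ Xb by positivity) k2')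
      have y4 := Nat.lt_floor_add_one ((2 : ℝ) ^ Xb * up z (zs D i j ω' (l + 1)))
      rw [e6] at y1 y2
      have e7 : zs D i j ω (l + 1) - zs D i j ω' (l + 1) = 4 * 2 ^ z *
          (up z (zs D i j ω (l + 1)) - up z (zs D i j ω' (l + 1))) := by
        unfold up
        field_simp
        ring
      rw [e7, abs_mul, abs_of_pos (by positivity), ← mul_one_div]
      refine mul_le_mul e4 ?_ (abs_nonneg _) (Real.exp_pos _).le
      have y5 : |(2 : ℝ) ^ Xb * (up z (zs D i j ω (l + 1)) - up z (zs D i j ω' (l + 1)))| ≤ 1 := by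
        rw [mul_sub, abs_le]
        constructor <;> linarith only [y1, y2, y3, y4]
      rw [abs_mul, abs_of_pos (show (0 : ℝ) < 2 ^ Xb by positivity)] at y5
      rw [le_div_iff₀ (by positivity), mul_comm]
      exact y5
    · intro ω _
      have e : ztS D i j (D.Ψ i j) ω n - zs D i j ω n = 0 := sub_self _
      rw [e, abs_zero]
      positivity

end Pool.VAS
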