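import Pool.Agent.H19.VAS.MidP

/-!
# The middle of the case without ties: assembly
-/

set_option autoImplicit false

namespace Pool.VAS

open Finset MvPolynomial
open Pool.Agent.H49.Ent Pool.Agent.H32.Dense Pool.STK Pool.STAT Pool.MIC Pool.MicA
open Pool.MIC.Frm (sl nat)
open Pool.BFL (Pl Pb)
open Pool.TIE (SubL dg CH_event)
open Pool.GSD (YpS ztS vtP)
open Pool.LSH (Pls Plc Pln Plg Dir SDat Fd rtr LdF)
open Pool.KAF (Pr)

theorem rf_num (N₀ : ℕ) : N₀ + 4 ≤ 1 * (N₀ + 2) ^ 2 := by nlinarith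

theorem rf_num1 {x : ℝ} (hx : 0 ≤ x) : x + 1 ≤ (x + 2) ^ 2 := by nlinarith

theorem num_wX {w o z N M XL J a : ℕ} (h1 : o * z + N * z ≤ M * z) (h2 : M * z ≤ (M + 1) * z)
    (h3 : w + (M + 1) * z ≤ a) (h4 : a + (M + 1) * z ≤ J) (h5 : XL ≤ N * z) :
    w + o * z + XL ≤ J := by omega

theorem num_oX {o q N M : ℕ} (h1 : q ≤ N) (h2 : o + (N + 4) ≤ M) : o + (q + 1) ≤ M := by omega

set_option maxHeartbeats 40000000 in
/-- **The assembly of the middle.** -/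
theorem midV_of (hOk : OkTStmt) (hVal : ValTStmt) (hKt : KtCfStmt) (h1 : H1TStmt) (h2 : H2TStmt)
    (h3 : H3TStmt) (hB : MidBStmt) : MidVStmt := by
  classical
  intro n K K' V B lam gam C₁ h σ Ca hn hB1 hlam hgam hgn hC₁ hh hh1 hσ hσB hCa hCV
  have hBR : (1 : ℝ) ≤ B := by exact_mod_cast hB1
  have hσ4 : σ ≤ 1 / 4 := by nlinarith
  have hL2 := log2_bd
  -- the constants which depend on nothing
  obtain ⟨k, co, cN, Ag, hCo, hgeo⟩ := exists_geoV n lam gam C₁ hn (by linarith) hlam hgam hgn hCV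
  obtain ⟨N, hshf⟩ := Pool.LSH.shf_ok n K lam gam C₁ hn hC₁
  obtain ⟨K₀, hK₀⟩ : ∃ K₀, K₀ = dT n K K' := ⟨_, rfl⟩
  obtain ⟨Cok, hCok0, hok⟩ := hOk n K K' K₀ N
  obtain ⟨D₁, hval⟩ := hVal n K K' K₀ N
  obtain ⟨CK, hCK0, hkt⟩ := hKt n K K' hn
  obtain ⟨E, C₀, Cb, hC₀, hCb, hMB⟩ := hB n K K' lam gam C₁ hn hC₁
  obtain ⟨C₂, hC₂, hh2⟩ := h2 n K K' K₀ N lam gam C₁ hn hC₁ (le_of_eq hK₀.symm) cN
  obtain ⟨C₃, hC₃, hh3⟩ := Pool.LSH.h3 n K lam gam C₁ hC₁ cN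
  obtain ⟨Csh, hCsh, hshf2⟩ := hshf cN K₀
  obtain ⟨D₀, hD₀⟩ : ∃ D₀ : ℕ, D₀ = N + k * (K₀ * N * N) := ⟨_, rfl⟩
  obtain ⟨A₂, a₂, Am, K₂, cm, Cm, hVa, hcm, hCm, hmid⟩ := Pool.LSH.mid_thm (n - 1)
    (max (D₀ + 1) D₁) (dT n K K') E V C₀ (1 / 2) (fun _ => 1 / 2) hC₀
    (fun _ => by rw [abs_of_pos (by norm_num)]; norm_num) (by norm_num) (by norm_num)
  refine ⟨A₂, a₂, K₂, cm, hVa, hcm, ?_⟩
  intro δ hδ
  obtain ⟨κ₂, hκ₂, hvc⟩ := Pool.LSH.val_cl Pool.LSH.l1sh k N N K₀ D₀ (h / 4) (1 / 2) (cm / 2)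
    (le_of_eq hD₀.symm) (by positivity) (by norm_num) (by positivity)
  obtain ⟨μ, hμ⟩ : ∃ μ : ℝ, μ = min κ₂ (1 / 2) := ⟨_, rfl⟩
  have hμ0 : 0 < μ := by rw [hμ]; exact lt_min hκ₂ (by norm_num)
  have hμκ : μ ≤ κ₂ := by rw [hμ]; exact min_le_left _ _
  have hμ2 : μ ≤ 1 / 2 := by rw [hμ]; exact min_le_right _ _
  have hAm0 : (0 : ℝ) ≤ Am := Nat.cast_nonneg _
  have hV0 : (0 : ℝ) ≤ V := Nat.cast_nonneg _
  obtain ⟨δ₁, hδ₁⟩ : ∃ δ₁ : ℝ, δ₁ = min δ (min (1 / (V + 2)) (σ * μ / (8 * (Am + 1)))) :=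
    ⟨_, rfl⟩
  have hδ0 : 0 < δ₁ := by
    rw [hδ₁]
    exact lt_min hδ (lt_min (by positivity) (by positivity))
  have hδa : δ₁ ≤ δ := by rw [hδ₁]; exact min_le_left _ _
  have hδb : δ₁ ≤ 1 / (V + 2) := by
    rw [hδ₁]; exact (min_le_right _ _).trans (min_le_left _ _)
  have hδc : δ₁ ≤ σ * μ / (8 * (Am + 1)) := by
    rw [hδ₁]; exact (min_le_right _ _).trans (min_le_right _ _)
  have hδV : (V + 2) * δ₁ ≤ 1 := by
    rw [le_div_iff₀ (by positivity)] at hδb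
    linarith only [hδb]
  have hδA : (Am + 1) * δ₁ ≤ σ * μ / 8 := by
    rw [le_div_iff₀ (by positivity)] at hδc
    linarith only [hδc]
  obtain ⟨κv, π₀, ι, Xv, hκv, hκv1, hπ₀, hι, hvc⟩ := hvc (δ₁ / 4) (by positivity)
  obtain ⟨α, hα⟩ : ∃ α : ℝ, α = ι * σ / 2 := ⟨_, rfl⟩
  have hα0 : 0 < α := by rw [hα]; positivity
  have hC20 : 0 < C₂ := by linarith only [hC₂]
  have hCm0 : 0 < Cm := by linarith only [hCm]
  obtain ⟨ε₀, hε₀⟩ : ∃ ε₀ : ℝ, ε₀ = min (α / (16 * (1 + Ca) * C₂)) (min (σ / (8 * (Ca + 1)))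
    (min (δ₁ / (32 * Cm)) (min (h * κv * π₀ * σ / 256) (1 / 8)))) := ⟨_, rfl⟩
  have hε0 : 0 < ε₀ := by
    rw [hε₀]
    exact lt_min (by positivity) (lt_min (by positivity) (lt_min (by positivity)
      (lt_min (by positivity) (by norm_num))))
  refine ⟨ε₀, δ₁ / 2, hε0, by positivity, ?_⟩
  intro ε c₁ hε hεε hc₁
  have x1 : ε ≤ α / (16 * (1 + Ca) * C₂) := hεε.trans (by rw [hε₀]; exact min_le_left _ _)
  have x2 : ε ≤ σ / (8 * (Ca + 1)) := hεε.trans (by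
    rw [hε₀]; exact (min_le_right _ _).trans (min_le_left _ _))
  have x3 : ε ≤ δ₁ / (32 * Cm) := hεε.trans (by
    rw [hε₀]; exact (min_le_right _ _).trans ((min_le_right _ _).trans (min_le_left _ _)))
  have x4 : ε ≤ h * κv * π₀ * σ / 256 := hεε.trans (by
    rw [hε₀]; exact (min_le_right _ _).trans ((min_le_right _ _).trans ((min_le_right _ _).trans
      (min_le_left _ _))))
  have x5 : ε ≤ 1 / 8 := hεε.trans (by
    rw [hε₀]; exact (min_le_right _ _).trans ((min_le_right _ _).trans ((min_le_right _ _).trans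
      (min_le_right _ _))))
  have x1' : C₂ * ((1 + Ca) * ε) ≤ α / 16 := by
    rw [le_div_iff₀ (by positivity)] at x1
    linarith only [x1]
  have x1'' : (1 + Ca) * ε ≤ α / 16 := by
    have : (1 + Ca) * ε ≤ C₂ * ((1 + Ca) * ε) := le_mul_of_one_le_left (by positivity) hC₂
    linarith only [this, x1']
  have x2' : (1 + Ca) * ε ≤ σ / 8 := by
    rw [le_div_iff₀ (by positivity)] at x2
    linarith only [x2]
  have x3' : Cm * ε ≤ δ₁ / 32 := by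
    rw [le_div_iff₀ (by positivity)] at x3
    linarith only [x3]
  have x3'' : ε ≤ δ₁ / 32 := by
    have : ε ≤ Cm * ε := le_mul_of_one_le_left hε.le hCm
    linarith only [this, x3']
  have hεCa : ε ≤ (1 + Ca) * ε := le_mul_of_one_le_left hε.le (by linarith only [hCa])
  have hCaε0 : 0 ≤ Ca * ε := by positivity
  refine ⟨⌈Csh⌉₊, cN, fun c' => ?_⟩
  obtain ⟨H₀, z₅, ϖ₅, C₅, hϖ₅, hC₅, hh5⟩ := h5T n K' B C₁ h κv π₀ c₁ hn hB1 hh hh1 hκv hπ₀ hc₁
  obtain ⟨c₀, hc₀⟩ : ∃ c₀ : ℝ, c₀ = min c₁ 1 := ⟨_, rfl⟩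
  have hc₀0 : 0 < c₀ := by rw [hc₀]; exact lt_min hc₁ one_pos
  have hc₀1 : c₀ ≤ 1 := by rw [hc₀]; exact min_le_right _ _
  have hH₀0 : (0 : ℝ) ≤ H₀ := Nat.cast_nonneg _
  have hc'0 : (0 : ℝ) ≤ c' := Nat.cast_nonneg _
  have hC30 : 0 ≤ C₃ := by linarith only [hC₃]
  obtain ⟨S, hS⟩ : ∃ S : ℝ, S = Csh + CK + c' + Cok + Cb + C₂ * (c' + 3) + C₃ + H₀ + C₅ + B + 10 :=
    ⟨_, rfl⟩
  have hC2c : 0 ≤ C₂ * (c' + 3) := by positivity
  have hS0 : 10 ≤ S := by rw [hS]; linarith only [hCsh, hCK0, hc'0, hCok0, hCb, hC2c, hC30, hH₀0, hC₅, hBR]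
  have hS1 : (1 : ℝ) ≤ S := by linarith only [hS0]
  have hS2 : (2 : ℝ) ≤ S := by linarith only [hS0]
  have hS3 : (3 : ℝ) ≤ S := by linarith only [hS0]
  obtain ⟨β, hβ⟩ : ∃ β : ℝ, β = min α (min (σ * μ) (min δ₁ (min cm 1))) := ⟨_, rfl⟩
  have hβ0 : 0 < β := by
    rw [hβ]
    exact lt_min hα0 (lt_min (by positivity) (lt_min hδ0 (lt_min hcm one_pos)))
  have b1 : β ≤ α := by rw [hβ]; exact min_le_left _ _
  have b2 : β ≤ σ * μ := by rw [hβ]; exact (min_le_right _ _).trans (min_le_left _ _)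
  have b3 : β ≤ δ₁ := by
    rw [hβ]; exact (min_le_right _ _).trans ((min_le_right _ _).trans (min_le_left _ _))
  have b4 : β ≤ cm := by
    rw [hβ]; exact (min_le_right _ _).trans ((min_le_right _ _).trans ((min_le_right _ _).trans
      (min_le_left _ _)))
  have b5 : β ≤ 1 := by
    rw [hβ]; exact (min_le_right _ _).trans ((min_le_right _ _).trans ((min_le_right _ _).trans
      (min_le_right _ _)))
  obtain ⟨ν, hν⟩ : ∃ ν : ℝ, ν = β * c₀ / (16 * Cm * S) := ⟨_, rfl⟩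
  have hν0 : 0 < ν := by rw [hν]; positivity
  have hνx : ∀ x : ℝ, 0 ≤ x → x ≤ S → Cm * (x * ν) ≤ β * c₀ / 16 := by
    intro x hx0 hx
    have e1 : Cm * (S * ν) = β * c₀ / 16 := by
      rw [hν]
      field_simp
    rw [← e1]
    exact mul_le_mul_of_nonneg_left (mul_le_mul_of_nonneg_right hx hν0.le) hCm0.le
  have hνy : ∀ x : ℝ, 0 ≤ x → x ≤ S → x * ν ≤ β * c₀ / 16 := by
    intro x hx0 hx
    refine le_trans ?_ (hνx x hx0 hx)
    exact le_mul_of_one_le_left (by positivity) hCm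
  obtain ⟨e, he⟩ : ∃ e : ℝ, e = min (1 / 8) (ι / (8 * C₂)) := ⟨_, rfl⟩
  have he0 : 0 < e := by rw [he]; exact lt_min (by norm_num) (by positivity)
  have he1 : e ≤ 1 / 8 := by rw [he]; exact min_le_left _ _
  have he2 : C₂ * e ≤ ι / 8 := by
    have : e ≤ ι / (8 * C₂) := by rw [he]; exact min_le_right _ _
    rw [le_div_iff₀ (by positivity)] at this
    linarith only [this]
  obtain ⟨A, hA⟩ : ∃ A : ℕ, A = Ag + ⌈1 / gam n⌉₊ + 1 := ⟨_, rfl⟩
  have hAA : Ag ≤ A ∧ 1 ≤ A ∧ ⌈1 / gam n⌉₊ ≤ A := by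
    rw [hA]
    exact ⟨(Nat.le_add_right _ _).trans (Nat.le_add_right _ _), Nat.le_add_left _ _,
      (Nat.le_add_left _ _).trans (Nat.le_add_right _ _)⟩
  obtain ⟨m₀, hm₀⟩ : ∃ m₀ : ℕ, m₀ = ⌈1 / ν⌉₊ + ⌈2 * ((Xv : ℝ) + 2) / σ⌉₊ := ⟨_, rfl⟩
  refine ⟨e, A, m₀, he0, fun N₀ M => ?_⟩
  by_cases hM : 2 ≤ M
  swap
  · refine ⟨1, 1, 0, one_pos, one_pos, ?_⟩
    intro J a₀ w₀ z i j X D q Om _ P f G hz hm0 hXN hR
    exfalso
    have h4 : 1 * 2 ^ 2 ≤ rfV A N₀ := by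
      unfold rfV
      exact Nat.mul_le_mul (by omega) (Nat.pow_le_pow_left (by omega) 2)
    obtain ⟨r1, r2, -, -⟩ := hR
    omega
  obtain ⟨κs, zs, hκs, hsh⟩ := hshf2 M ν hM hν0
  obtain ⟨κb, zb, hκb, hmb⟩ := hMB M ν hM hν0
  obtain ⟨κ2, z2, hκ2, hhh2⟩ := hh2 M ν hM hν0
  obtain ⟨κ3, z3, hκ3, hhh3⟩ := hh3 M ν hM hν0
  obtain ⟨κ, hκ⟩ : ∃ κ : ℝ, κ = min (min κs κb) (min (min κ2 κ3) 1) := ⟨_, rfl⟩
  have hκ0 : 0 < κ := by
    rw [hκ]
    exact lt_min (lt_min hκs hκb) (lt_min (lt_min hκ2 hκ3) one_pos)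
  have kκs : κ ≤ κs := by rw [hκ]; exact (min_le_left _ _).trans (min_le_left _ _)
  have kκb : κ ≤ κb := by rw [hκ]; exact (min_le_left _ _).trans (min_le_right _ _)
  have kκ2 : κ ≤ κ2 := by
    rw [hκ]; exact (min_le_right _ _).trans ((min_le_left _ _).trans (min_le_left _ _))
  have kκ3 : κ ≤ κ3 := by
    rw [hκ]; exact (min_le_right _ _).trans ((min_le_left _ _).trans (min_le_right _ _))
  have kκ1 : κ ≤ 1 := by rw [hκ]; exact (min_le_right _ _).trans (min_le_right _ _)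
  refine ⟨κ, ϖ₅, max (max zs zb) (max (max z2 z3) (max z₅ 1)), hκ0, hϖ₅, ?_⟩
  intro J a₀ w₀ z i j X D q Om _ P f G hz hm0 hXN hR hO hLd hNF hT hVS hLv
  simp only [max_le_iff] at hz
  obtain ⟨⟨gzs, gzb⟩, ⟨gz2, gz3⟩, gz5, gz1⟩ := hz
  have hzR : (1 : ℝ) ≤ z := by exact_mod_cast gz1
  have hz0R : (0 : ℝ) ≤ z := zero_le_one.trans hzR
  have hq := hO.isLaw
  have hP := hVS.sub.isLaw
  have hc1 : c₁ ≤ 1 := sub_c1 hq hc₁ hVS.sub
  have hc01 : c₀ = c₁ := by rw [hc₀]; exact min_eq_left hc1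
  rw [hc01] at hνx hνy
  have hpos : ∀ v, 0 < P v → 0 < q (f v) := fun v hv => sub_pos hc₁ hVS.sub hv
  -- sizes
  have hX0 : (0 : ℝ) ≤ X := Nat.cast_nonneg _
  have hm0R : (m₀ : ℝ) * z ≤ X := by exact_mod_cast hm0
  have hm1 : 1 / ν ≤ (m₀ : ℝ) := by
    rw [hm₀]
    push_cast
    have q1 := Nat.le_ceil (1 / ν)
    have q2 : (0 : ℝ) ≤ ⌈2 * ((Xv : ℝ) + 2) / σ⌉₊ := Nat.cast_nonneg _
    linarith only [q1, q2]
  have hm2 : 2 * ((Xv : ℝ) + 2) / σ ≤ (m₀ : ℝ) := by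
    rw [hm₀]
    push_cast
    have q1 := Nat.le_ceil (2 * ((Xv : ℝ) + 2) / σ)
    have q2 : (0 : ℝ) ≤ ⌈1 / ν⌉₊ := Nat.cast_nonneg _
    linarith only [q1, q2]
  have zν : (z : ℝ) ≤ ν * X := by
    have q1 : 1 ≤ ν * m₀ := by
      rw [div_le_iff₀ hν0] at hm1
      linarith only [hm1]
    calc (z : ℝ) = 1 * z := (one_mul _).symm
      _ ≤ ν * m₀ * z := mul_le_mul_of_nonneg_right q1 (by linarith only [hzR])
      _ = ν * (m₀ * z) := by ring
      _ ≤ ν * X := mul_le_mul_of_nonneg_left hm0R hν0.le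
  have oneν : 1 ≤ ν * X := hzR.trans zν
  have hσX : 2 * ((Xv : ℝ) + 2) ≤ σ * X := by
    rw [div_le_iff₀ hσ] at hm2
    have q1 : (m₀ : ℝ) ≤ X := by
      have : (m₀ : ℝ) * 1 ≤ m₀ * z := mul_le_mul_of_nonneg_left hzR (Nat.cast_nonneg _)
      linarith only [this, hm0R]
    calc 2 * ((Xv : ℝ) + 2) ≤ m₀ * σ := hm2
      _ ≤ X * σ := mul_le_mul_of_nonneg_right q1 hσ.le
      _ = σ * X := mul_comm _ _
  have hXv0 : (0 : ℝ) ≤ Xv := Nat.cast_nonneg _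
  obtain ⟨XL, hXL⟩ : ∃ XL : ℕ, XL = ⌊σ * (X : ℝ)⌋₊ := ⟨_, rfl⟩
  have L1 : (XL : ℝ) ≤ σ * X := by
    rw [hXL]
    exact Nat.floor_le (by positivity)
  have L2 : σ * X ≤ XL + 1 := by
    rw [hXL]
    exact (Nat.lt_floor_add_one _).le
  have L3 : σ * X / 2 ≤ XL := by linarith only [L2, hσX, hXv0]
  have L4 : (Xv : ℝ) ≤ XL := by linarith only [L3, hσX]
  have hXpos : 0 < (X : ℝ) := by
    by_contra hcon
    have : (X : ℝ) = 0 := le_antisymm (not_lt.1 hcon) hX0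
    rw [this, mul_zero] at hσX
    linarith only [hσX, hXv0]
  have L5 : (XL : ℝ) ≤ X / 4 := by
    have := mul_le_mul_of_nonneg_right hσ4 hX0
    linarith only [this, L1]
  have hXLX : XL ≤ X := by
    have : (XL : ℝ) ≤ X := by linarith only [L5, hX0]
    exact_mod_cast this
  have hXLle : (XL : ℝ) ≤ X := by linarith only [L5, hX0]
  have hιX : α * X ≤ ι * XL := by
    have := mul_le_mul_of_nonneg_left L3 hι.le
    rw [hα]
    linarith only [this]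
  -- the facts on `ν X`
  have nf : ∀ x : ℝ, 0 ≤ x → x ≤ S → x * (ν * X) ≤ β * c₁ / 16 * X := by
    intro x hx0 hx
    calc x * (ν * X) = x * ν * X := by ring
      _ ≤ β * c₁ / 16 * X := mul_le_mul_of_nonneg_right (hνy x hx0 hx) hX0
  have nfm : ∀ x : ℝ, 0 ≤ x → x ≤ S → Cm * (x * (ν * X)) ≤ β * c₁ / 16 * X := by
    intro x hx0 hx
    calc Cm * (x * (ν * X)) = Cm * (x * ν) * X := by ring
      _ ≤ β * c₁ / 16 * X := mul_le_mul_of_nonneg_right (hνx x hx0 hx) hX0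
  have nfc : ∀ x : ℝ, 0 ≤ x → x ≤ S → x * (ν * X) / c₁ ≤ β / 16 * X := by
    intro x hx0 hx
    rw [div_le_iff₀ hc₁]
    calc _ ≤ β * c₁ / 16 * X := nf x hx0 hx
      _ = β / 16 * X * c₁ := by ring
  have nfcm : ∀ x : ℝ, 0 ≤ x → x ≤ S → Cm * (x * (ν * X)) / c₁ ≤ β / 16 * X := by
    intro x hx0 hx
    rw [div_le_iff₀ hc₁]
    calc _ ≤ β * c₁ / 16 * X := nfm x hx0 hx
      _ = β / 16 * X * c₁ := by ring
  have nβ : β * c₁ / 16 * X ≤ β / 16 * X := by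
    have : β * c₁ ≤ β * 1 := mul_le_mul_of_nonneg_left hc1 hβ0.le
    have := mul_le_mul_of_nonneg_right this hX0
    linarith only [this]
  have nf' : ∀ x : ℝ, 0 ≤ x → x ≤ S → x * (ν * X) ≤ β / 16 * X := fun x a b => (nf x a b).trans nβ
  have bα : β * X ≤ α * X := mul_le_mul_of_nonneg_right b1 hX0
  have bσ : β * X ≤ σ * μ * X := mul_le_mul_of_nonneg_right b2 hX0
  have bδ : β * X ≤ δ₁ * X := mul_le_mul_of_nonneg_right b3 hX0
  have bone : β * X ≤ X := by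
    have := mul_le_mul_of_nonneg_right b5 hX0
    linarith only [this]
  have hσμ : σ * μ * X ≤ σ * X / 2 := by
    have := mul_le_mul_of_nonneg_left hμ2 (show 0 ≤ σ * (X : ℝ) by positivity)
    linarith only [this]
  have hβX0 : 0 ≤ β * (X : ℝ) := by positivity
  -- `ε X`
  have y1 : C₂ * ((1 + Ca) * ε * X) ≤ α / 16 * X := by
    have := mul_le_mul_of_nonneg_right x1' hX0
    linarith only [this]
  have y1' : (1 + Ca) * ε * X ≤ α / 16 * X := mul_le_mul_of_nonneg_right x1'' hX0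
  have y2 : (1 + Ca) * ε * X ≤ σ / 8 * X := mul_le_mul_of_nonneg_right x2' hX0
  have y3 : Cm * (ε * X) ≤ δ₁ / 32 * X := by
    have := mul_le_mul_of_nonneg_right x3' hX0
    linarith only [this]
  have y3' : ε * X ≤ δ₁ / 32 * X := mul_le_mul_of_nonneg_right x3'' hX0
  have y5 : ε * X ≤ 1 / 8 * X := mul_le_mul_of_nonneg_right x5 hX0
  have yε0 : 0 ≤ ε * (X : ℝ) := by positivity
  have yC0 : 0 ≤ Ca * ε * (X : ℝ) := by positivity
  have yexp : (1 + Ca) * ε * X = ε * X + Ca * ε * X := by ring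
  rw [yexp] at y1 y1' y2
  -- the rooms
  obtain ⟨r1, r2, r3, r4⟩ := hR
  have hAg : rfV Ag N₀ ≤ rfV A N₀ := by
    unfold rfV
    exact Nat.mul_le_mul_right _ hAA.1
  have hrf : N₀ + 4 ≤ rfV A N₀ := by
    have q1 : 1 * (N₀ + 2) ^ 2 ≤ rfV A N₀ := by
      unfold rfV
      exact Nat.mul_le_mul_right _ hAA.2.1
    exact (rf_num N₀).trans q1
  have hXLN : XL ≤ N₀ * z := hXLX.trans hXN
  obtain ⟨π, a, an, be, s, S', hπco, hG⟩ := hgeo K J a₀ w₀ z M N₀ XL i j κ D q gz1 hXLN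
    (hAg.trans r1) ((Nat.add_le_add_left hAg _).trans r2) (hAg.trans r3)
    ((Nat.add_le_add_left hAg _).trans r4) hO
  have ho := hG.o
  obtain ⟨oi, oj⟩ : i = π.o.1 ∧ j = π.o.2 := by rw [ho]; exact ⟨rfl, rfl⟩
  subst oi
  subst oj
  have hiM : π.o.1 ≤ M := (Nat.le_add_right _ _).trans r2
  have hjM : π.o.2 ≤ M := (Nat.le_add_right _ _).trans r4
  have hjN4 : π.o.2 + (N₀ + 4) ≤ M := (Nat.add_le_add_left hrf _).trans r4
  have hiN4 : π.o.1 + (N₀ + 4) ≤ M := (Nat.add_le_add_left hrf _).trans r2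
  have hjN : π.o.2 + N₀ ≤ M := (Nat.add_le_add_left (Nat.le_add_right _ _) _).trans hjN4
  have hiN : π.o.1 + N₀ ≤ M := (Nat.add_le_add_left (Nat.le_add_right _ _) _).trans hiN4
  have hjM1 : π.o.2 < M := lt_of_lt_of_le (Nat.lt_add_of_pos_right (by positivity)) hjN4
  have hdivN : XL / z ≤ N₀ := Nat.div_le_of_le_mul (by rw [Nat.mul_comm]; exact hXLN)
  have hTm : w₀ + (M + 1) * z ≤ a₀ := hO.thin
  have hTt : a₀ + (M + 1) * z ≤ J := hO.top
  have hjz : π.o.2 * z + N₀ * z ≤ M * z := by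
    rw [← Nat.add_mul]
    exact Nat.mul_le_mul_right _ hjN
  have hiz : π.o.1 * z + N₀ * z ≤ M * z := by
    rw [← Nat.add_mul]
    exact Nat.mul_le_mul_right _ hiN
  have hMz : M * z ≤ (M + 1) * z := Nat.mul_le_mul_right _ (Nat.le_succ M)
  have hwXJ : w₀ + π.o.2 * z + XL ≤ J := num_wX hjz hMz hTm hTt hXLN
  have hwJ : w₀ + π.o.2 * z ≤ J := (Nat.le_add_right _ _).trans hwXJ
  have hoXM : π.o.1 + (XL / z + 1) ≤ M := num_oX hdivN hiN4
  -- a sample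
  obtain ⟨v₀, hv₀⟩ : ∃ v, 0 < P v := by
    by_contra hcon
    push Not at hcon
    have : ∑ v, P v ≤ 0 := Finset.sum_nonpos fun v _ => hcon v
    rw [hP.sum_one] at this
    linarith only [this]
  obtain ⟨ω₀, hω₀⟩ : ∃ ω₀, ω₀ = f v₀ := ⟨_, rfl⟩
  have hzXL : z ≤ XL := by
    have q1 := nf' 1 (by norm_num) hS1
    have : (z : ℝ) ≤ XL := by linarith only [zν, q1, bσ, hσμ, L3, hβX0]
    exact_mod_cast this
  -- the sheets
  obtain ⟨G₀, hG₀, hShF⟩ := hsh J a₀ w₀ z XL k D q π a ω₀ gzs hzXL hG.plc hG.pln hG.deepA hG.wideA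
    (hO.mono_κ kκs) (by
      unfold NDat2.TmU at hT ⊢
      have := mul_le_mul_of_nonneg_right kκs hz0R
      linarith only [this, hT])
  -- the numbers of the shape
  obtain ⟨bb, hbb⟩ : ∃ bb : ℕ, bb = ⌈ε * (X : ℝ) + CK * z⌉₊ := ⟨_, rfl⟩
  have hbb1 : ε * (X : ℝ) + CK * z ≤ bb := by rw [hbb]; exact Nat.le_ceil _
  have hbb2 : (bb : ℝ) ≤ ε * (X : ℝ) + CK * z + 1 := by
    rw [hbb]
    exact (Nat.ceil_lt_add_one (by positivity)).le
  have hcf : ∀ v, 0 < P v → ∀ α, |coeff α (kTr D n z π.o.1 π.o.2 (G v) (f v))| ≤ 2 ^ bb := by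
    intro v hv α
    refine (hkt D J a₀ w₀ z M π.o.1 π.o.2 lam gam κ C₁ (ε * X) q (f v) (G v) gz1 hiM hjM hO
      (hpos v hv) yε0 (hVS.deg v) (hVS.cf v) α).trans ?_
    rw [← Real.rpow_natCast]
    exact Real.rpow_le_rpow_of_exponent_le (by norm_num) hbb1
  obtain ⟨cc, hcc⟩ : ∃ cc : ℝ, cc = c' * z + Ca * ε * X := ⟨_, rfl⟩
  have hcc0 : 0 ≤ cc := by rw [hcc]; positivity
  obtain ⟨acc, hacc⟩ : ∃ acc : ℝ, acc = 2 ^ (c' * z) * (2 : ℝ) ^ (Ca * ε * X) / 2 ^ XL :=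
    ⟨_, rfl⟩
  have hacc0 : 0 ≤ acc := by rw [hacc]; positivity
  have hacc1 : acc * 2 ^ XL = (2 : ℝ) ^ cc := by
    rw [hacc, div_mul_cancel₀ _ (by positivity), hcc, Real.rpow_add (by norm_num)]
    congr 1
    rw [← Real.rpow_natCast]
    push_cast
    rfl
  obtain ⟨hLA, hLB⟩ := hLv
  rw [← hXL, ← hacc] at hLA hLB
  -- the good event
  obtain ⟨G', hG'⟩ : ∃ G' : Set Om, G' = {v | f v ∈ G₀ ∧
    LfB D n z π.o.1 π.o.2 a.1 a.2 XL (G v) (2 ^ (⌈Csh⌉₊ * z)) acc (f v)} := ⟨_, rfl⟩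
  have hνc1 : ν / c₁ ≤ β / 16 := by
    rw [div_le_iff₀ hc₁]
    have := hνy 1 (by norm_num) hS1
    linarith only [this]
  have hPG : 1 / 2 ≤ Pb P (fun v => v ∈ G') := by
    have q1 : Pb P (fun v => ¬ v ∈ G') ≤ Pb P (fun v => ¬ f v ∈ G₀) +
        Pb P (fun v => ¬ LfB D n z π.o.1 π.o.2 a.1 a.2 XL (G v) (2 ^ (⌈Csh⌉₊ * z)) acc (f v)) := by
      refine Pb_or2 hP.nonneg _ _ _ fun v _ hv => ?_
      rw [hG', Set.mem_ofPred_eq, not_and_or] at hv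
      exact hv
    have q2 : Pb P (fun v => ¬ f v ∈ G₀) ≤ ν / c₁ :=
      (sub_bad hq hc₁ hVS.sub (fun ω => ¬ ω ∈ G₀)).trans
        (div_le_div_of_nonneg_right hG₀ hc₁.le)
    have q3 := hLB a.1 a.2 hG.a_lt.1 hG.a_lt.2 hG.plB
    have q4 := Pb_not hP.sum_one (fun v => v ∈ G')
    linarith only [q1, q2, q3, q4, hνc1, b5, he1]
  have hPrG : 1 / 2 ≤ Pr P G' := by
    have e1 : Pr P G' = Pb P (fun v => v ∈ G') := Pool.MIC.law_True P (fun v => v ∈ G')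
    rw [e1]
    exact hPG
  have hCshC : Csh * (z : ℝ) ≤ (⌈Csh⌉₊ : ℝ) * z :=
    mul_le_mul_of_nonneg_right (Nat.le_ceil _) hz0R
  have hCel : CelT D π n K K' K₀ J a₀ w₀ z M XL N bb ⌈Csh⌉₊ lam gam κ C₁ c₁ (Csh * z) acc cc q ω₀ a
      P f G G₀ G' :=
    { n_ge := hn
      K₀_ge := le_of_eq hK₀.symm
      z_ge := gz1
      zX := hzXL
      o_le := ⟨hiM, hjM⟩
      a_le := ⟨hG.a_lt.1.le, by rw [hG.a_eq]; exact Nat.sub_le _ _⟩
      wJ := hwJ
      ok := hO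
      c1 := hc₁
      sub := hVS.sub
      deg := hVS.deg
      c_ge := by positivity
      shf := hShF
      cBb := by
        rw [← Real.rpow_natCast 2 (⌈Csh⌉₊ * z)]
        refine Real.rpow_le_rpow_of_exponent_le (by norm_num) ?_
        push_cast
        exact hCshC
      acc_ge := hacc0
      acc_le := le_of_eq hacc1
      cc_ge := hcc0
      co_lt := fun r => ⟨hG.plc.co_ge r, hG.plc.co_lt r⟩
      inj := hG.plc.inj
      good := fun v hv hPv => by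
        rw [hG', Set.mem_ofPred_eq] at hv
        exact ⟨hv.1, hv.2, hcf v hPv⟩ }
  -- the hypotheses of L1
  have hOKT := (hok D k π J a₀ w₀ z M XL bb ⌈Csh⌉₊ lam gam κ C₁ c₁ (Csh * z) acc cc q ω₀ a Om P f
    G G₀ G' hCel).mono (c' := ι * XL) (by
      have q1 := nf' (Csh + CK + c' + Cok + 1) (add_nonneg (add_nonneg (add_nonneg (add_nonneg hCsh hCK0) hc'0) hCok0) zero_le_one) (by rw [hS]; linarith only [hCb, hC2c, hC30, hH₀0, hC₅, hBR])
      have q2 : Csh * (z : ℝ) ≤ Csh * (ν * X) := mul_le_mul_of_nonneg_left zν hCsh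
      have q3 : CK * (z : ℝ) ≤ CK * (ν * X) := mul_le_mul_of_nonneg_left zν hCK0
      have q4 : (c' : ℝ) * z ≤ c' * (ν * X) := mul_le_mul_of_nonneg_left zν hc'0
      have q5 : Cok * 1 ≤ Cok * (ν * X) := mul_le_mul_of_nonneg_left oneν hCok0
      rw [hcc]
      linarith only [q1, q2, q3, q4, q5, oneν, hbb2, y1', bα, hιX, hβX0])
  have hH1 := h1 n K K₀ N k D π J a₀ w₀ z M XL bb lam gam κ C₁ c₁ (ε * X) ι q ω₀ a Om P f G hiM hjM
    hwXJ hc₁ hκ0.le hO hT hVS.sub hVS.few (by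
      have q1 := nfc 3 (by norm_num) hS3
      have q2 := nf' 2 (by norm_num) hS2
      have q3 : (κ * z + 2) / c₁ ≤ 3 * (ν * X) / c₁ := by
        refine div_le_div_of_nonneg_right ?_ hc₁.le
        have : κ * z ≤ 1 * z := mul_le_mul_of_nonneg_right kκ1 hz0R
        linarith only [this, zν, oneν]
      have q4 : ι * XL * (1 / 2) ≤ ι * XL * Real.log 2 :=
        mul_le_mul_of_nonneg_left hL2.1 (by positivity)
      linarith only [q1, q2, q3, q4, oneν, y1', yC0, bα, hιX, hβX0])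
  have hPlg : Plg D n z XL cN M π a an be s S' :=
    ⟨hG.a_eq, hG.be_le, hG.o1, hG.o2, hG.r1, hG.r2, hG.rA, hG.nar, hG.wid, hG.hor, hG.lev⟩
  have hbbX : (bb : ℝ) ≤ XL := by
    have q1 := nf' (CK + 1) (by linarith only [hCK0]) (by rw [hS]; linarith only [hCsh, hc'0, hCok0, hCb, hC2c, hC30, hH₀0, hC₅, hBR])
    have q3 : CK * (z : ℝ) ≤ CK * (ν * X) := mul_le_mul_of_nonneg_left zν hCK0
    linarith only [hbb2, q1, q3, oneν, y2, yC0, bσ, hσμ, L3, hβX0]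
  have hH2 := hhh2 J a₀ w₀ z XL bb k an be s S' κ κ c₁ (ε * X) acc cc e ι D q π a ω₀ Om P f G gz2
    hzXL kκ2 kκ1 hc₁ (by
      have := hνy 1 (by norm_num) hS1
      have h3 : β * c₁ ≤ 1 * c₁ := mul_le_mul_of_nonneg_right b5 hc₁.le
      linarith only [this, h3, hc₁]) hO (by
      unfold NDat2.TmU at hT ⊢
      have := mul_le_mul_of_nonneg_right kκ2 hz0R
      linarith only [this, hT]) hLd.2 hG.plc hG.pln hPlg hG.plA hVS.sub hVS.few hVS.deg hVS.cf hcf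
    (le_of_eq hacc1) hcc0 he0.le (hLA _ _ hG.o'_lt.1 hG.o'_lt.2 hG.plA) hbbX (by
      have q0 : ν * (XL : ℝ) ≤ ν * X := mul_le_mul_of_nonneg_left hXLle hν0.le
      have q1 := nfc (3 * C₂) (by positivity) (by
        have : C₂ * 3 ≤ C₂ * (c' + 3) := mul_le_mul_of_nonneg_left (by linarith only [hc'0]) hC20.le
        rw [hS]
        linarith only [this, hCsh, hCK0, hc'0, hCok0, hCb, hC30, hH₀0, hC₅, hBR])
      have q2 : C₂ * (z + 1 + ν * XL) / c₁ ≤ 3 * C₂ * (ν * X) / c₁ := by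
        refine div_le_div_of_nonneg_right ?_ hc₁.le
        have : C₂ * (z + 1 + ν * XL) ≤ C₂ * (3 * (ν * X)) :=
          mul_le_mul_of_nonneg_left (by linarith only [zν, oneν, q0]) hC20.le
        linarith only [this]
      have q3 := nf' (C₂ * (c' + 3)) hC2c (by rw [hS]; linarith only [hCsh, hCK0, hc'0, hCok0, hCb, hC30, hH₀0, hC₅, hBR])
      have q4 : C₂ * (c' * z + 1) ≤ C₂ * (c' + 3) * (ν * X) := by
        have q5 : (c' : ℝ) * z ≤ c' * (ν * X) := mul_le_mul_of_nonneg_left zν hc'0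
        have : C₂ * (c' * z + 1) ≤ C₂ * ((c' + 3) * (ν * X)) :=
          mul_le_mul_of_nonneg_left (by
            have : 0 ≤ ν * (X : ℝ) := by positivity
            linarith only [q5, oneν, this]) hC20.le
        linarith only [this]
      have q6 : C₂ * (e * XL) ≤ ι / 8 * XL := by
        have := mul_le_mul_of_nonneg_right he2 (Nat.cast_nonneg (α := ℝ) XL)
        linarith only [this]
      have q7 : C₂ * (ε * X + cc + 1 + e * XL) =
          C₂ * (ε * X + Ca * ε * X) + C₂ * (c' * z + 1) + C₂ * (e * XL) := by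
        rw [hcc]
        ring
      rw [q7]
      have q8 : 0 ≤ ι * (XL : ℝ) := by positivity
      linarith only [q1, q2, q3, q4, q6, y1, bα, hιX, q8])
  have hH3 := h3 n K₀ N k D π J (w₀ + π.o.2 * z) z XL bb c₁ (C₃ * z + ν * XL) ι q ω₀ a Om P f G
    hc₁ hq hVS.sub (fun r => hhh3 J a₀ w₀ z XL k κ κ D q π ω₀ gz3 hzXL kκ3 kκ1 hG.plc hO (by
      unfold NDat2.TmU at hT ⊢
      have := mul_le_mul_of_nonneg_right kκ3 hz0R
      linarith only [this, hT]) hLd.2 r (fun s hs => hG.mono s r hs) (hG.dir r) (hG.rU r)) (by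
      have q0 : ν * (XL : ℝ) ≤ ν * X := mul_le_mul_of_nonneg_left hXLle hν0.le
      have q1 := nfc (C₃ + 6) (by linarith only [hC30]) (by rw [hS]; linarith only [hCsh, hCK0, hc'0, hCok0, hCb, hC2c, hH₀0, hC₅, hBR])
      have q2 : (C₃ * z + ν * XL + 5) / c₁ ≤ (C₃ + 6) * (ν * X) / c₁ := by
        refine div_le_div_of_nonneg_right ?_ hc₁.le
        have : C₃ * z ≤ C₃ * (ν * X) := mul_le_mul_of_nonneg_left zν hC30
        linarith only [this, q0, oneν]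
      have q4 : ι * XL * (1 / 2) ≤ ι * XL * Real.log 2 :=
        mul_le_mul_of_nonneg_left hL2.1 (by positivity)
      linarith only [q1, q2, q4, bα, hιX, hβX0])
  have hBX : B * (XL + z) ≤ X := by
    have q1 := nf' B (by linarith only [hBR]) (by rw [hS]; linarith only [hCsh, hCK0, hc'0, hCok0, hCb, hC2c, hC30, hH₀0, hC₅])
    have q2 : (B : ℝ) * z ≤ B * (ν * X) := mul_le_mul_of_nonneg_left zν (by linarith only [hBR])
    have q3 : (B : ℝ) * XL ≤ B * (σ * X) := mul_le_mul_of_nonneg_left L1 (by linarith only [hBR])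
    have q4 : (B : ℝ) * (σ * X) ≤ 1 / 4 * X := by
      have := mul_le_mul_of_nonneg_right hσB hX0
      linarith only [this]
    have q5 : (B : ℝ) * (XL + z) ≤ X := by linarith only [q1, q2, q3, q4, bone, hX0]
    exact_mod_cast q5
  have hH5 := hh5 D K K₀ N k π J a₀ w₀ (w₀ + π.o.2 * z) z M XL X bb lam gam κ q ω₀ a Om P f G
    (ε * X) (ε * X) hO hNF gz5 hoXM hjM rfl (by
      have q1 : ((XL / z : ℕ) : ℝ) ≤ N₀ := by exact_mod_cast hdivN
      have q2 : (⌈1 / gam n⌉₊ : ℝ) * (N₀ + 2) ^ 2 ≤ (M : ℝ) - π.o.2 := by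
        have q3 : ⌈1 / gam n⌉₊ * (N₀ + 2) ^ 2 ≤ rfV A N₀ := by
          unfold rfV
          exact Nat.mul_le_mul_right _ hAA.2.2
        have q4 : π.o.2 + ⌈1 / gam n⌉₊ * (N₀ + 2) ^ 2 ≤ M := (Nat.add_le_add_left q3 _).trans r4
        have q5 : ((π.o.2 + ⌈1 / gam n⌉₊ * (N₀ + 2) ^ 2 : ℕ) : ℝ) ≤ M := by exact_mod_cast q4
        push_cast at q5
        linarith only [q5]
      have q3 : 1 ≤ gam n * (⌈1 / gam n⌉₊ : ℝ) := by
        have := Nat.le_ceil (1 / gam n)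
        rw [div_le_iff₀ hgn] at this
        linarith only [this]
      have q4 : ((N₀ : ℝ) + 2) ^ 2 ≤ gam n * (⌈1 / gam n⌉₊ : ℝ) * (N₀ + 2) ^ 2 :=
        le_mul_of_one_le_left (by positivity) q3
      have q5 := mul_le_mul_of_nonneg_left q2 hgn.le
      have q6 : (N₀ : ℝ) + 1 ≤ (N₀ + 2) ^ 2 := by
        have : (0 : ℝ) ≤ N₀ := Nat.cast_nonneg _
        exact rf_num1 this
      linarith only [q1, q4, q5, q6]) (by
      have q1 := nf' H₀ hH₀0 (by rw [hS]; linarith only [hCsh, hCK0, hc'0, hCok0, hCb, hC2c, hC30, hC₅, hBR])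
      have q2 : (H₀ : ℝ) * z ≤ H₀ * (ν * X) := mul_le_mul_of_nonneg_left zν hH₀0
      have q3 : (H₀ : ℝ) * z ≤ XL := by linarith only [q1, q2, bσ, hσμ, L3, hβX0]
      exact_mod_cast q3) hBX hVS (by
      have q1 := nf' C₅ hC₅ (by rw [hS]; linarith only [hCsh, hCK0, hc'0, hCok0, hCb, hC2c, hC30, hH₀0, hBR])
      have q2 : C₅ * 1 ≤ C₅ * (ν * X) := mul_le_mul_of_nonneg_left oneν hC₅
      linarith only [q1, q2, y5, L5, bone, hX0]) hcf yε0 (by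
      have q1 := mul_le_mul_of_nonneg_right x4 hX0
      have q2 : h * κv * π₀ / 128 * (σ * X / 2) ≤ h * κv * π₀ / 128 * XL :=
        mul_le_mul_of_nonneg_left L3 (by positivity)
      linarith only [q1, q2])
  -- the values
  obtain ⟨u, g, hu, hgd, hgP⟩ := hvc _ G' hOKT (by exact_mod_cast L4) hPrG hH1 hH2 hH3 hH5
  obtain ⟨ep, hep, hepP⟩ := hval D k π J a₀ w₀ z M XL bb ⌈Csh⌉₊ lam gam κ C₁ c₁ (Csh * z) acc cc q
    ω₀ a Om P f G G₀ G' hCel
  obtain ⟨m, hm⟩ : ∃ m : ℕ, m = ⌊δ₁ * (X : ℝ)⌋₊ := ⟨_, rfl⟩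
  have m1 : (m : ℝ) ≤ δ₁ * X := by
    rw [hm]
    exact Nat.floor_le (by positivity)
  have m2 : δ₁ * X / 2 ≤ m := by
    have q1 : δ₁ * X < m + 1 := by
      rw [hm]
      exact Nat.lt_floor_add_one _
    have q2 := nf' 1 (by norm_num) hS1
    linarith only [q1, q2, oneν, bδ, hβX0]
  have hum : u ≤ m := by
    have q1 : (u : ℝ) ≤ δ₁ / 4 * XL := hu
    have q2 : δ₁ / 4 * XL ≤ δ₁ / 4 * X := mul_le_mul_of_nonneg_left hXLle (by positivity)
    have q3 : (u : ℝ) ≤ m := by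
      have : 0 ≤ δ₁ * (X : ℝ) := by positivity
      linarith only [q1, q2, m2, this]
    exact_mod_cast q3
  have hAmm : (Am : ℝ) * m ≤ σ * μ / 8 * X := by
    have q1 : (Am : ℝ) * m ≤ Am * (δ₁ * X) := mul_le_mul_of_nonneg_left m1 hAm0
    have q2 : (Am : ℝ) * (δ₁ * X) ≤ (Am + 1) * δ₁ * X := by
      have : 0 ≤ δ₁ * (X : ℝ) := by positivity
      linarith only [this]
    have q3 := mul_le_mul_of_nonneg_right hδA hX0
    linarith only [q1, q2, q3]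
  have hs1 : acc + (2 : ℝ) ^ (-(κ₂ * (XL : ℝ))) ≤ 1 / 2 ^ (Am * m) := by
    have n1 := nf' 1 (by norm_num) hS1
    have t1 : (2 : ℝ) ^ (-(κ₂ * (XL : ℝ))) ≤ 1 / 2 ^ (Am * m + 1) := by
      rw [← Real.rpow_natCast, one_div, ← Real.rpow_neg (by norm_num)]
      refine Real.rpow_le_rpow_of_exponent_le (by norm_num) ?_
      push_cast
      have q1 : μ * (σ * X / 2) ≤ κ₂ * XL :=
        mul_le_mul hμκ L3 (by positivity) hκ₂.le
      linarith only [q1, hAmm, n1, oneν, bσ, hβX0]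
    have t2 : acc ≤ 1 / 2 ^ (Am * m + 1) := by
      have e1 : acc = (2 : ℝ) ^ (cc - XL) := by
        rw [Real.rpow_sub (by norm_num), ← hacc1, Real.rpow_natCast,
          mul_div_cancel_right₀ _ (by positivity)]
      rw [e1, ← Real.rpow_natCast 2 (Am * m + 1), one_div, ← Real.rpow_neg (by norm_num)]
      refine Real.rpow_le_rpow_of_exponent_le (by norm_num) ?_
      push_cast
      have q1 := nf' (c' + 1) (by linarith only [hc'0]) (by
        have : 0 ≤ C₂ * (c' + 3) := hC2c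
        rw [hS]
        linarith only [this, hCsh, hCK0, hCok0, hCb, hC30, hH₀0, hC₅, hBR])
      have q4 : (c' : ℝ) * z ≤ c' * (ν * X) := mul_le_mul_of_nonneg_left zν hc'0
      rw [hcc]
      linarith only [q1, q4, oneν, y2, yε0, hAmm, hσμ, bσ, L3, hβX0]
    have t3 : (1 : ℝ) / 2 ^ (Am * m) = 1 / 2 ^ (Am * m + 1) + 1 / 2 ^ (Am * m + 1) := by
      rw [pow_succ]
      field_simp
      norm_num
    rw [t3]
    exact add_le_add t2 t1
  have hvals := vals_of (m := m) (s := Am * m) hP.nonneg hum hgd hep hgP hepP hs1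
  -- the few bits
  have hfew : CH (cond P (fun v => v ∈ G') True)
      (fun v => rk (Am * m) (kT D n z π.o.1 π.o.2 bb (G v) (f v)))
      (fun v => (D.c π.o.1 π.o.2 (f v), Pool.TMS.rt (fun v => D.T (f v)) J
        (w₀ + π.o.2 * z) v)) ≤ 2 * (ε * X) := by
    have hPG0 : 0 < Pb P (fun v => v ∈ G') := by linarith only [hPG]
    have q1 := CH_event hP (fun v => rk (Am * m) (kT D n z π.o.1 π.o.2 bb (G v) (f v)))
      (fun v => (D.c π.o.1 π.o.2 (f v), Pool.TMS.rt (fun v => D.T (f v)) J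
        (w₀ + π.o.2 * z) v)) (fun v => v ∈ G') hPG0
    have q2 : CH P (fun v => rk (Am * m) (kT D n z π.o.1 π.o.2 bb (G v) (f v)))
        (fun v => (D.c π.o.1 π.o.2 (f v), Pool.TMS.rt (fun v => D.T (f v)) J
          (w₀ + π.o.2 * z) v)) ≤ ε * X := by
      refine (CH_mono_left (X' := fun v => kT D n z π.o.1 π.o.2 bb (G v) (f v)) hP.nonneg
        fun v v' _ _ e => ?_).trans ((few_kT hO hiM hjM bb hP f G hpos).trans hVS.few)
      have := (Prod.ext_iff.1 e).1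
      simp only at this ⊢
      rw [this]
    refine q1.trans ?_
    rw [div_le_iff₀ hPG0]
    have q3 : ε * X * 1 ≤ ε * X * (2 * Pb P (fun v => v ∈ G')) :=
      mul_le_mul_of_nonneg_left (by linarith only [hPG]) yε0
    linarith only [q2, q3]
  -- the middle
  have hmM : π.o.1 * z + XL ≤ M * z := (Nat.add_le_add_left hXLN _).trans hiz
  obtain ⟨Y, bta, hMH⟩ := hmb J a₀ w₀ z XL π.o.1 π.o.2 bb κ c₁ D q Om P f G gzb hzXL kκb hκ0.le
    hmM hjM1 hc₁ hO hT hVS.sub hVS.deg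
  have hMH2 := hMH (1 / 2) (2 * (ε * X)) cm (max (D₀ + 1) D₁) m (Am * m) (fun v => v ∈ G') hPG
    (by linarith only [hνc1, b4, hβ0, hcm]) hfew hvals
  obtain ⟨H, hHd, hHP⟩ := hmid Om (D.Λ × ℕ) D.Γ P _ _ _ Y _ _ bta J (w₀ + π.o.2 * z) XL m (Am * m)
    bb _ _ (by positivity) (by positivity) (by
      have q0 : ν * (XL : ℝ) ≤ ν * X := mul_le_mul_of_nonneg_left hXLle hν0.le
      have q1 := nfcm (Cb + 3) (by linarith only [hCb]) (by rw [hS]; linarith only [hCsh, hCK0, hc'0, hCok0, hC2c, hC30, hH₀0, hC₅, hBR])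
      have q2 : Cm * ((Cb * z + ν * XL + 2) / c₁) ≤ Cm * ((Cb + 3) * (ν * X)) / c₁ := by
        rw [mul_div_assoc]
        refine mul_le_mul_of_nonneg_left (div_le_div_of_nonneg_right ?_ hc₁.le) hCm0.le
        have : Cb * z ≤ Cb * (ν * X) := mul_le_mul_of_nonneg_left zν hCb
        linarith only [this, q0, oneν]
      have q3 := nfm 1 (by norm_num) hS1
      have q4 : Cm * 1 ≤ Cm * (1 * (ν * X)) :=
        mul_le_mul_of_nonneg_left (by linarith only [oneν]) hCm0.le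
      have q5 : Cm * ((Cb * z + ν * XL + 2) / c₁ + 2 * (ε * X) + 1) =
          Cm * ((Cb * z + ν * XL + 2) / c₁) + 2 * (Cm * (ε * X)) + Cm * 1 := by ring
      rw [q5]
      linarith only [q1, q2, q3, q4, nβ, y3, bδ, m2, hβX0]) (by
      have q1 := nf' (CK + 3) (by linarith only [hCK0]) (by rw [hS]; linarith only [hCsh, hc'0, hCok0, hCb, hC2c, hC30, hH₀0, hC₅, hBR])
      have q3 : CK * (z : ℝ) ≤ CK * (ν * X) := mul_le_mul_of_nonneg_left zν hCK0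
      have q4 : (bb : ℝ) + 2 ≤ m := by linarith only [hbb2, q1, q3, oneν, y3', bδ, m2, hβX0]
      exact_mod_cast q4) le_rfl (by
      have q1 : (Am : ℝ) * m ≤ XL := by linarith only [hAmm, hσμ, L3, bσ, hβX0]
      exact_mod_cast q1) (by
      have q1 : ((V : ℝ) + 2) * m ≤ X := by
        have q2 : ((V : ℝ) + 2) * m ≤ (V + 2) * (δ₁ * X) :=
          mul_le_mul_of_nonneg_left m1 (by linarith only [hV0])
        have q3 := mul_le_mul_of_nonneg_right hδV hX0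
        linarith only [q2, q3]
      have q2 : (V + 2) * m ≤ X := by exact_mod_cast q1
      omega) hMH2
  refine ⟨m, H, by linarith only [m2], m1.trans (mul_le_mul_of_nonneg_right hδa hX0), hHd,
    hHP.trans (Pool.MIC.Pb_mono_ae hP.nonneg fun v hv hE => ?_)⟩
  intro y hy l
  have e1 : kT D n z π.o.1 π.o.2 bb (G v) (f v) = kTr D n z π.o.1 π.o.2 (G v) (f v) :=
    if_pos (hcf v hv)
  have h9 := hE.2 y (fun r => (hy r).trans hC₀) l
  rw [e1] at h9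
  exact h9

end Pool.VAS
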