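import Pool.Agent.H19.VAS.Def
import Pool.Agent.H19.STAT.MicTop
import Pool.Agent.H46.LSH.Mid
import Pool.Agent.H46.LSH.OutS
import Pool.Agent.H55.LSH.Cl
import Pool.Agent.H25.LSH.H3

/-!
# The case without ties: the middle, objects and statements

`kT`: the height of the total sheet over the line side at the base pair at the exact time, in scaled
coordinates. `htT`: the height of the target over it. `shT`: the data of the sheets on a sub-law,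
with the shape `kT` restricted to the frozen path. The middle is applied to the true path and all
the base coordinates.
-/

set_option autoImplicit false

namespace Pool.VAS

open Finset MvPolynomial
open Pool.Agent.H49.Ent Pool.Agent.H32.Dense Pool.STK Pool.STAT Pool.MIC Pool.MicA
open Pool.MIC.Frm (sl nat)
open Pool.BFL (Pl Pb)
open Pool.TIE (SubL dg MB)
open Pool.GSD (YpS ztS vtP)
open Pool.LSH (Pls Plc Pln Dir SDat Zd Vd yd cl shf cf2 qd VdT ZeT xvp tt Fd dnf LdF rtr)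

/-- The height of the total sheet over the line side at the exact time, scaled coordinates. -/
noncomputable def kTr (D : NDat2) (n z i j : ℕ) (F : Pl (n - 1)) (ω : D.Ω) : Pl (n - 1) :=
  scl (n - 1) z (C ((2 : ℝ) ^ D.g i j n) *
    sl (n - 1) (bind₁ (nuc (D.g i j) (atT (D.X ω 0) (D.Φ i j ω)))
      (vtP n z (D.g i j) (D.Ψ i j ω) F - D.Φ i j ω n)))

open Classical in
/-- The same, truncated. -/
noncomputable def kT (D : NDat2) (n z i j bb : ℕ) (F : Pl (n - 1)) (ω : D.Ω) : Pl (n - 1) :=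
  if ∀ α, |coeff α (kTr D n z i j F ω)| ≤ 2 ^ bb then kTr D n z i j F ω else 0

/-- `X` digits of the height of the target over the total sheet. -/
noncomputable def htT (D : NDat2) (n z i j bb X : ℕ) (F : Pl (n - 1)) (ω : D.Ω) : ℤ :=
  ⌊(2 : ℝ) ^ X * (zt D i j ω n -
    eval (fun l : Fin (n - 1) => up z (zt D i j ω (l + 1))) (kT D n z i j bb F ω))⌋

/-- **The data of the sheets on a sub-law**, with the total sheet as shape. -/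
noncomputable def shT (D : NDat2) {k : ℕ} (π : Pls k) (q : D.Ω → ℝ) (J w : ℕ) (ω₀ : D.Ω)
    (n X N K₀ z bb : ℕ) (a : ℕ × ℕ) {Om : Type} [Fintype Om] (P : Om → ℝ) (f : Om → D.Ω)
    (G : Om → Pl (n - 1)) : SDat k N N K₀ :=
  shP D π q J w ω₀ n X N K₀ a P f
    (fun v => (D.c π.o.1 π.o.2 (f v), (thr D J w (f v), kT D n z π.o.1 π.o.2 bb (G v) (f v))))
    (fun τ => thq J w τ.2.1) (fun τ => Fd n K₀ z bb π τ.2.2)
    (fun v => htT D n z π.o.1 π.o.2 bb X (G v) (f v))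

/-- The degree of the shape. -/
def dT (n K K' : ℕ) : ℕ := (K + K' * (K + 1)) * (K + 1) ^ n

/-- The good samples: the geometry of the sheets, the leaf on the line side, no truncation. -/
def GdT (D : NDat2) {k : ℕ} (π : Pls k) (n X z bb Bb : ℕ) (a : ℕ × ℕ) (acc : ℝ) {Om : Type}
    (f : Om → D.Ω) (G : Om → Pl (n - 1)) (G₀ : Set D.Ω) (v : Om) : Prop :=
  f v ∈ G₀ ∧ LfB D n z π.o.1 π.o.2 a.1 a.2 X (G v) (2 ^ (Bb * z)) acc (f v) ∧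
    ∀ α, |coeff α (kTr D n z π.o.1 π.o.2 (G v) (f v))| ≤ 2 ^ bb

/-- The common hypotheses. -/
structure CelT (D : NDat2) {k : ℕ} (π : Pls k) (n K K' K₀ J a₀ w₀ z M X N bb Bb : ℕ)
    (lam gam : ℕ → ℝ) (κ C₁ c₁ c acc cc : ℝ) (q : D.Ω → ℝ) (ω₀ : D.Ω) (a : ℕ × ℕ) {Om : Type}
    [Fintype Om] (P : Om → ℝ) (f : Om → D.Ω) (G : Om → Pl (n - 1)) (G₀ : Set D.Ω)
    (G' : Set Om) : Prop where
  n_ge : 1 ≤ n
  K₀_ge : dT n K K' ≤ K₀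
  z_ge : 1 ≤ z
  zX : z ≤ X
  o_le : π.o.1 ≤ M ∧ π.o.2 ≤ M
  a_le : a.1 ≤ M ∧ a.2 ≤ π.o.2
  wJ : w₀ + π.o.2 * z ≤ J
  ok : D.Ok2 n K J a₀ w₀ z M lam gam κ C₁ q
  c1 : 0 < c₁
  sub : SubL q c₁ P f
  deg : ∀ v, (G v).totalDegree ≤ K'
  c_ge : 0 ≤ c
  shf : ShF D π q J (w₀ + π.o.2 * z) ω₀ n X N K₀ a c G₀
  cBb : (2 : ℝ) ^ c ≤ 2 ^ (Bb * z)
  acc_ge : 0 ≤ acc
  acc_le : acc * 2 ^ X ≤ (2 : ℝ) ^ cc
  cc_ge : 0 ≤ cc
  co_lt : ∀ r, 1 ≤ π.co r ∧ π.co r < n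
  inj : Function.Injective π.co
  good : ∀ v ∈ G', 0 < P v → GdT D π n X z bb Bb a acc f G G₀ v

/-- **The data are good.** -/
def OkTStmt : Prop :=
  ∀ n K K' K₀ N : ℕ, ∃ C : ℝ, 0 ≤ C ∧
    ∀ (D : NDat2) (k : ℕ) (π : Pls k) (J a₀ w₀ z M X bb Bb : ℕ) (lam gam : ℕ → ℝ)
      (κ C₁ c₁ c acc cc : ℝ) (q : D.Ω → ℝ) (ω₀ : D.Ω) (a : ℕ × ℕ) (Om : Type) [Fintype Om]
      (P : Om → ℝ) (f : Om → D.Ω) (G : Om → Pl (n - 1)) (G₀ : Set D.Ω) (G' : Set Om),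
      CelT D π n K K' K₀ J a₀ w₀ z M X N bb Bb lam gam κ C₁ c₁ c acc cc q ω₀ a P f G G₀ G' →
      (shT D π q J (w₀ + π.o.2 * z) ω₀ n X N K₀ z bb a P f G).OK G' (c + bb + cc + C)

/-- **The values**: the total sheet along the true path is the shape along the frozen path plus a
polynomial of the time on the line. -/
def ValTStmt : Prop :=
  ∀ n K K' K₀ N : ℕ, ∃ D₁ : ℕ,
    ∀ (D : NDat2) (k : ℕ) (π : Pls k) (J a₀ w₀ z M X bb Bb : ℕ) (lam gam : ℕ → ℝ)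
      (κ C₁ c₁ c acc cc : ℝ) (q : D.Ω → ℝ) (ω₀ : D.Ω) (a : ℕ × ℕ) (Om : Type) [Fintype Om]
      (P : Om → ℝ) (f : Om → D.Ω) (G : Om → Pl (n - 1)) (G₀ : Set D.Ω) (G' : Set Om),
      CelT D π n K K' K₀ J a₀ w₀ z M X N bb Bb lam gam κ C₁ c₁ c acc cc q ω₀ a P f G G₀ G' →
      ∃ e : D.Λ × ℕ → Polynomial ℝ, (∀ x, (e x).degree < D₁) ∧ ∀ v ∈ G', 0 < P v →
        |eval (fun l : Fin (n - 1) => up z (zt D π.o.1 π.o.2 (f v) (l + 1)))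
            (kT D n z π.o.1 π.o.2 bb (G v) (f v)) -
          eval (fun _ => 1 / 2) (kT D n z π.o.1 π.o.2 bb (G v) (f v)) -
          (shT D π q J (w₀ + π.o.2 * z) ω₀ n X N K₀ z bb a P f G).val
            (D.wn J (w₀ + π.o.2 * z) (f v))
            (D.c π.o.1 π.o.2 (f v), (thr D J (w₀ + π.o.2 * z) (f v),
              kT D n z π.o.1 π.o.2 bb (G v) (f v))) -
          (e (D.wn J (w₀ + π.o.2 * z) (f v))).eval (thq J (w₀ + π.o.2 * z)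
            (thr D J (w₀ + π.o.2 * z) (f v)))| ≤ acc

/-- **The coefficients of the shape.** -/
def KtCfStmt : Prop :=
  ∀ (n K K' : ℕ), 1 ≤ n → ∃ C : ℝ, 0 ≤ C ∧
    ∀ (D : NDat2) (J a₀ w₀ z M i j : ℕ) (lam gam : ℕ → ℝ) (κ C₁ b : ℝ) (q : D.Ω → ℝ) (ω : D.Ω)
      (F : Pl (n - 1)), 1 ≤ z → i ≤ M → j ≤ M → D.Ok2 n K J a₀ w₀ z M lam gam κ C₁ q → 0 < q ω →
      0 ≤ b → F.totalDegree ≤ K' → (∀ α, |coeff α F| ≤ (2 : ℝ) ^ b) →
      ∀ α, |coeff α (kTr D n z i j F ω)| ≤ (2 : ℝ) ^ (b + C * z)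

/-- **(H1)** on a sub-law. -/
def H1TStmt : Prop :=
  ∀ (n K K₀ N k : ℕ) (D : NDat2) (π : Pls k) (J a₀ w₀ z M X bb : ℕ) (lam gam : ℕ → ℝ)
    (κ C₁ c₁ θ ι : ℝ) (q : D.Ω → ℝ) (ω₀ : D.Ω) (a : ℕ × ℕ) (Om : Type) [Fintype Om]
    (P : Om → ℝ) (f : Om → D.Ω) (G : Om → Pl (n - 1)), π.o.1 ≤ M → π.o.2 ≤ M →
    w₀ + π.o.2 * z + X ≤ J → 0 < c₁ → 0 ≤ κ → D.Ok2 n K J a₀ w₀ z M lam gam κ C₁ q →
    D.TmU J w₀ z κ q → SubL q c₁ P f → CH P G (fun v => zv D π.o.1 π.o.2 (f v)) ≤ θ →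
    (κ * z + 2) / c₁ + θ + 2 ≤ ι * X * Real.log 2 →
    (shT D π q J (w₀ + π.o.2 * z) ω₀ n X N K₀ z bb a P f G).H1' ι

/-- **(H3)** on a sub-law. -/
def H3TStmt : Prop :=
  ∀ (n K₀ N k : ℕ) (D : NDat2) (π : Pls k) (J w z X bb : ℕ) (c₁ θ ι : ℝ) (q : D.Ω → ℝ)
    (ω₀ : D.Ω) (a : ℕ × ℕ) (Om : Type) [Fintype Om] (P : Om → ℝ) (f : Om → D.Ω)
    (G : Om → Pl (n - 1)), 0 < c₁ → IsLaw q → SubL q c₁ P f →
    (∀ r : Fin k, X * Real.log 2 - θ ≤ CH q (fun ω => yd D π q J w ω₀ X (D.wn J w ω) r)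
      (fun ω => Zd D π q J w ω₀ X r (D.wn J w ω))) →
    (θ + 5) / c₁ ≤ ι * X * Real.log 2 →
    (shT D π q J w ω₀ n X N K₀ z bb a P f G).H3 ι

/-- **The middle for the true path**: all fields of `MidH` but the values and the few bits. -/
def MidBStmt : Prop :=
  ∀ (n K K' : ℕ) (lam gam : ℕ → ℝ) (C₁ : ℝ), 1 ≤ n → 1 ≤ C₁ →
    ∃ (E : ℕ) (C₀ C : ℝ), 1 ≤ C₀ ∧ 0 ≤ C ∧ ∀ (M : ℕ) (η : ℝ), 2 ≤ M → 0 < η →
    ∃ (κ₀ : ℝ) (z₀ : ℕ), 0 < κ₀ ∧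
    ∀ (J a₀ w₀ z X i j bb : ℕ) (κ c₁ : ℝ) (D : NDat2) (q : D.Ω → ℝ) (Om : Type) [Fintype Om]
      (P : Om → ℝ) (f : Om → D.Ω) (G : Om → Pl (n - 1)), z₀ ≤ z → z ≤ X → κ ≤ κ₀ → 0 ≤ κ →
      i * z + X ≤ M * z → j < M → 0 < c₁ → D.Ok2 n K J a₀ w₀ z M lam gam κ C₁ q →
      D.TmU J w₀ z κ q → SubL q c₁ P f → (∀ v, (G v).totalDegree ≤ K') →
      ∃ (Y : Om → Fin (n - 1) → ℕ) (β : D.Λ × ℕ → Fin (n - 1) → Fin (E + 1) → ℝ),
      ∀ (ϖ κ₁ e : ℝ) (nn m s : ℕ) (GG : Om → Prop), ϖ ≤ Pb P GG → η / c₁ ≤ e / 2 →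
        CH (cond P GG True) (fun v => rk s (kT D n z i j bb (G v) (f v)))
          (fun v => (D.c i j (f v), Pool.TMS.rt (fun v => D.T (f v)) J (w₀ + j * z) v)) ≤ κ₁ →
        (∃ u ≤ m, ∃ g : D.Λ × ℕ → ℤ → Polynomial ℝ, (∀ l v, (g l v).degree < nn) ∧
          Pb P (fun v => GG v ∧ ¬ |eval (fun l : Fin (n - 1) => up z (zt D i j (f v) (l + 1)))
              (kT D n z i j bb (G v) (f v)) -
            eval (fun _ => 1 / 2) (kT D n z i j bb (G v) (f v)) -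
              (g (D.wn J (w₀ + j * z) (f v)) ⌊(2 : ℝ) ^ u * rtr (fun v => D.T (f v)) J
                (w₀ + j * z) v⌋).eval (rtr (fun v => D.T (f v)) J (w₀ + j * z) v)| ≤
              1 / 2 ^ s) ≤ e / 2) →
        Pool.LSH.MidH P (fun v => D.wn J (w₀ + j * z) (f v)) (fun v => D.c i j (f v))
          (fun v => D.T (f v)) Y (fun v => kT D n z i j bb (G v) (f v)) GG β (fun _ => 1 / 2) nn
          (dT n K K') J (w₀ + j * z) X m s bb C₀ ((C * z + η * X + 2) / c₁) κ₁ ϖ e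

end Pool.VAS
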