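import Pool.Agent.H19.VAS.H5U
import Pool.Agent.H19.VAS.Obj2
import Pool.Agent.H88.VAS.MidV
import Pool.Agent.H12.LSH.Shg
import Pool.Agent.H48.GEN.L1Sh

/-!
# The middle of the case without ties: parts of the assembly
-/

set_option autoImplicit false

namespace Pool.VAS

open Finset MvPolynomial
open Pool.Agent.H49.Ent Pool.Agent.H32.Dense Pool.STK Pool.STAT Pool.MIC Pool.MicA
open Pool.MIC.Frm (sl nat)
open Pool.BFL (Pl Pb)
open Pool.TIE (SubL dg CH_event)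
open Pool.GSD (YpS ztS vtP)
open Pool.LSH (Pls Plc Pln Plg Dir SDat Fd rtr LdF)
open Pool.KAF (Pr)

/-- The context and the relative time determine the visible record. -/
theorem zv_of {D : NDat2} {n K J a₀ w₀ z M : ℕ} {lam gam : ℕ → ℝ} {κ C₁ : ℝ} {q : D.Ω → ℝ}
    (hO : D.Ok2 n K J a₀ w₀ z M lam gam κ C₁ q) {i j : ℕ} (hi : i ≤ M) (hj : j ≤ M)
    {ω ω' : D.Ω} (h1 : 0 < q ω) (h2 : 0 < q ω') (hc : D.c i j ω = D.c i j ω')
    (ht : thr D J (w₀ + j * z) ω = thr D J (w₀ + j * z) ω') :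
    zv D i j ω = zv D i j ω' ∧ D.T ω = D.T ω' ∧ D.s i j ω = D.s i j ω' := by
  have c3 : D.T ω / 2 ^ (J - (w₀ + j * z)) = D.T ω' / 2 ^ (J - (w₀ + j * z)) :=
    hO.c_T _ hi _ hj _ _ h1 h2 hc
  have c4 : D.T ω = D.T ω' := by
    have d1 := Nat.div_add_mod (D.T ω) (2 ^ (J - (w₀ + j * z)))
    have d2 := Nat.div_add_mod (D.T ω') (2 ^ (J - (w₀ + j * z)))
    unfold thr at ht
    rw [c3, ht] at d1
    exact d1.symm.trans d2
  have c5 : D.s i j ω = D.s i j ω' := hO.s_c _ hi _ hj _ _ h1 h2 (Prod.ext hc c4)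
  have c6 : D.c 0 j ω = D.c 0 j ω' := by
    have hind : ∀ r ≤ i, D.c (i - r) j ω = D.c (i - r) j ω' := by
      intro r
      induction r with
      | zero => exact fun _ => hc
      | succ r ih =>
        intro hr
        have e1 := ih (by omega)
        have e2 : i - r = (i - (r + 1)) + 1 := by omega
        rw [e2] at e1
        exact hO.c_i _ (by omega) _ hj _ _ h1 h2 e1
    have := hind i le_rfl
    rwa [Nat.sub_self] at this
  have c7 : D.s 0 j ω = D.s 0 j ω' :=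
    hO.s_c _ (Nat.zero_le _) _ hj _ _ h1 h2 (Prod.ext c6 c4)
  exact ⟨Prod.ext (Prod.ext c5 c7) c4, c4, c5⟩

theorem kT_congr {D : NDat2} {n z i j bb : ℕ} {F : Pl (n - 1)} {ω ω' : D.Ω}
    (h0 : D.X ω 0 = D.X ω' 0) (h1 : D.c i j ω = D.c i j ω') (h2 : D.s i j ω = D.s i j ω') :
    kT D n z i j bb F ω = kT D n z i j bb F ω' := by
  have e1 : D.Φ i j ω = D.Φ i j ω' := by
    unfold NDat2.Φ
    rw [h1]
  have e2 : D.Ψ i j ω = D.Ψ i j ω' := by
    unfold NDat2.Ψ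
    rw [h2]
  have e : kTr D n z i j F ω = kTr D n z i j F ω' := by
    unfold kTr
    rw [e1, e2, h0]
  unfold kT
  rw [e]

/-- **The shape over the line side has few bits.** -/
theorem few_kT {D : NDat2} {n K J a₀ w₀ z M : ℕ} {lam gam : ℕ → ℝ} {κ C₁ : ℝ} {q : D.Ω → ℝ}
    (hO : D.Ok2 n K J a₀ w₀ z M lam gam κ C₁ q) {i j : ℕ} (hi : i ≤ M) (hj : j ≤ M) (bb : ℕ)
    {Om : Type} [Fintype Om] {p : Om → ℝ} (hp : IsLaw p) (f : Om → D.Ω) (G : Om → Pl (n - 1))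
    (hpos : ∀ v, 0 < p v → 0 < q (f v)) :
    CH p (fun v => kT D n z i j bb (G v) (f v))
      (fun v => (D.c i j (f v), Pool.TMS.rt (fun v => D.T (f v)) J (w₀ + j * z) v)) ≤
      CH p G (fun v => zv D i j (f v)) := by
  refine (CH_mono_left (X' := G) hp.nonneg ?_).trans (CH_mono_cond hp.nonneg ?_)
  · intro v v' hv hv' e
    have e1 := (Prod.ext_iff.1 e).1
    have e2 := (Prod.ext_iff.1 (Prod.ext_iff.1 e).2).1
    have e3 := (Prod.ext_iff.1 (Prod.ext_iff.1 e).2).2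
    simp only at e1 e2 e3
    obtain ⟨-, h2, h3⟩ := zv_of hO hi hj (hpos v hv) (hpos v' hv') e2 e3
    simp only
    rw [e1]
    exact kT_congr (by rw [hO.X_zero, hO.X_zero, h2]) e2 h3
  · intro v v' hv hv' e
    exact (zv_of hO hi hj (hpos v hv) (hpos v' hv') (Prod.ext_iff.1 e).1 (Prod.ext_iff.1 e).2).1

theorem thq_rtr {D : NDat2} {Om : Type} (f : Om → D.Ω) (J w : ℕ) (v : Om) :
    thq J w (thr D J w (f v)) = rtr (fun v => D.T (f v)) J w v := by
  unfold thq rtr thr Pool.TMS.rt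
  rw [Nat.mod_mod]

theorem deg_add_lt {p r : Polynomial ℝ} {a b c : ℕ} (h1 : p.degree < a) (h2 : r.degree < b)
    (ha : a ≤ c) (hb : b ≤ c) : (p + r).degree < c := by
  refine lt_of_le_of_lt (Polynomial.degree_add_le _ _) (max_lt ?_ ?_)
  · exact h1.trans_le (by exact_mod_cast ha)
  · exact h2.trans_le (by exact_mod_cast hb)

/-- A sample law bound on a bad event with two parts. -/
theorem Pb_or2 {Om : Type} [Fintype Om] {p : Om → ℝ} (hp : ∀ v, 0 ≤ p v) (A B C : Om → Prop)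
    (h : ∀ v, 0 < p v → C v → A v ∨ B v) : Pb p C ≤ Pb p A + Pb p B := by
  classical
  unfold Pb
  rw [← Finset.sum_add_distrib]
  refine Finset.sum_le_sum fun v _ => ?_
  rcases (hp v).eq_or_lt with h0 | h0
  · rw [← h0]
    simp
  · by_cases hC : C v
    · rcases h v h0 hC with h1 | h1
      · rw [if_pos hC, if_pos h1]
        split_ifs <;> linarith
      · rw [if_pos hC, if_pos h1]
        split_ifs <;> linarith
    · rw [if_neg hC]
      split_ifs <;> linarith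

/-- **The values** in the form of the middle. -/
theorem vals_of {D : NDat2} {k n N K₀ : ℕ} {π : Pls k} {q : D.Ω → ℝ} {J w z X bb D₀ D₁ s u m : ℕ}
    {ω₀ : D.Ω} {a : ℕ × ℕ} {Om : Type} [Fintype Om] {P : Om → ℝ} {f : Om → D.Ω}
    {G : Om → Pl (n - 1)} {G' : Set Om} {acc κ₂ ε : ℝ} (hP : ∀ v, 0 ≤ P v) (hum : u ≤ m)
    {g : D.Λ × ℕ → ℤ → Polynomial ℝ} (hg : ∀ l v, (g l v).degree < (D₀ + 1 : ℕ))
    {e : D.Λ × ℕ → Polynomial ℝ} (he : ∀ x, (e x).degree < D₁)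
    (hgP : Pb P (fun v => v ∈ G' ∧ (2 : ℝ) ^ (-(κ₂ * (X : ℝ))) <
      |(shT D π q J w ω₀ n X N K₀ z bb a P f G).val
          ((shT D π q J w ω₀ n X N K₀ z bb a P f G).L v)
          ((shT D π q J w ω₀ n X N K₀ z bb a P f G).T v) -
        (g ((shT D π q J w ω₀ n X N K₀ z bb a P f G).L v)
          ⌊(2 : ℝ) ^ u * (shT D π q J w ω₀ n X N K₀ z bb a P f G).th
            ((shT D π q J w ω₀ n X N K₀ z bb a P f G).T v)⌋).eval
          ((shT D π q J w ω₀ n X N K₀ z bb a P f G).th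
            ((shT D π q J w ω₀ n X N K₀ z bb a P f G).T v))|) ≤ ε)
    (heP : ∀ v ∈ G', 0 < P v →
        |eval (fun l : Fin (n - 1) => up z (zt D π.o.1 π.o.2 (f v) (l + 1)))
            (kT D n z π.o.1 π.o.2 bb (G v) (f v)) -
          eval (fun _ => 1 / 2) (kT D n z π.o.1 π.o.2 bb (G v) (f v)) -
          (shT D π q J w ω₀ n X N K₀ z bb a P f G).val (D.wn J w (f v))
            (D.c π.o.1 π.o.2 (f v), (thr D J w (f v), kT D n z π.o.1 π.o.2 bb (G v) (f v))) -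
          (e (D.wn J w (f v))).eval (thq J w (thr D J w (f v)))| ≤ acc)
    (hs : acc + (2 : ℝ) ^ (-(κ₂ * (X : ℝ))) ≤ 1 / 2 ^ s) :
    ∃ u ≤ m, ∃ g : D.Λ × ℕ → ℤ → Polynomial ℝ,
      (∀ l v, (g l v).degree < ((max (D₀ + 1) D₁ : ℕ) : WithBot ℕ)) ∧
      Pb P (fun v => v ∈ G' ∧ ¬ |eval (fun l : Fin (n - 1) =>
            up z (zt D π.o.1 π.o.2 (f v) (l + 1))) (kT D n z π.o.1 π.o.2 bb (G v) (f v)) -
          eval (fun _ => 1 / 2) (kT D n z π.o.1 π.o.2 bb (G v) (f v)) -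
            (g (D.wn J w (f v)) ⌊(2 : ℝ) ^ u * rtr (fun v => D.T (f v)) J w v⌋).eval
              (rtr (fun v => D.T (f v)) J w v)| ≤ 1 / 2 ^ s) ≤ ε := by
  refine ⟨u, hum, fun l v => g l v + e l, fun l v => deg_add_lt (hg l v) (he l)
    (le_max_left _ _) (le_max_right _ _), le_trans ?_ hgP⟩
  refine Pool.MIC.Pb_mono_ae hP fun v hv hC => ⟨hC.1, ?_⟩
  by_contra hcon
  rw [not_lt] at hcon
  refine hC.2 ?_
  have h1 := heP v hC.1 hv
  have e1 : (shT D π q J w ω₀ n X N K₀ z bb a P f G).th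
      ((shT D π q J w ω₀ n X N K₀ z bb a P f G).T v) = rtr (fun v => D.T (f v)) J w v :=
    thq_rtr f J w v
  rw [e1] at hcon
  rw [thq_rtr f J w v] at h1
  have e2 : (shT D π q J w ω₀ n X N K₀ z bb a P f G).val
      ((shT D π q J w ω₀ n X N K₀ z bb a P f G).L v)
      ((shT D π q J w ω₀ n X N K₀ z bb a P f G).T v) =
      (shT D π q J w ω₀ n X N K₀ z bb a P f G).val (D.wn J w (f v))
        (D.c π.o.1 π.o.2 (f v), (thr D J w (f v), kT D n z π.o.1 π.o.2 bb (G v) (f v))) := rfl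
  have e3 : (shT D π q J w ω₀ n X N K₀ z bb a P f G).L v = D.wn J w (f v) := rfl
  rw [e2, e3] at hcon
  rw [Polynomial.eval_add]
  refine le_trans ?_ hs
  obtain ⟨A, hA⟩ : ∃ A, A = eval (fun l : Fin (n - 1) => up z (zt D π.o.1 π.o.2 (f v) (l + 1)))
    (kT D n z π.o.1 π.o.2 bb (G v) (f v)) := ⟨_, rfl⟩
  obtain ⟨B, hB⟩ : ∃ B, B = eval (fun _ => 1 / 2) (kT D n z π.o.1 π.o.2 bb (G v) (f v)) :=
    ⟨_, rfl⟩
  rw [← hA, ← hB] at h1
  rw [← hA, ← hB]
  rw [abs_le] at h1 hcon ⊢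
  constructor <;> linarith [h1.1, h1.2, hcon.1, hcon.2]

end Pool.VAS
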